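import Pool.Agent.StarkRQ.Rank3.Defs

/-!
# The roots `β`

`exists_beta`: `res E M s = toG k E s'` with `s' ∈ Gal(E/k)` (`mem_fixG_iff_res`, `mem_fixG`), and `s'`
fixes the roots of unity of `E`: elements of the commutator subgroup of `Gal(M/ℚ)` fix all roots of
unity (`commutator_fixes` in StarkRQ/Galois.lean and `Subgroup.closure_induction` or
`commutator_le`-style argument). Now `exists_root` (StarkRQ/Root.lean) for `hη.abelian` gives
`x ∈ E` with `x ^ w = η / s' η`; `η` and `s' η` are units, so `x ^ w` and `(x ^ w)⁻¹` are integral, so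
`x`, `x⁻¹` are (`IsIntegral.of_pow`). `res_apply` (StarkRQ/Branch2.lean).

`log_beta`: `∑_j lam (V j) u g = ∑_{t ∈ C} (∑_j sgn (V j) t) log ‖ι (t g u)‖
= 4 ∑_{t ∈ U} log ‖ι (t g u)‖ - 4 ∑_{t ∈ s U} log ‖ι (t g u)‖` with `U = kerR E M`
(the cosets `U`, `s U` are disjoint since `s ∉ U`). For `t ∈ U`, `t g = g t'` with `t' ∈ U`
(normal), so `t g u = g u`. For `t = s t'`, `t' ∈ U`: `t g u = s g u` and
`s g = g s (s⁻¹ g⁻¹ s g)`, `s⁻¹ g⁻¹ s g = ⁅s⁻¹, g⁻¹⁆ ∈ U`, so `s g u = g s u`. The sum is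
`4 m (log ‖ι (g u)‖ - log ‖ι (g (s u))‖) = 4 m w log ‖ι (g β)‖`.
-/

open NumberField Module
open scoped commutatorElement

namespace Pool.Agent.StarkRQ.Rank3

/-- elements of the commutator subgroup fix the roots of unity -/
private lemma Beta_fixes {M : Type*} [Field M] [NumberField M] {w : ℕ} (hw : w ≠ 0)
    {t : Gal(M/ℚ)} (ht : t ∈ commutator Gal(M/ℚ)) (x : M) (hx : x ^ w = 1) : t x = x := by
  have : NeZero w := ⟨hw⟩
  let H : Subgroup Gal(M/ℚ) :=
    { carrier := {t | ∀ x : M, x ^ w = 1 → t x = x}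
      mul_mem' := by
        intro a b ha hb x hx
        show a (b x) = x
        rw [hb x hx, ha x hx]
      one_mem' := fun x _ => rfl
      inv_mem' := by
        intro a ha x hx
        have h1 := ha x hx
        have h2 : a⁻¹ (a x) = x := by
          show (a⁻¹ * a) x = x
          rw [inv_mul_cancel]
          rfl
        rw [h1] at h2
        exact h2 }
  have hle : commutator Gal(M/ℚ) ≤ H := by
    rw [commutator_def, Subgroup.commutator_le]
    intro b _ c _ x hx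
    rw [commutatorElement_def]
    exact commutator_fixes b c x hx
  exact hle ht x hx

/-- elements of the kernel of the restriction fix the subfield -/
private lemma Beta_ker {E M : Type*} [Field E] [NumberField E] [Field M] [NumberField M]
    [Algebra E M] [IsGalois ℚ E] {t : Gal(M/ℚ)} (ht : t ∈ kerR E M) (x : E) :
    t (algebraMap E M x) = algebraMap E M x := by
  have h1 : res E M t = 1 := ht
  rw [← res_apply, h1]
  rfl

theorem exists_beta {k E M : Type*} [Field k] [NumberField k] [Field E] [NumberField E]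
    [Field M] [NumberField M] [Algebra k E] [Algebra E M] [Algebra k M] [IsScalarTower k E M]
    [IsGalois ℚ E] [IsGalois ℚ M] [IsAbelianGalois k E] {ι : M →+* ℂ} {f : ℕ} {η : (𝓞 E)ˣ}
    (hη : IsStarkUnit k (ι.comp (algebraMap E M)) f (algebraMap (𝓞 E) E η)) {s : Gal(M/ℚ)}
    (hs : s ∈ commutator Gal(M/ℚ)) (hsk : s ∈ fixG k M) :
    ∃ β : M, β ∈ (algebraMap E M).range ∧ β ≠ 0 ∧ IsIntegral ℤ β ∧ IsIntegral ℤ β⁻¹ ∧
      β ^ Units.torsionOrder E =
        algebraMap E M (algebraMap (𝓞 E) E η) / s (algebraMap E M (algebraMap (𝓞 E) E η)) := by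
  have hw0 : Units.torsionOrder E ≠ 0 := Units.torsionOrder_ne_zero E
  have hinj := (algebraMap E M).injective
  obtain ⟨s', hs'⟩ := (mem_fixG_iff_res (M₁ := E) s).1 hsk
  have hss : ∀ x : E, algebraMap E M (s' x) = s (algebraMap E M x) := by
    intro x
    rw [← res_apply, ← hs']
    rfl
  obtain ⟨E', _, _, _, _, hab, y, hy⟩ := hη.abelian
  have hcomm : ∀ σ τ : Gal(E'/k), σ * τ = τ * σ := fun σ τ => IsMulCommutative.is_comm.comm σ τ
  obtain ⟨x, hx⟩ := exists_root hcomm s' (by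
    intro ξ hξ
    apply hinj
    rw [hss]
    exact Beta_fixes hw0 hs _ (by rw [← map_pow, hξ, map_one])) hη.ne_zero hy
  have hx' : (algebraMap E M x) ^ Units.torsionOrder E =
      algebraMap E M (algebraMap (𝓞 E) E η) / s (algebraMap E M (algebraMap (𝓞 E) E η)) := by
    rw [← map_pow, hx, map_div₀, hss]
  set A : M := algebraMap E M (algebraMap (𝓞 E) E η) with hA
  set A' : M := algebraMap E M (algebraMap (𝓞 E) E ((η⁻¹ : (𝓞 E)ˣ) : 𝓞 E)) with hA'
  have hAA : A * A' = 1 := by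
    rw [hA, hA', ← map_mul, ← map_mul, Units.mul_inv, map_one, map_one]
  have hA0 : A ≠ 0 := left_ne_zero_of_mul_eq_one hAA
  have hsA0 : s A ≠ 0 := by simpa using hA0
  have hsAA : s A * s A' = 1 := by rw [← map_mul, hAA, map_one]
  have hAi : IsIntegral ℤ A := (RingOfIntegers.isIntegral_coe _).map
    (algebraMap E M).toIntAlgHom
  have hA'i : IsIntegral ℤ A' := (RingOfIntegers.isIntegral_coe _).map
    (algebraMap E M).toIntAlgHom
  have hsAi : IsIntegral ℤ (s A) := hAi.map (s : M →+* M).toIntAlgHom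
  have hsA'i : IsIntegral ℤ (s A') := hA'i.map (s : M →+* M).toIntAlgHom
  have e1 : A / s A = A * s A' := by
    rw [div_eq_iff hsA0, mul_assoc, mul_comm (s A'), hsAA, mul_one]
  have e2 : (A / s A)⁻¹ = s A * A' := by
    rw [inv_div, div_eq_iff hA0, mul_assoc, mul_comm A', hAA, mul_one]
  refine ⟨algebraMap E M x, ⟨x, rfl⟩, ?_, ?_, ?_, hx'⟩
  · intro h0
    rw [h0, zero_pow hw0] at hx'
    exact (div_ne_zero hA0 hsA0) hx'.symm
  · refine IsIntegral.of_pow (Nat.pos_of_ne_zero hw0) ?_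
    rw [hx', e1]
    exact hAi.mul hsA'i
  · refine IsIntegral.of_pow (Nat.pos_of_ne_zero hw0) ?_
    rw [inv_pow, hx', e2]
    exact hsAi.mul hA'i

/-- the absolute values of `β` -/
theorem log_beta {E M : Type*} [Field E] [NumberField E] [Field M] [NumberField M] [Algebra E M]
    [IsGalois ℚ E] [IsGalois ℚ M] {I : Type*} (J : Finset I) (V : I → Subgroup Gal(M/ℚ))
    (hU : kerR E M ≤ commutator Gal(M/ℚ)) {s : Gal(M/ℚ)} (hs : s ∈ commutator Gal(M/ℚ))
    (hsU : s ∉ kerR E M) (hcen : ∀ t ∈ commutator Gal(M/ℚ), ∀ g, ⁅t, g⁆ ∈ kerR E M)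
    (hcount : ∀ t ∈ commutator Gal(M/ℚ),
      (t ∈ kerR E M → ∑ j ∈ J, sgn (V j) t = 4) ∧
      (s⁻¹ * t ∈ kerR E M → ∑ j ∈ J, sgn (V j) t = -4) ∧
      (t ∉ kerR E M → s⁻¹ * t ∉ kerR E M → ∑ j ∈ J, sgn (V j) t = 0))
    {ι : M →+* ℂ} {u : E} (hu : u ≠ 0) {β : M} {w : ℕ}
    (hβ : β ^ w = algebraMap E M u / s (algebraMap E M u)) (g : Gal(M/ℚ)) :
    4 * (Nat.card (kerR E M) : ℝ) * w * Real.log ‖ι (g β)‖ =
      ∑ j ∈ J, lam ι (V j) (algebraMap E M u) g := by
  classical
  set a : M := algebraMap E M u with ha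
  have ha0 : a ≠ 0 := by
    rw [ha]
    simpa using hu
  set Lg : ℝ := Real.log ‖ι (g a)‖ with hLg
  set Lgs : ℝ := Real.log ‖ι (g (s a))‖ with hLgs
  have hga : ι (g a) ≠ 0 := by simpa using ha0
  have hgsa : ι (g (s a)) ≠ 0 := by simpa using ha0
  -- the left hand side
  have h1 : (w : ℝ) * Real.log ‖ι (g β)‖ = Lg - Lgs := by
    rw [← Real.log_pow, ← norm_pow, ← map_pow, ← map_pow, hβ, map_div₀, map_div₀, norm_div,
      Real.log_div (norm_ne_zero_iff.2 hga) (norm_ne_zero_iff.2 hgsa)]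
  -- elements of the kernel
  have hUn : (kerR E M).Normal := inferInstance
  have hk : ∀ t ∈ kerR E M, ∀ x : E, t (algebraMap E M x) = algebraMap E M x :=
    fun t ht x => Beta_ker ht x
  have h2 : ∀ t ∈ kerR E M, (t * g) a = g a := by
    intro t ht
    have h3 : g⁻¹ * t * g ∈ kerR E M := by
      have := hUn.conj_mem t ht g⁻¹
      rwa [inv_inv] at this
    have h4 : t * g = g * (g⁻¹ * t * g) := by group
    rw [h4]
    show g ((g⁻¹ * t * g) a) = g a
    rw [hk _ h3]
  have h3 : ∀ t, s⁻¹ * t ∈ kerR E M → (t * g) a = g (s a) := by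
    intro t ht
    have h4 : t * g = s * ((s⁻¹ * t) * g) := by group
    rw [h4]
    show s (((s⁻¹ * t) * g) a) = g (s a)
    rw [h2 _ ht]
    have h5 : ⁅s⁻¹, g⁻¹⁆ ∈ kerR E M := hcen _ (inv_mem hs) _
    have h6 : s * g = g * (s * ⁅s⁻¹, g⁻¹⁆) := by
      rw [commutatorElement_def]
      group
    show (s * g) a = g (s a)
    rw [h6]
    show g (s (⁅s⁻¹, g⁻¹⁆ a)) = g (s a)
    rw [hk _ h5]
  -- the two finite sets
  have hc1 : ((comF Gal(M/ℚ)).filter fun t => t ∈ kerR E M).card = Nat.card (kerR E M) := by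
    rw [Nat.card_eq_fintype_card, ← Finset.card_univ]
    symm
    refine Finset.card_bij (fun x _ => (x : Gal(M/ℚ))) ?_ ?_ ?_
    · intro x _
      rw [Finset.mem_filter, mem_comF]
      exact ⟨hU x.2, x.2⟩
    · intro x _ y _ h
      exact Subtype.ext h
    · intro t ht
      rw [Finset.mem_filter] at ht
      exact ⟨⟨t, ht.2⟩, Finset.mem_univ _, rfl⟩
  have hc2 : ((comF Gal(M/ℚ)).filter fun t => s⁻¹ * t ∈ kerR E M).card = Nat.card (kerR E M) := by
    rw [Nat.card_eq_fintype_card, ← Finset.card_univ]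
    symm
    refine Finset.card_bij (fun x _ => s * (x : Gal(M/ℚ))) ?_ ?_ ?_
    · intro x _
      rw [Finset.mem_filter, mem_comF, inv_mul_cancel_left]
      exact ⟨mul_mem hs (hU x.2), x.2⟩
    · intro x _ y _ h
      exact Subtype.ext (mul_left_cancel h)
    · intro t ht
      rw [Finset.mem_filter] at ht
      exact ⟨⟨s⁻¹ * t, ht.2⟩, Finset.mem_univ _, mul_inv_cancel_left _ _⟩
  have h4 : ∑ j ∈ J, lam ι (V j) a g =
      ∑ t ∈ comF Gal(M/ℚ), ((if t ∈ kerR E M then 4 * Lg else 0) -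
        (if s⁻¹ * t ∈ kerR E M then 4 * Lgs else 0)) := by
    unfold lam
    rw [Finset.sum_comm]
    refine Finset.sum_congr rfl fun t ht => ?_
    rw [mem_comF] at ht
    rw [← Finset.sum_mul]
    obtain ⟨q1, q2, q3⟩ := hcount t ht
    have hcast : (∑ j ∈ J, ((sgn (V j) t : ℤ) : ℝ)) = ((∑ j ∈ J, sgn (V j) t : ℤ) : ℝ) := by
      push_cast
      rfl
    rw [hcast]
    by_cases c1 : t ∈ kerR E M
    · have c2 : s⁻¹ * t ∉ kerR E M := by
        intro c2
        apply hsU
        have : s = t * (s⁻¹ * t)⁻¹ := by group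
        rw [this]
        exact mul_mem c1 (inv_mem c2)
      rw [if_pos c1, if_neg c2, q1 c1, h2 t c1]
      push_cast
      ring
    · by_cases c2 : s⁻¹ * t ∈ kerR E M
      · rw [if_neg c1, if_pos c2, q2 c2, h3 t c2]
        push_cast
        ring
      · rw [if_neg c1, if_neg c2, q3 c1 c2]
        push_cast
        ring
  rw [h4, Finset.sum_sub_distrib, ← Finset.sum_filter, ← Finset.sum_filter, Finset.sum_const,
    Finset.sum_const, hc1, hc2, nsmul_eq_mul, nsmul_eq_mul]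
  have h5 : 4 * (Nat.card (kerR E M) : ℝ) * w * Real.log ‖ι (g β)‖ =
      4 * (Nat.card (kerR E M) : ℝ) * ((w : ℝ) * Real.log ‖ι (g β)‖) := by ring
  rw [h5, h1]
  ring

end Pool.Agent.StarkRQ.Rank3
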