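import Pool.Agent.StarkRQ.Rank3.Defs

/-!
# Artin symbols over `D` in terms of those over `E`, summed over lifts to `M`

`k ⊆ D ⊆ E ⊆ M`. If `res D M g ∉ fixG k D` both sides are `0` (`cnt k D n h = 0` for `h ∉ fixG k D`,
because `toG` has values in `fixG`; and `res E M (t * g) ∉ fixG k E`). Otherwise let `a ∈ Gal(D/k)`
with `toG k D a = res D M g`. By `zcoeff_restrict` (StarkRQ/Restrict.lean) for `k ⊆ D ⊆ E` and
`zcoeff_eq_cnt` (StarkRQ/ArtSpec.lean), `cnt k D n (res D M g)` is the sum of `cnt k E n (toG s)` over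
the `s ∈ Gal(E/k)` with restriction `a` to `D`, i.e. of `cnt k E n h` over the `h ∈ Gal(E/ℚ)` with
`res D E h = res D M g` (those are in `fixG k E`). Every such `h` is `res E M (t * g)` for exactly
`Nat.card (kerR E M)` elements `t ∈ S` (`res E M` is surjective, the fibres are cosets of the
kernel). Model: `cnt_restrict` in StarkRQ/KleinCoeff.lean. `res_apply` is in StarkRQ/Branch2.lean.
-/

open NumberField Module
open scoped commutatorElement

namespace Pool.Agent.StarkRQ.Rank3

private lemma SumCnt_res_res {D E M : Type*} [Field D] [NumberField D]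
    [Field E] [NumberField E] [Field M] [NumberField M] [Algebra D E]
    [Algebra E M] [Algebra D M] [IsScalarTower D E M]
    [IsGalois ℚ D] [IsGalois ℚ E] (g : Gal(M/ℚ)) :
    res D E (res E M g) = res D M g := by
  ext x
  apply (algebraMap D M).injective
  rw [res_apply, IsScalarTower.algebraMap_apply D E M, res_apply, res_apply,
    ← IsScalarTower.algebraMap_apply D E M]

private lemma SumCnt_zero {k D : Type*} [Field k] [NumberField k] [Field D] [NumberField D]
    [Algebra k D] (n : ℕ) {h : Gal(D/ℚ)} (hh : h ∉ fixG k D) : cnt k D n h = 0 := by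
  unfold cnt
  have : IsEmpty {𝔞 : Ideal (𝓞 k) // Ideal.absNorm 𝔞 = n ∧ toG k D (art 𝔞) = h} := by
    constructor
    rintro ⟨𝔞, -, h2⟩
    exact hh ⟨_, h2⟩
  exact Nat.card_of_isEmpty

private lemma SumCnt_toG_restrict {k D E : Type*} [Field k] [NumberField k] [Field D]
    [NumberField D] [Field E] [NumberField E] [Algebra k E] [Algebra k D] [Algebra D E]
    [IsScalarTower k D E] [IsGalois ℚ D] [IsGalois k D] (s : Gal(E/k)) :
    toG k D (AlgEquiv.restrictNormalHom D s) = res D E (toG k E s) := by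
  ext y
  apply (algebraMap D E).injective
  rw [res_apply, toG_apply, toG_apply]
  exact AlgEquiv.restrictNormal_commutes s D y

open Classical in
private lemma SumCnt_key {k D E : Type*} [Field k] [NumberField k] [Field D] [NumberField D]
    [Field E] [NumberField E] [Algebra k D] [Algebra D E] [Algebra k E]
    [IsScalarTower k D E] [IsGalois ℚ D] [IsGalois ℚ E] [IsGalois k D] [IsGalois k E]
    (hB : ∀ σ τ : Gal(E/k), σ * τ = τ * σ) {f : ℕ}
    (hram : ∀ p : ℕ, p.Prime → (p : ℤ) ∣ discr E → p ∣ f) (n : ℕ) (hn : n ≠ 0)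
    (hnf : n.Coprime f) (h₀ : Gal(D/ℚ)) :
    cnt k D n h₀ = ∑ h ∈ Finset.univ.filter (fun h : Gal(E/ℚ) => res D E h = h₀),
      cnt k E n h := by
  by_cases hfix : h₀ ∈ fixG k D
  · obtain ⟨a, rfl⟩ := hfix
    have hramD : ∀ p : ℕ, p.Prime → (p : ℤ) ∣ discr D → p ∣ f := fun p hp h =>
      hram p hp (h.trans (discr_dvd_discr D E))
    have hBD : ∀ σ τ : Gal(D/k), σ * τ = τ * σ := by
      intro σ τ
      obtain ⟨s, rfl⟩ := AlgEquiv.restrictNormalHom_surjective (F := k) (K₁ := D) E σ
      obtain ⟨t, rfl⟩ := AlgEquiv.restrictNormalHom_surjective (F := k) (K₁ := D) E τ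
      rw [← map_mul, hB, map_mul]
    rw [← zcoeff_eq_cnt hBD hramD hn hnf, zcoeff_restrict (M := E) hB hram _ n hn,
      finsum_eq_sum_of_fintype]
    have e1 : (∑ t : {t : Gal(E/k) // AlgEquiv.restrictNormalHom D t = a},
        zcoeff f (t : Gal(E/k)) n) =
        ∑ t ∈ Finset.univ.filter (fun t : Gal(E/k) => AlgEquiv.restrictNormalHom D t = a),
          zcoeff f t n := by
      symm
      exact Finset.sum_subtype _ (by simp) _
    rw [e1]
    refine Finset.sum_bij (fun s _ => toG k E s) ?_ ?_ ?_ ?_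
    · intro s hs
      rw [Finset.mem_filter] at hs ⊢
      refine ⟨Finset.mem_univ _, ?_⟩
      rw [← SumCnt_toG_restrict, hs.2]
    · intro s _ t _ h
      exact toG_injective h
    · intro h hh
      rw [Finset.mem_filter] at hh
      have h1 : h ∈ fixG k E := by
        rw [mem_fixG_iff_res (M₁ := D), hh.2]
        exact ⟨a, rfl⟩
      obtain ⟨s, rfl⟩ := h1
      refine ⟨s, ?_, rfl⟩
      rw [Finset.mem_filter]
      refine ⟨Finset.mem_univ _, ?_⟩
      apply toG_injective
      rw [SumCnt_toG_restrict, hh.2]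
    · intro s _
      rw [zcoeff_eq_cnt hB hram hn hnf]
  · rw [SumCnt_zero n hfix]
    symm
    refine Finset.sum_eq_zero fun h hh => ?_
    rw [Finset.mem_filter] at hh
    apply SumCnt_zero
    rw [mem_fixG_iff_res (M₁ := D), hh.2]
    exact hfix

theorem sum_cnt {k D E M : Type*} [Field k] [NumberField k] [Field D] [NumberField D]
    [Field E] [NumberField E] [Field M] [NumberField M] [Algebra k D] [Algebra D E] [Algebra k E]
    [IsScalarTower k D E] [Algebra E M] [Algebra D M] [IsScalarTower D E M]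
    [IsGalois ℚ D] [IsGalois ℚ E] [IsGalois ℚ M] [IsGalois k D] [IsGalois k E]
    (hB : ∀ σ τ : Gal(E/k), σ * τ = τ * σ) {f : ℕ}
    (hram : ∀ p : ℕ, p.Prime → (p : ℤ) ∣ discr E → p ∣ f) (n : ℕ) (hn : n ≠ 0)
    (hnf : n.Coprime f) (g : Gal(M/ℚ)) (S : Finset Gal(M/ℚ))
    (hS : ∀ t, t ∈ S ↔ res D M t = 1) :
    Nat.card (kerR E M) * cnt k D n (res D M g) = ∑ t ∈ S, cnt k E n (res E M (t * g)) := by
  classical
  set T : Finset Gal(E/ℚ) := Finset.univ.filter fun h => res D E h = res D M g with hT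
  have hmap : ∀ t ∈ S, res E M (t * g) ∈ T := by
    intro t ht
    rw [hT, Finset.mem_filter]
    refine ⟨Finset.mem_univ _, ?_⟩
    rw [SumCnt_res_res, map_mul, (hS t).1 ht, one_mul]
  rw [SumCnt_key hB hram n hn hnf, ← Finset.sum_fiberwise_of_maps_to hmap, Finset.mul_sum]
  refine Finset.sum_congr rfl fun h hh => ?_
  have hh2 : res D E h = res D M g := by
    rw [hT, Finset.mem_filter] at hh
    exact hh.2
  have hcard : (S.filter fun t => res E M (t * g) = h).card = Nat.card (kerR E M) := by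
    obtain ⟨t₀, ht₀⟩ := AlgEquiv.restrictNormalHom_surjective (F := ℚ) (K₁ := E) M h
    rw [Nat.card_eq_fintype_card, ← Finset.card_univ]
    symm
    refine Finset.card_bij (fun x _ => (x : Gal(M/ℚ)) * t₀ * g⁻¹) ?_ ?_ ?_
    · intro x _
      have hx : res E M (x : Gal(M/ℚ)) = 1 := x.2
      have h1 : res E M ((x : Gal(M/ℚ)) * t₀ * g⁻¹ * g) = h := by
        rw [inv_mul_cancel_right, map_mul, hx, one_mul]
        exact ht₀
      rw [Finset.mem_filter]
      refine ⟨?_, h1⟩
      rw [hS]
      have h2 : res D M ((x : Gal(M/ℚ)) * t₀ * g⁻¹ * g) = res D M g := by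
        rw [← SumCnt_res_res (E := E), h1, hh2]
      rw [map_mul] at h2
      exact mul_eq_right.mp h2
    · intro x _ y _ hxy
      exact Subtype.ext (mul_right_cancel (mul_right_cancel hxy))
    · intro t ht
      rw [Finset.mem_filter] at ht
      refine ⟨⟨t * g * t₀⁻¹, ?_⟩, Finset.mem_univ _, ?_⟩
      · rw [MonoidHom.mem_ker, map_mul, ht.2, map_inv]
        have h3 : res E M t₀ = h := ht₀
        rw [h3, mul_inv_cancel]
      · show t * g * t₀⁻¹ * t₀ * g⁻¹ = t
        rw [inv_mul_cancel_right, mul_inv_cancel_right]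
  rw [← hcard, Finset.sum_congr rfl (fun t ht => by rw [(Finset.mem_filter.1 ht).2]),
    Finset.sum_const, smul_eq_mul]

end Pool.Agent.StarkRQ.Rank3
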