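import Pool.Agent.StarkRQ.Rank3.PairGroup
import Pool.Agent.StarkRQ.Rank3.SumCnt

/-!
# The counting functions of two quadratic fields

`V = kerR E M ⊔ kerR E' M ≤ C = commutator Gal(M/ℚ) ≤ fixG k M ⊓ fixG k' M` (index two subgroups).
Let `D = IntermediateField.fixedField V`, a Galois number field (`V` is normal), contained in the
images of `E` and `E'` (elements fixed by `kerR E M` are in the image of `E`: `mem_range_iff_res` in
StarkRQ/Klein.lean; copy it, do not import that file) and containing the images of `k`, `k'`. Give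
`D` its algebra structures: `Algebra k D`, `Algebra k' D`, `Algebra D E`, `Algebra D E'`, with
`IsScalarTower k D E`, `IsScalarTower D E M` etc. `(res D M).ker = V`.
`Gal(D/k)`, `Gal(D/k')` are abelian (quotients of `Gal(E/k)`, `Gal(E'/k')`), so `pair_group` for
`Q = Gal(D/ℚ)`, `A = fixG k D`, `B = fixG k' D` gives `z` with `ZData` (`A ≠ B` by `hne`,
`mem_fixG_iff_res`), and `z ≠ 1` because `C` maps onto `commutator Q = {1, z}` and `C ≠ V`.
So `C` is the disjoint union of `V` and `{t | res D M t = z} = V * t₀`, and with `m` the order of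
`kerR E M`, `sum_cnt` (for `g` and for `t₀ * g`) gives
`ccnt k E M V n g = m * dcnt k D z n (res D M g)`, and the same for `k'`, `E'`.
Now use `dcnt_eq` (StarkRQ/Coeff.lean) for `K := k`, `k := k'`, `M := D`
(`discr_dvd_discr` for the ramified primes).
-/

open NumberField Module
open scoped commutatorElement

namespace Pool.Agent.StarkRQ.Rank3

private lemma Bridge_comm {K M₁ M : Type*} [Field K] [NumberField K] [Field M₁]
    [NumberField M₁] [Field M] [NumberField M] [Algebra K M] [Algebra K M₁] [Algebra M₁ M]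
    [IsScalarTower K M₁ M] [IsGalois K M] [IsGalois K M₁]
    (hA : ∀ σ τ : Gal(M/K), σ * τ = τ * σ) (σ τ : Gal(M₁/K)) : σ * τ = τ * σ := by
  obtain ⟨s, rfl⟩ := AlgEquiv.restrictNormalHom_surjective (F := K) (K₁ := M₁) M σ
  obtain ⟨t, rfl⟩ := AlgEquiv.restrictNormalHom_surjective (F := K) (K₁ := M₁) M τ
  rw [← map_mul, hA, map_mul]

private lemma Bridge_mem_range {M₁ M : Type*} [Field M₁] [NumberField M₁] [Field M] [NumberField M]
    [Algebra M₁ M] [IsGalois ℚ M₁] [IsGalois ℚ M] (x : M)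
    (h : ∀ g : Gal(M/ℚ), g ∈ kerR M₁ M → g x = x) : x ∈ (algebraMap M₁ M).range := by
  have : IsGalois M₁ M := IsGalois.tower_top_of_isGalois ℚ M₁ M
  rw [RingHom.mem_range]
  refine (InfiniteGalois.mem_range_algebraMap_iff_fixed x).mpr fun ρ => ?_
  refine h (ρ.restrictScalars ℚ) ?_
  rw [MonoidHom.mem_ker]
  ext y
  apply (algebraMap M₁ M).injective
  rw [res_apply]
  exact ρ.commutes y

/-- lifting a homomorphism with image in `E` -/
private lemma Bridge_lift {A E M : Type*} [Field A] [Field E] [Field M] [Algebra E M] (f : A →+* M)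
    (h : ∀ x, f x ∈ (algebraMap E M).range) : ∃ φ : A →+* E, ∀ x, algebraMap E M (φ x) = f x := by
  have hb : Function.Bijective (algebraMap E M).rangeRestrict :=
    ⟨fun a b hab => (algebraMap E M).injective (congrArg Subtype.val hab),
      RingHom.rangeRestrict_surjective _⟩
  let e : E ≃+* (algebraMap E M).range := RingEquiv.ofBijective (algebraMap E M).rangeRestrict hb
  refine ⟨(e.symm : (algebraMap E M).range →+* E).comp (f.codRestrict (algebraMap E M).range h),
    fun x => ?_⟩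
  have h1 : e (e.symm (f.codRestrict (algebraMap E M).range h x)) =
      f.codRestrict (algebraMap E M).range h x := e.apply_symm_apply _
  exact congrArg Subtype.val h1

section aux
variable {k D E M : Type*} [Field k] [NumberField k] [Field D] [NumberField D]
    [Field E] [NumberField E] [Field M] [NumberField M]
    [Algebra k D] [Algebra D E] [Algebra k E] [IsScalarTower k D E] [Algebra E M] [Algebra D M]
    [IsScalarTower D E M]
    [IsGalois ℚ D] [IsGalois ℚ E] [IsGalois ℚ M] [IsGalois k D] [IsGalois k E]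

/-- the sum over `C` in terms of `D` -/
private lemma Bridge_ccnt (hB : ∀ σ τ : Gal(E/k), σ * τ = τ * σ) {f : ℕ}
    (hram : ∀ p : ℕ, p.Prime → (p : ℤ) ∣ discr E → p ∣ f) (n : ℕ) (hn : n ≠ 0)
    (hnf : n.Coprime f) {V : Subgroup Gal(M/ℚ)} (hV : ∀ t, t ∈ V ↔ res D M t = 1)
    {z : Gal(D/ℚ)} (hz1 : z ≠ 1)
    (hC : ∀ t, t ∈ commutator Gal(M/ℚ) ↔ res D M t = 1 ∨ res D M t = z)
    {t₀ : Gal(M/ℚ)} (ht₀ : res D M t₀ = z) (g : Gal(M/ℚ)) :
    ccnt k E M V n g = Nat.card (kerR E M) * dcnt k D z n (res D M g) := by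
  classical
  set S : Finset Gal(M/ℚ) := Finset.univ.filter fun t => res D M t = 1 with hS
  have hSm : ∀ t, t ∈ S ↔ res D M t = 1 := fun t => by simp [hS]
  have h1 := sum_cnt (k := k) (D := D) (E := E) (M := M) hB hram n hn hnf g S hSm
  have h2 := sum_cnt (k := k) (D := D) (E := E) (M := M) hB hram n hn hnf (t₀ * g) S hSm
  rw [map_mul, ht₀] at h2
  have h3 : comF Gal(M/ℚ) = S ∪ S.image (fun t => t * t₀) := by
    ext t
    rw [mem_comF, hC, Finset.mem_union, hSm, Finset.mem_image]
    refine or_congr_right ⟨fun h => ⟨t * t₀⁻¹, ?_, by group⟩, ?_⟩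
    · rw [hSm, map_mul, map_inv, h, ht₀, mul_inv_cancel]
    · rintro ⟨s, hs, rfl⟩
      rw [map_mul, (hSm s).1 hs, ht₀, one_mul]
  have h4 : Disjoint S (S.image (fun t => t * t₀)) := by
    rw [Finset.disjoint_left]
    intro t ht ht'
    rw [Finset.mem_image] at ht'
    obtain ⟨s, hs, rfl⟩ := ht'
    rw [hSm, map_mul, (hSm s).1 hs, ht₀, one_mul] at ht
    exact hz1 ht
  unfold ccnt dcnt
  rw [h3, Finset.sum_union h4, Finset.sum_image (fun a _ b _ h => mul_right_cancel h)]
  have h5 : ∑ t ∈ S, sgn V t * (cnt k E n (res E M (t * g)) : ℤ) =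
      Nat.card (kerR E M) * (cnt k D n (res D M g) : ℤ) := by
    rw [← Nat.cast_mul, h1]
    push_cast
    refine Finset.sum_congr rfl fun t ht => ?_
    rw [sgn, if_pos ((hV t).2 ((hSm t).1 ht)), one_mul]
  have h6 : ∑ t ∈ S, sgn V (t * t₀) * (cnt k E n (res E M (t * t₀ * g)) : ℤ) =
      - (Nat.card (kerR E M) * (cnt k D n (z * res D M g) : ℤ)) := by
    rw [← Nat.cast_mul, h2]
    push_cast
    rw [← Finset.sum_neg_distrib]
    refine Finset.sum_congr rfl fun t ht => ?_
    rw [sgn, if_neg, mul_assoc t t₀ g]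
    · ring
    · rw [hV, map_mul, (hSm t).1 ht, one_mul, ht₀]
      exact hz1
  rw [h5, h6]
  ring

end aux

section aux2
variable {k k' D E E' M : Type*} [Field k] [NumberField k] [Field k'] [NumberField k']
    [Field D] [NumberField D]
    [Field E] [NumberField E] [Field E'] [NumberField E'] [Field M] [NumberField M]
    [Algebra k E] [Algebra k' E'] [Algebra E M] [Algebra E' M]
    [Algebra k M] [IsScalarTower k E M] [Algebra k' M] [IsScalarTower k' E' M]
    [Algebra k D] [Algebra k' D] [Algebra D E] [Algebra D E'] [Algebra D M]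
    [IsScalarTower k D E] [IsScalarTower k' D E'] [IsScalarTower D E M] [IsScalarTower D E' M]
    [IsGalois ℚ D]
    [IsGalois ℚ E] [IsGalois ℚ E'] [IsGalois ℚ M] [IsAbelianGalois k E] [IsAbelianGalois k' E']

private lemma Bridge_aux (hk : finrank ℚ k = 2) (hk' : finrank ℚ k' = 2)
    (hne : fixG k M ≠ fixG k' M)
    (hU : kerR E M ≤ commutator Gal(M/ℚ)) (hU' : kerR E' M ≤ commutator Gal(M/ℚ))
    (hmeet : kerR E M ⊔ kerR E' M ≠ commutator Gal(M/ℚ))
    (hcard : Nat.card (kerR E M) = Nat.card (kerR E' M)) {f : ℕ} (hf : f ≠ 0)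
    (hram : ∀ p : ℕ, p.Prime → (p : ℤ) ∣ discr M → p ∣ f) (n : ℕ) (hn : n ≠ 0)
    (hnf : n.Coprime f) (hV : ∀ t, t ∈ kerR E M ⊔ kerR E' M ↔ res D M t = 1) (g : Gal(M/ℚ)) :
    ccnt k E M (kerR E M ⊔ kerR E' M) n g = ccnt k' E' M (kerR E M ⊔ kerR E' M) n g ∧
      (¬ (g ∈ fixG k M ∧ g ∈ fixG k' M) → ccnt k E M (kerR E M ⊔ kerR E' M) n g = 0) := by
  have : IsAbelianGalois k D := IsAbelianGalois.tower_bot k D E
  have : IsAbelianGalois k' D := IsAbelianGalois.tower_bot k' D E'
  have hT : IsScalarTower k D M := IsScalarTower.of_algebraMap_eq fun x => by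
    rw [IsScalarTower.algebraMap_apply k E M, IsScalarTower.algebraMap_apply k D E,
      ← IsScalarTower.algebraMap_apply D E M]
  have hT' : IsScalarTower k' D M := IsScalarTower.of_algebraMap_eq fun x => by
    rw [IsScalarTower.algebraMap_apply k' E' M, IsScalarTower.algebraMap_apply k' D E',
      ← IsScalarTower.algebraMap_apply D E' M]
  have hramD : ∀ p : ℕ, p.Prime → (p : ℤ) ∣ discr D → p ∣ f := fun p hp h =>
    hram p hp (h.trans (discr_dvd_discr D M))
  have hramE : ∀ p : ℕ, p.Prime → (p : ℤ) ∣ discr E → p ∣ f := fun p hp h =>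
    hram p hp (h.trans (discr_dvd_discr E M))
  have hramE' : ∀ p : ℕ, p.Prime → (p : ℤ) ∣ discr E' → p ∣ f := fun p hp h =>
    hram p hp (h.trans (discr_dvd_discr E' M))
  have hcD : ∀ σ τ : Gal(D/k), σ * τ = τ * σ := fun σ τ => mul_comm' σ τ
  have hcD' : ∀ σ τ : Gal(D/k'), σ * τ = τ * σ := fun σ τ => mul_comm' σ τ
  have hcE : ∀ σ τ : Gal(E/k), σ * τ = τ * σ := fun σ τ => mul_comm' σ τ
  have hcE' : ∀ σ τ : Gal(E'/k'), σ * τ = τ * σ := fun σ τ => mul_comm' σ τ
  have hsurj : Function.Surjective (res D M) :=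
    AlgEquiv.restrictNormalHom_surjective (F := ℚ) (K₁ := D) M
  have hneD : fixG k D ≠ fixG k' D := by
    intro h
    apply hne
    ext g
    rw [mem_fixG_iff_res (M₁ := D), mem_fixG_iff_res (K := k') (M₁ := D), h]
  obtain ⟨z, hz, -, hcomm⟩ := pair_group (fixG_index (M := D) hk) (fixG_index (M := D) hk')
    (fixG_comm hcD) (fixG_comm hcD') hneD
  have hmap : (commutator Gal(M/ℚ)).map (res D M) = commutator Gal(D/ℚ) := by
    rw [commutator_def, commutator_def, Subgroup.map_commutator,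
      Subgroup.map_top_of_surjective _ hsurj]
  have hC : ∀ t, t ∈ commutator Gal(M/ℚ) ↔ res D M t = 1 ∨ res D M t = z := by
    intro t
    rw [← hcomm, ← hmap]
    refine ⟨fun h => Subgroup.mem_map_of_mem _ h, ?_⟩
    rintro ⟨s, hs, hst⟩
    have h1 : s⁻¹ * t ∈ kerR E M ⊔ kerR E' M := by
      rw [hV, map_mul, map_inv, ← hst, inv_mul_cancel]
    have h2 := Subgroup.mul_mem _ hs (sup_le hU hU' h1)
    rwa [mul_inv_cancel_left] at h2
  have hz1 : z ≠ 1 := by
    rintro rfl
    apply hmeet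
    refine le_antisymm (sup_le hU hU') fun t ht => ?_
    rw [hV]
    rcases (hC t).1 ht with h | h <;> exact h
  obtain ⟨t₀, ht₀⟩ := hsurj z
  have e1 := Bridge_ccnt (k := k) (D := D) (E := E) hcE hramE n hn hnf hV hz1 hC ht₀ g
  have e2 := Bridge_ccnt (k := k') (D := D) (E := E') hcE' hramE' n hn hnf hV hz1 hC ht₀ g
  obtain ⟨h1, h2⟩ := dcnt_eq hk hk' hcD hcD' hf hramD hz n hn hnf
  refine ⟨?_, fun h => ?_⟩
  · rw [e1, e2, h1, hcard]
  · rw [e1, h2, mul_zero]
    rwa [mem_fixG_iff_res (M₁ := D), mem_fixG_iff_res (K := k') (M₁ := D)] at h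

end aux2

section P6
variable {k k' E E' M : Type*} [Field k] [NumberField k] [Field k'] [NumberField k']
    [Field E] [NumberField E] [Field E'] [NumberField E'] [Field M] [NumberField M]
    [Algebra k E] [Algebra k' E'] [Algebra E M] [Algebra E' M]
    [Algebra k M] [IsScalarTower k E M] [Algebra k' M] [IsScalarTower k' E' M]
    [IsGalois ℚ E] [IsGalois ℚ E'] [IsGalois ℚ M] [IsAbelianGalois k E] [IsAbelianGalois k' E']

theorem bridge (hk : finrank ℚ k = 2) (hk' : finrank ℚ k' = 2) (hne : fixG k M ≠ fixG k' M)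
    (hU : kerR E M ≤ commutator Gal(M/ℚ)) (hU' : kerR E' M ≤ commutator Gal(M/ℚ))
    (hmeet : kerR E M ⊔ kerR E' M ≠ commutator Gal(M/ℚ))
    (hcard : Nat.card (kerR E M) = Nat.card (kerR E' M)) {f : ℕ} (hf : f ≠ 0)
    (hram : ∀ p : ℕ, p.Prime → (p : ℤ) ∣ discr M → p ∣ f) (n : ℕ) (hn : n ≠ 0)
    (hnf : n.Coprime f) (g : Gal(M/ℚ)) :
    ccnt k E M (kerR E M ⊔ kerR E' M) n g = ccnt k' E' M (kerR E M ⊔ kerR E' M) n g ∧
      (¬ (g ∈ fixG k M ∧ g ∈ fixG k' M) → ccnt k E M (kerR E M ⊔ kerR E' M) n g = 0) := by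
  have : IsGalois k M := IsGalois.tower_top_of_isGalois ℚ k M
  have : IsGalois k' M := IsGalois.tower_top_of_isGalois ℚ k' M
  -- `C` fixes `k` and `k'`
  have hfix : ∀ {A : Subgroup Gal(M/ℚ)}, A.index = 2 → commutator Gal(M/ℚ) ≤ A := by
    intro A hA
    have : A.Normal := Subgroup.normal_of_index_eq_two hA
    rw [commutator_def, Subgroup.commutator_le]
    intro g₁ _ g₂ _
    rw [commutatorElement_def, Subgroup.mul_mem_iff_of_index_two hA,
      Subgroup.mul_mem_iff_of_index_two hA, Subgroup.mul_mem_iff_of_index_two hA, inv_mem_iff,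
      inv_mem_iff]
    tauto
  have hCk := hfix (fixG_index (M := M) hk)
  have hCk' := hfix (fixG_index (M := M) hk')
  set V := kerR E M ⊔ kerR E' M with hVdef
  have hVC : V ≤ commutator Gal(M/ℚ) := sup_le hU hU'
  have hVn : V.Normal := Subgroup.sup_normal _ _
  let F : IntermediateField ℚ M := IntermediateField.fixedField V
  have hF : ∀ x : M, x ∈ F ↔ ∀ g ∈ V, g x = x := by
    intro x
    rw [IntermediateField.mem_fixedField_iff]
  have : IsGalois ℚ F := IsGalois.of_fixedField_normal_subgroup V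
  have hkF : ∀ x : k, algebraMap k M x ∈ F := by
    intro x
    rw [hF]
    intro g hg
    exact mem_fixG.1 (hCk (hVC hg)) x
  have hkF' : ∀ x : k', algebraMap k' M x ∈ F := by
    intro x
    rw [hF]
    intro g hg
    exact mem_fixG.1 (hCk' (hVC hg)) x
  obtain ⟨φ, hφ⟩ := Bridge_lift (E := E) (algebraMap F M) (fun x => Bridge_mem_range _ fun g hg =>
    (hF _).1 x.2 g ((le_sup_left : kerR E M ≤ V) hg))
  obtain ⟨φ', hφ'⟩ := Bridge_lift (E := E') (algebraMap F M) (fun x => Bridge_mem_range _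
    fun g hg => (hF _).1 x.2 g ((le_sup_right : kerR E' M ≤ V) hg))
  let _ : Algebra k F := ((algebraMap k M).codRestrict F hkF).toAlgebra
  let _ : Algebra k' F := ((algebraMap k' M).codRestrict F hkF').toAlgebra
  let _ : Algebra F E := φ.toAlgebra
  let _ : Algebra F E' := φ'.toAlgebra
  have : IsScalarTower F E M := IsScalarTower.of_algebraMap_eq fun x => (hφ x).symm
  have : IsScalarTower F E' M := IsScalarTower.of_algebraMap_eq fun x => (hφ' x).symm
  have : IsScalarTower k F E := IsScalarTower.of_algebraMap_eq fun x => by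
    apply (algebraMap E M).injective
    rw [← IsScalarTower.algebraMap_apply]
    exact (hφ (algebraMap k F x)).symm
  have : IsScalarTower k' F E' := IsScalarTower.of_algebraMap_eq fun x => by
    apply (algebraMap E' M).injective
    rw [← IsScalarTower.algebraMap_apply]
    exact (hφ' (algebraMap k' F x)).symm
  refine Bridge_aux (D := F) hk hk' hne hU hU' hmeet hcard hf hram n hn hnf ?_ g
  intro t
  have h1 : t ∈ V ↔ t ∈ F.fixingSubgroup := by
    rw [IntermediateField.fixingSubgroup_fixedField]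
  rw [← hVdef, h1, IntermediateField.mem_fixingSubgroup_iff]
  constructor
  · intro h
    ext y
    have h2 := res_apply (M₁ := F) t y
    rw [show algebraMap F M y = (y : M) from rfl, h _ y.2] at h2
    exact h2
  · intro h x hx
    have h2 := res_apply (M₁ := F) t ⟨x, hx⟩
    rw [h] at h2
    exact h2.symm

end P6

end Pool.Agent.StarkRQ.Rank3
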