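import Pool.Agent.StarkRQ.Rank3.PairMeet

/-!
# The characters of `commutator G / U i` (pure group theory)

Fix `i` and put `C = commutator G`, `V j = U i ⊔ U j` and `κ j = sgn (V j)` on `C` for `j ≠ i`, a
homomorphism `C → {1, -1}` as `V j` has index `2` in `C` (`pair_meet`). By `pair_meet`,
`κ j ⁅g, h⁆ = -1` iff exactly one of (`g ∉ A i` and `h ∉ A j`), (`g ∉ A j` and `h ∉ A i`) holds.
(a) The product of the four `κ j` (`j ≠ i`) is `1` on `C`: it is a homomorphism, so it suffices
to look at commutators, and there the number of `j ≠ i` with `κ j ⁅g, h⁆ = -1` is even because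
`{j | g ∉ A j}` and `{j | h ∉ A j}` are even (`hpar`).
(b) For `a ≠ b` different from `i` let `g` have the set `{i, a}` and `h` the set `{a, b}` (`hsurj`).
Then `κ j ⁅g, h⁆ = -1` iff `j = a` or `j = b`. So the image of `C` in `{1, -1}^4` consists of all
eight even vectors. As `U i` has index `8` in `C` and is contained in the kernel of
`(κ j) : C → {1, -1}^4`, `U i` is equal to this kernel: `t ∈ U i` iff `t ∈ V j` for all `j ≠ i`.
(c) Hence: `V j` is normal in `G` of index `2` in `C`, so `κ j (g t g⁻¹) = κ j t`, `⁅t, g⁆` is in all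
`V j`, so in `U i`; and `t * t` is in all `V j`.
(d) For `t ∈ C` the number of `j ≠ i` with `κ j t = -1` is `0`, `2` or `4`, the sum of the `κ j t`
is `4`, `0`, `-4`; it is `0` exactly for `t ∈ U i`, and `4` exactly if all `κ j (s⁻¹ t) = 1`.
-/

open NumberField Module
open scoped commutatorElement

namespace Pool.Agent.StarkRQ.Rank3

variable {G : Type*} [Group G] {I : Type*} [Fintype I] [DecidableEq I]

omit [DecidableEq I] in
private lemma even_sum_indicator {A : I → Subgroup G} (hpar : ∀ g, Even (Set.ncard {i | g ∉ A i}))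
    (g : G) : ∑ j, (open Classical in if g ∈ A j then (0 : ZMod 2) else 1) = 0 := by
  classical
  have h1 := hpar g
  have h2 : Set.ncard {i | g ∉ A i} = (Finset.univ.filter fun i => g ∉ A i).card := by
    rw [← Set.ncard_coe_finset]
    congr 1
    ext j
    simp
  rw [h2] at h1
  have h3 : ∑ j, (if g ∈ A j then (0 : ZMod 2) else 1) =
      ((Finset.univ.filter fun i => g ∉ A i).card : ZMod 2) := by
    rw [Finset.card_filter]
    push_cast
    refine Finset.sum_congr rfl fun j _ => ?_
    by_cases h : g ∈ A j <;> simp [h]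
  rw [h3]
  exact (ZMod.natCast_eq_zero_iff_even).2 h1

theorem count_sgn (hI : Fintype.card I = 5) {A U : I → Subgroup G} [hUn : ∀ i, (U i).Normal]
    (hidx : ∀ i, (A i).index = 2) (hsurj : ∀ i j, i ≠ j → ∃ g, ∀ l, g ∉ A l ↔ l = i ∨ l = j)
    (hpar : ∀ g, Even (Set.ncard {i | g ∉ A i}))
    (hU : ∀ i, U i ≤ commutator G) (hab : ∀ i, ∀ a ∈ A i, ∀ b ∈ A i, ⁅a, b⁆ ∈ U i)
    (hmeet : ∀ i j, i ≠ j → U i ⊔ U j ≠ commutator G)
    (hcard : ∀ i, (U i).relIndex (commutator G) = 8) (i : I) :
    (∀ t ∈ commutator G, (∀ g, ⁅t, g⁆ ∈ U i) ∧ t * t ∈ U i) ∧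
      ∀ s ∈ commutator G, (∀ j, j ≠ i → s ∉ U i ⊔ U j) → ∀ t ∈ commutator G,
        ((t ∈ U i → ∑ j ∈ Finset.univ.erase i, sgn (U i ⊔ U j) t = 4) ∧
        (s⁻¹ * t ∈ U i → ∑ j ∈ Finset.univ.erase i, sgn (U i ⊔ U j) t = -4) ∧
        (t ∉ U i → s⁻¹ * t ∉ U i → ∑ j ∈ Finset.univ.erase i, sgn (U i ⊔ U j) t = 0)) := by
  classical
  set C := commutator G with hC
  set V : I → Subgroup G := fun j => U i ⊔ U j with hV
  have hVn : ∀ j, (V j).Normal := fun j => by
    rw [hV]
    infer_instance
  have hVC : ∀ j, V j ≤ C := fun j => sup_le (hU i) (hU j)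
  have hp : ∀ j, j ≠ i → (V j).relIndex C = 2 ∧
      ∀ g h : G, ⁅g, h⁆ ∈ V j ↔ ((g ∉ A i ∧ h ∉ A j) ↔ (g ∉ A j ∧ h ∉ A i)) :=
    fun j hj => pair_meet hI hidx hsurj hU hab hmeet hj.symm
  -- the product of elements of `C`
  have hmul : ∀ j, j ≠ i → ∀ s ∈ C, ∀ t ∈ C, s * t ∈ V j ↔ (s ∈ V j ↔ t ∈ V j) := by
    intro j hj s hs t ht
    have h1 : ((V j).subgroupOf C).index = 2 := (hp j hj).1
    have h2 := Subgroup.mul_mem_iff_of_index_two h1 (a := (⟨s, hs⟩ : C)) (b := (⟨t, ht⟩ : C))
    simp only [Subgroup.mem_subgroupOf] at h2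
    exact h2
  -- the count is even
  have hev : ∀ t ∈ C, ∑ j ∈ Finset.univ.erase i, (if t ∈ V j then (0 : ZMod 2) else 1) = 0 := by
    intro t ht
    rw [hC, commutator_eq_closure] at ht
    refine Subgroup.closure_induction (p := fun t _ =>
      ∑ j ∈ Finset.univ.erase i, (if t ∈ V j then (0 : ZMod 2) else 1) = 0) ?_ ?_ ?_ ?_ ht
    · rintro _ ⟨g, h, rfl⟩
      have h1 : ∀ j ∈ Finset.univ.erase i, (if ⁅g, h⁆ ∈ V j then (0 : ZMod 2) else 1) =
          (if g ∈ A i then 0 else 1) * (if h ∈ A j then 0 else 1) +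
            (if g ∈ A j then 0 else 1) * (if h ∈ A i then 0 else 1) := by
        intro j hj
        rw [Finset.mem_erase] at hj
        have h2 := (hp j hj.1).2 g h
        by_cases a1 : g ∈ A i <;> by_cases a2 : h ∈ A i <;> by_cases a3 : g ∈ A j <;>
          by_cases a4 : h ∈ A j <;> simp only [a1, a2, a3, a4, not_true_eq_false,
            not_false_eq_true, and_self, and_true, and_false, iff_self, iff_true, iff_false,
            true_iff, false_iff] at h2 <;> (simp [h2, a1, a2, a3, a4]; try decide)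
      rw [Finset.sum_congr rfl h1, Finset.sum_add_distrib, ← Finset.mul_sum, ← Finset.sum_mul]
      have h3 := even_sum_indicator hpar g
      have h4 := even_sum_indicator hpar h
      rw [← Finset.sum_erase_add _ _ (Finset.mem_univ i)] at h3 h4
      generalize (∑ j ∈ Finset.univ.erase i, if g ∈ A j then (0 : ZMod 2) else 1) = x at *
      generalize (∑ j ∈ Finset.univ.erase i, if h ∈ A j then (0 : ZMod 2) else 1) = y at *
      generalize (if g ∈ A i then (0 : ZMod 2) else 1) = z at *
      generalize (if h ∈ A i then (0 : ZMod 2) else 1) = w at *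
      clear h1
      revert x y z w
      decide
    · simp [one_mem]
    · intro a b ha hb h1 h2
      have ha' : a ∈ C := by rw [hC, commutator_eq_closure]; exact ha
      have hb' : b ∈ C := by rw [hC, commutator_eq_closure]; exact hb
      have h3 : ∀ j ∈ Finset.univ.erase i, (if a * b ∈ V j then (0 : ZMod 2) else 1) =
          (if a ∈ V j then 0 else 1) + (if b ∈ V j then 0 else 1) := by
        intro j hj
        rw [Finset.mem_erase] at hj
        have h4 := hmul j hj.1 a ha' b hb'
        by_cases a1 : a ∈ V j <;> by_cases a2 : b ∈ V j <;> simp [h4, a1, a2] <;> decide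
      rw [Finset.sum_congr rfl h3, Finset.sum_add_distrib, h1, h2, add_zero]
    · intro a ha h1
      simpa only [inv_mem_iff] using h1
  -- elements with given signs
  have hex : ∀ a b, a ≠ i → b ≠ i → a ≠ b → ∃ t ∈ C, ∀ j, j ≠ i → (t ∉ V j ↔ j = a ∨ j = b) := by
    intro a b ha hb hab'
    obtain ⟨g, hg⟩ := hsurj i a ha.symm
    obtain ⟨h, hh⟩ := hsurj a b hab'
    refine ⟨⁅g, h⁆, Subgroup.commutator_mem_commutator (Subgroup.mem_top _) (Subgroup.mem_top _),
      fun j hj => ?_⟩
    rw [(hp j hj).2 g h]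
    have h1 : g ∉ A i := (hg i).2 (Or.inl rfl)
    have h2 : ¬ h ∉ A i := fun h3 => by
      rcases (hh i).1 h3 with h4 | h4
      · exact ha h4.symm
      · exact hb h4.symm
    have h3 := hh j
    tauto
  -- the kernel
  have hker : ∀ t ∈ C, (∀ j, j ≠ i → t ∈ V j) → t ∈ U i := by
    set K : Subgroup G := C ⊓ ⨅ j ∈ Finset.univ.erase i, V j with hK
    have hmemK : ∀ t, t ∈ K ↔ t ∈ C ∧ ∀ j, j ≠ i → t ∈ V j := by
      intro t
      rw [hK, Subgroup.mem_inf]
      simp [Subgroup.mem_iInf]
    have hUK : U i ≤ K := fun t ht => (hmemK t).2 ⟨hU i ht, fun j _ => Subgroup.mem_sup_left ht⟩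
    have hKC : K ≤ C := inf_le_left
    have h1 : (U i).relIndex K * K.relIndex C = 8 := by
      rw [Subgroup.relIndex_mul_relIndex _ _ _ hUK hKC]
      exact hcard i
    have h2 : 6 ≤ K.relIndex C := by
      have hpos : K.relIndex C ≠ 0 := by
        intro h0
        rw [h0, mul_zero] at h1
        omega
      have hfin : Finite (C ⧸ K.subgroupOf C) :=
        Nat.finite_of_card_ne_zero hpos
      have hsel : ∀ P : ((Finset.univ.erase i).powersetCard 2 : Finset (Finset I)),
          ∃ t : C, ∀ j, j ≠ i → ((t : G) ∉ V j ↔ j ∈ P.1) := by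
        rintro ⟨P, hP⟩
        rw [Finset.mem_powersetCard, Finset.card_eq_two] at hP
        obtain ⟨hP1, a, b, hab', rfl⟩ := hP
        obtain ⟨t, ht, ht'⟩ := hex a b (Finset.ne_of_mem_erase (hP1 (by simp)))
          (Finset.ne_of_mem_erase (hP1 (by simp))) hab'
        exact ⟨⟨t, ht⟩, fun j hj => by rw [ht' j hj]; simp⟩
      choose f hf using hsel
      have hinj : Function.Injective fun P => (QuotientGroup.mk (f P) : C ⧸ K.subgroupOf C) := by
        intro P Q hPQ
        rw [QuotientGroup.eq, Subgroup.mem_subgroupOf] at hPQ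
        have h3 := ((hmemK _).1 hPQ).2
        apply Subtype.ext
        ext j
        by_cases hj : j = i
        · have h4 := P.2
          have h5 := Q.2
          rw [Finset.mem_powersetCard] at h4 h5
          rw [hj]
          constructor
          · intro h6
            exact absurd rfl (Finset.ne_of_mem_erase (h4.1 h6))
          · intro h6
            exact absurd rfl (Finset.ne_of_mem_erase (h5.1 h6))
        · rw [← hf P j hj, ← hf Q j hj]
          have h4 := h3 j hj
          have h5 := hmul j hj (f P : G)⁻¹ (inv_mem (f P).2) (f Q : G) (f Q).2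
          have h6 : (f P : G)⁻¹ * (f Q : G) ∈ V j := h4
          rw [h5, inv_mem_iff] at h6
          rw [h6]
      have h4 := Nat.card_le_card_of_injective _ hinj
      rw [Nat.card_eq_fintype_card, Fintype.card_coe, Finset.card_powersetCard,
        Finset.card_erase_of_mem (Finset.mem_univ i), Finset.card_univ, hI] at h4
      exact h4
    have h3 : (U i).relIndex K = 1 := by
      have h5 : (U i).relIndex K ≠ 0 := by
        intro h0
        rw [h0, zero_mul] at h1
        omega
      by_contra h6
      have h7 : 2 ≤ (U i).relIndex K := by omega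
      have := Nat.mul_le_mul h7 h2
      omega
    intro t ht h4
    exact (Subgroup.relIndex_eq_one.1 h3) ((hmemK t).2 ⟨ht, h4⟩)
  have hconj : ∀ j, ∀ g t : G, g * t * g⁻¹ ∈ V j ↔ t ∈ V j := fun j g t =>
    ((hVn j).mem_comm_iff).trans (by rw [inv_mul_cancel_left])
  refine ⟨fun t ht => ⟨fun g => ?_, ?_⟩, ?_⟩
  · have hgt : g * t⁻¹ * g⁻¹ ∈ C := by
      have : C.Normal := by rw [hC]; infer_instance
      exact this.conj_mem _ (inv_mem ht) g
    refine hker _ (Subgroup.commutator_mem_commutator (Subgroup.mem_top _) (Subgroup.mem_top _))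
      fun j hj => ?_
    have h1 : ⁅t, g⁆ = t * (g * t⁻¹ * g⁻¹) := by
      rw [commutatorElement_def]; group
    rw [h1, hmul j hj t ht _ hgt, hconj, inv_mem_iff]
  · exact hker _ (mul_mem ht ht) fun j hj => by rw [hmul j hj t ht t ht]
  · intro s hs hsV t ht
    set n := ((Finset.univ.erase i).filter fun j => t ∉ V j).card with hn
    have hcardJ : (Finset.univ.erase i).card = 4 := by
      rw [Finset.card_erase_of_mem (Finset.mem_univ i), Finset.card_univ, hI]
    have hn4 : n ≤ 4 := by
      rw [← hcardJ]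
      exact Finset.card_filter_le _ _
    have hne : Even n := by
      have h1 := hev t ht
      have h2 : ∑ j ∈ Finset.univ.erase i, (if t ∈ V j then (0 : ZMod 2) else 1) =
          (n : ZMod 2) := by
        rw [hn, Finset.card_filter]
        push_cast
        refine Finset.sum_congr rfl fun j _ => ?_
        by_cases h : t ∈ V j <;> simp [h]
      rw [h2] at h1
      exact (ZMod.natCast_eq_zero_iff_even).1 h1
    have hsum : ∑ j ∈ Finset.univ.erase i, sgn (V j) t = 4 - 2 * (n : ℤ) := by
      have h1 : ∀ j ∈ Finset.univ.erase i, sgn (V j) t = 1 - 2 * (if t ∉ V j then 1 else 0) := by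
        intro j _
        unfold sgn
        by_cases h : t ∈ V j <;> simp [h]
      rw [Finset.sum_congr rfl h1, Finset.sum_sub_distrib, ← Finset.mul_sum, hn,
        Finset.card_filter, Finset.sum_const, hcardJ]
      push_cast
      ring
    have hn0 : n = 0 ↔ t ∈ U i := by
      rw [hn, Finset.card_eq_zero, Finset.filter_eq_empty_iff]
      constructor
      · intro h1
        refine hker t ht fun j hj => ?_
        have := h1 (Finset.mem_erase.2 ⟨hj, Finset.mem_univ j⟩)
        rwa [not_not] at this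
      · intro h1 j _
        rw [not_not]
        exact Subgroup.mem_sup_left h1
    have hn4' : n = 4 ↔ s⁻¹ * t ∈ U i := by
      have h0 : n = 4 ↔ ∀ j, j ≠ i → t ∉ V j := by
        rw [← hcardJ, hn, Finset.card_filter_eq_iff]
        simp [Finset.mem_erase]
      rw [h0]
      constructor
      · intro h1
        refine hker _ (mul_mem (inv_mem hs) ht) fun j hj => ?_
        rw [hmul j hj _ (inv_mem hs) t ht, inv_mem_iff]
        have h2 := h1 j hj
        have h3 := hsV j hj
        tauto
      · intro h1 j hj h2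
        have h3 : s⁻¹ * t ∈ V j := Subgroup.mem_sup_left h1
        rw [hmul j hj _ (inv_mem hs) t ht, inv_mem_iff] at h3
        exact hsV j hj (h3.2 h2)
    rw [hsum]
    refine ⟨fun h => ?_, fun h => ?_, fun h1 h2 => ?_⟩
    · rw [hn0.2 h]; norm_num
    · rw [hn4'.2 h]; norm_num
    · have a1 : n ≠ 0 := fun h => h1 (hn0.1 h)
      have a2 : n ≠ 4 := fun h => h2 (hn4'.1 h)
      obtain ⟨m, hm⟩ := hne
      have a3 : n = 2 := by omega
      rw [a3]; norm_num

end Pool.Agent.StarkRQ.Rank3
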