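import Pool.Agent.StarkRQ.Branch2
import Pool.Agent.StarkRQ.ContLin

/-!
# Stark units, commutator subgroup of order eight: definitions

`G = Gal(M/ℚ)`, `C` its commutator subgroup (`= {g | g ζ = ζ}`). For a subgroup `V` of index `2` in
`C`, `sgn V` is the character of `C` with kernel `V`.
-/

open NumberField Module

namespace Pool.Agent.StarkRQ.Rank3

/-- the sign which is `1` on `V` and `-1` off `V` -/
noncomputable def sgn {G : Type*} [Group G] (V : Subgroup G) (t : G) : ℤ :=
  open Classical in if t ∈ V then 1 else -1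

/-- the commutator subgroup, as a finite set -/
noncomputable def comF (G : Type*) [Group G] [Fintype G] : Finset G :=
  open Classical in Finset.univ.filter fun t => t ∈ commutator G

@[simp] lemma mem_comF {G : Type*} [Group G] [Fintype G] {t : G} :
    t ∈ comF G ↔ t ∈ commutator G := by
  simp [comF]

/-- the kernel of the restriction `Gal(M/ℚ) → Gal(E/ℚ)` -/
noncomputable abbrev kerR (E M : Type*) [Field E] [NumberField E] [Field M] [NumberField M]
    [Algebra E M] [IsGalois ℚ E] : Subgroup Gal(M/ℚ) := (res E M).ker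

/-- the sum over `C` of `sgn V t` times the number of ideals of `k` of norm `n` with Artin symbol
the restriction of `t g` -/
noncomputable def ccnt (k E M : Type*) [Field k] [NumberField k] [Field E] [NumberField E]
    [Field M] [NumberField M] [IsGalois ℚ E] [Algebra k E] [Algebra E M]
    (V : Subgroup Gal(M/ℚ)) (n : ℕ) (g : Gal(M/ℚ)) : ℤ :=
  ∑ t ∈ comF Gal(M/ℚ), sgn V t * (cnt k E n (res E M (t * g)) : ℤ)

/-- the logarithmic sum `∑ sgn V t * log |ι (t g u)|` over `C` -/
noncomputable def lam {M : Type*} [Field M] [NumberField M] (ι : M →+* ℂ)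
    (V : Subgroup Gal(M/ℚ)) (u : M) (g : Gal(M/ℚ)) : ℝ :=
  ∑ t ∈ comF Gal(M/ℚ), (sgn V t : ℝ) * Real.log ‖ι ((t * g) u)‖

/-- `v` is the derivative at `0` of the continuation to `ℂ ∖ {1}` of the Dirichlet series with
coefficients `a` -/
def HasD (a : ℕ → ℂ) (v : ℂ) : Prop :=
  ∃ Z : ℂ → ℂ, IsCont a Z ∧ deriv Z 0 = v

end Pool.Agent.StarkRQ.Rank3
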