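import Pool.Agent.StarkRQ.Rank3.Defs

/-!
# From `h ∈ N` to the units of `H`

The model is the second half of the proof of `klein` in StarkRQ/Klein.lean (do not import that file;
copy the lemmas `res_surjective`, `restrict_apply` etc. if you need them). `Gal(N/K)` is abelian. For
`σ ∈ Gal(H/K)` let `T σ` be the set of the `a ∈ Gal(N/K)` with restriction `σ` to `H`, and `T' σ` the
set of the `a ∈ T σ` with `toG K N a ∈ P`. With `c = toG K N cK`, `τ = toG K N τK`: `T σ` is stable under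
`a ↦ cK a` and under `a ↦ τK a` (`cK` and `τK` restrict to `1` on `H`), exactly one of `a`, `cK a` is in
`P`, `τK` preserves `T' σ` and has no fixed points. Put
`Y σ = ∏ a ∈ T' σ, toG K N a h`. As in `klein`, `ρ (Y σ) = Y (ρ|H * σ)` for `ρ ∈ Gal(N/K)` (first for
`ρ ∈ P`, otherwise use `c (a h) = a (c h) = a h`). If `τ h = h` then
`Y σ = (∏ over T' σ modulo τK of a h) ^ 2`; if `τ h = -h` then `Y σ = (-1) ^ (#(T' σ) / 2)` times such a
square. `#(T' σ)` does not depend on `σ`. So with `q = 1` or `q = (-1) ^ (#(T' 1) / 2)`,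
`q * Y σ = y ^ 2`, `y ∈ N` a product of elements `a h`, `ι (a h)` real (`c (a h) = a h`). So
`ι (q * Y σ) > 0`. `q * Y σ` is fixed by `Gal(N/H)`, it is the image of a unit `ε σ` of `H`. Moreover
`log (ι (ε σ)) = ∑_{a ∈ T' σ} log ‖ι (a h)‖ = 1/2 ∑_{a ∈ T σ} log ‖ι (a h)‖` (`sum_filter_half` in
StarkRQ/Branch2.lean is useful) `= -(G σ)' (0) + (G (R σ))' (0)`, `R = zK|H`. The statement about the
other embeddings `g` of `H`: as in `klein` (`exists_comp`, `γ ∉ fixG K N`, `γ c γ⁻¹ = z c`); here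
`‖ι (γ (a h))‖ = 1` is `hone`, as `γ * toG K N a ∉ fixG K N`.
-/

open NumberField Module
open scoped commutatorElement

namespace Pool.Agent.StarkRQ.Rank3

/-- the product over a set with an involution without fixed points -/
private theorem dsc_pair {I M : Type*} [DecidableEq I] [CommRing M] (φ : I → I)
    (hφ : ∀ a, φ (φ a) = a) (hne : ∀ a, φ a ≠ a) (F : I → M) (e : M)
    (hF : ∀ a, F (φ a) = e * F a) (S : Finset I) (hS : ∀ a ∈ S, φ a ∈ S) :
    ∃ S₀ ⊆ S, S.card = 2 * S₀.card ∧ ∏ a ∈ S, F a = e ^ S₀.card * (∏ a ∈ S₀, F a) ^ 2 := by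
  induction S using Finset.strongInduction with
  | H S ih =>
    rcases S.eq_empty_or_nonempty with rfl | ⟨a, ha⟩
    · exact ⟨∅, Finset.Subset.refl _, by simp, by simp⟩
    · have ha' : φ a ∈ S.erase a := Finset.mem_erase.2 ⟨hne a, hS a ha⟩
      have hsub : (S.erase a).erase (φ a) ⊂ S :=
        (Finset.erase_subset _ _).trans_ssubset (Finset.erase_ssubset ha)
      obtain ⟨S₀, h1, h2, h3⟩ := ih _ hsub (by
        intro b hb
        rw [Finset.mem_erase, Finset.mem_erase] at hb ⊢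
        refine ⟨fun h => hb.2.1 ?_, fun h => hb.1 ?_, hS b hb.2.2⟩
        · rw [← hφ b, ← hφ a, h]
        · rw [← hφ b, h])
      have haS : a ∉ S₀ := by
        intro h
        have h4 := h1 h
        rw [Finset.mem_erase, Finset.mem_erase] at h4
        exact h4.2.1 rfl
      refine ⟨insert a S₀, ?_, ?_, ?_⟩
      · intro b hb
        rcases Finset.mem_insert.1 hb with rfl | hb
        · exact ha
        · exact hsub.1 (h1 hb)
      · rw [Finset.card_insert_of_notMem haS]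
        have h4 := Finset.card_erase_add_one ha'
        have h5 := Finset.card_erase_add_one ha
        omega
      · rw [Finset.card_insert_of_notMem haS, Finset.prod_insert haS,
          ← Finset.mul_prod_erase S F ha, ← Finset.mul_prod_erase (S.erase a) F ha', h3, hF a]
        ring

theorem descent {K H N : Type} [Field K] [NumberField K] [Field H] [NumberField H] [Field N]
    [NumberField N] [Algebra K H] [Algebra H N] [Algebra K N] [IsScalarTower K H N]
    [IsGalois ℚ N] [IsAbelianGalois K N] {ι : N →+* ℂ} {c : Gal(N/ℚ)}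
    (hc : ∀ x, ι (c x) = starRingEnd ℂ (ι x)) (hcK : c ∈ fixG K N)
    (hH : ∀ y : H, (ι (algebraMap H N y)).im = 0)
    {z : Gal(N/ℚ)} {zK : Gal(N/K)} (hzK : toG K N zK = z) (hzz : z * z = 1)
    (hzc : ∀ g, z * g = g * z) (hconj : ∀ γ, γ ∉ fixG K N → γ * c * γ⁻¹ = z * c)
    {P : Subgroup Gal(N/ℚ)} (hP : P.index = 2) (hcP : c ∉ P) {τ : Gal(N/ℚ)}
    (hττ : τ * τ = 1) (hτ1 : τ ≠ 1) (hτP : τ ∈ P) (hτK : τ ∈ fixG K N)
    (hτH : ∀ y : H, τ (algebraMap H N y) = algebraMap H N y)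
    {h : N} (h0 : h ≠ 0) (hi : IsIntegral ℤ h) (hi' : IsIntegral ℤ h⁻¹) (hch : c h = h)
    (hτh : τ h = h ∨ τ h = -h) (hone : ∀ γ, γ ∉ fixG K N → ‖ι (γ h)‖ = 1)
    (G : Gal(H/K) → ℂ → ℂ) [Normal K H]
    (hG : ∀ σ : Gal(H/K), deriv (G σ) 0 - deriv (G (AlgEquiv.restrictNormalHom H zK * σ)) 0 =
      ((-(1 / 2) * ∑ᶠ a : {a : Gal(N/K) // AlgEquiv.restrictNormalHom H a = σ},
        Real.log ‖ι (toG K N a h)‖ : ℝ) : ℂ)) :
    ∃ R : Gal(H/K), ∃ ε : Gal(H/K) → (𝓞 H)ˣ,
      (∀ σ, ι (algebraMap H N (ε σ : 𝓞 H)) =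
          Complex.exp (-(deriv (G σ) 0 - deriv (G (R * σ)) 0))) ∧
      (∀ ρ σ, ρ ((ε σ : 𝓞 H) : H) = ((ε (ρ * σ) : 𝓞 H) : H)) ∧
      (∀ g : H →+* ℂ, (∃ x : K, g (algebraMap K H x) ≠ ι (algebraMap K N x)) →
        (∀ y, g (R y) = starRingEnd ℂ (g y)) ∧ ∀ σ, ‖g ((ε σ : 𝓞 H) : H)‖ = 1) ∧
      ∀ σ, ∃ y : N, y ^ 2 = algebraMap H N ((ε σ : 𝓞 H) : H) := by
  classical
  have : IsAbelianGalois K H := IsAbelianGalois.tower_bot K H N
  have hA : ∀ σ τ : Gal(N/K), σ * τ = τ * σ := fun σ τ => mul_comm' σ τ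
  have hres : ∀ (s : Gal(N/K)) (y : H),
      algebraMap H N (AlgEquiv.restrictNormalHom H s y) = s (algebraMap H N y) :=
    fun s y => AlgEquiv.restrictNormal_commutes s H y
  have hcc : c * c = 1 := by
    ext x
    apply ι.injective
    change ι (c (c x)) = ι x
    rw [hc, hc, Complex.conj_conj]
  -- the sign
  obtain ⟨e, he, hτe⟩ : ∃ e : N, (e = 1 ∨ e = -1) ∧ τ h = e * h := by
    rcases hτh with h1 | h1
    · exact ⟨1, Or.inl rfl, by rw [one_mul]; exact h1⟩
    · exact ⟨-1, Or.inr rfl, by rw [neg_one_mul]; exact h1⟩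
  have hee : ∀ n : ℕ, e ^ n * e ^ n = 1 := by
    intro n
    rw [← mul_pow]
    rcases he with h1 | h1 <;> rw [h1] <;> simp
  have hge : ∀ (g : Gal(N/ℚ)) (n : ℕ), g (e ^ n) = e ^ n := by
    intro g n
    rw [map_pow]
    congr 1
    rcases he with h1 | h1
    · rw [h1, map_one]
    · rw [h1, map_neg, map_one]
  have hmapint : ∀ (g : Gal(N/ℚ)) {u : N}, IsIntegral ℤ u → IsIntegral ℤ (g u) := by
    intro g u hu
    exact hu.map (g : N →ₐ[ℚ] N).toRingHom.toIntAlgHom
  have hne0 : ∀ (g : Gal(N/ℚ)) {u : N}, u ≠ 0 → g u ≠ 0 := fun g u hu h =>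
    hu (g.injective (by rw [h, map_zero]))
  -- lifts
  have hsurj := AlgEquiv.restrictNormalHom_surjective (F := K) (K₁ := H) N
  obtain ⟨cK, hcK'⟩ := id hcK
  obtain ⟨τK, hτK'⟩ := id hτK
  have hcy : ∀ y : H, c (algebraMap H N y) = algebraMap H N y := by
    intro y
    apply ι.injective
    rw [hc]
    exact Complex.conj_eq_iff_im.2 (hH y)
  have hcKH : AlgEquiv.restrictNormalHom H cK = 1 := by
    ext y
    apply (algebraMap H N).injective
    rw [hres]
    have := hcy y
    rw [← hcK'] at this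
    exact this
  have hτKH : AlgEquiv.restrictNormalHom H τK = 1 := by
    ext y
    apply (algebraMap H N).injective
    rw [hres]
    have := hτH y
    rw [← hτK'] at this
    exact this
  have hcom : ∀ (s t : Gal(N/K)) (u : N), toG K N t (toG K N s u) = toG K N s (toG K N t u) := by
    intro s t u
    change (toG K N t * toG K N s) u = (toG K N s * toG K N t) u
    rw [← map_mul, ← map_mul, hA]
  have hcch : ∀ s : Gal(N/K), c (toG K N s h) = toG K N s h := by
    intro s
    have h1 := hcom s cK h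
    rw [hcK', hch] at h1
    exact h1
  set p : Gal(N/K) → Prop := fun a => toG K N a ∈ P with hp
  have hpc : ∀ a, p (cK * a) ↔ ¬ p a := by
    intro a
    simp only [hp]
    rw [map_mul, hcK', Subgroup.mul_mem_iff_of_index_two hP]
    exact ⟨fun h h' => hcP (h.2 h'), fun h => ⟨fun h' => absurd h' hcP, fun h' => absurd h' h⟩⟩
  have hpτ : ∀ a, p (τK * a) ↔ p a := by
    intro a
    simp only [hp]
    rw [map_mul, hτK', Subgroup.mul_mem_iff_of_index_two hP]
    exact ⟨fun h => h.1 hτP, fun h => ⟨fun _ => h, fun _ => hτP⟩⟩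
  have hcKcK : ∀ a : Gal(N/K), cK * (cK * a) = a := by
    intro a
    have : cK * cK = 1 := toG_injective (by rw [map_mul, hcK', hcc, map_one])
    rw [← mul_assoc, this, one_mul]
  have hτKτK : ∀ a : Gal(N/K), τK * (τK * a) = a := by
    intro a
    have : τK * τK = 1 := toG_injective (by rw [map_mul, hτK', hττ, map_one])
    rw [← mul_assoc, this, one_mul]
  have hτne : ∀ a : Gal(N/K), τK * a ≠ a := by
    intro a ha
    have h1 : τK = 1 := by simpa using ha
    apply hτ1
    rw [← hτK', h1, map_one]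
  set T : Gal(H/K) → Finset Gal(N/K) := fun σ =>
    Finset.univ.filter fun a => AlgEquiv.restrictNormalHom H a = σ with hT
  have hTmem : ∀ σ a, a ∈ T σ ↔ AlgEquiv.restrictNormalHom H a = σ := by
    intro σ a
    simp [hT]
  set Y : Gal(H/K) → N := fun σ => ∏ a ∈ (T σ).filter p, toG K N a h with hY
  have hYdef : ∀ σ, Y σ = ∏ a ∈ (T σ).filter p, toG K N a h := fun σ => rfl
  have hYc : ∀ σ, c (Y σ) = Y σ := by
    intro σ
    rw [hYdef, map_prod]
    exact Finset.prod_congr rfl fun a _ => hcch a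
  -- translations
  have hmaps : ∀ (ρ : Gal(N/K)) (σ : Gal(H/K)), p ρ → ∀ a ∈ (T σ).filter p,
      ρ * a ∈ (T (AlgEquiv.restrictNormalHom H ρ * σ)).filter p := by
    intro ρ σ hρ a ha
    rw [Finset.mem_filter, hTmem] at ha ⊢
    refine ⟨by rw [map_mul, ha.1], ?_⟩
    change toG K N (ρ * a) ∈ P
    rw [map_mul]
    exact Subgroup.mul_mem _ hρ ha.2
  have hmaps' : ∀ (ρ : Gal(N/K)) (σ : Gal(H/K)), p ρ →
      ∀ a ∈ (T (AlgEquiv.restrictNormalHom H ρ * σ)).filter p, ρ⁻¹ * a ∈ (T σ).filter p := by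
    intro ρ σ hρ a ha
    rw [Finset.mem_filter, hTmem] at ha ⊢
    refine ⟨by rw [map_mul, map_inv, ha.1, inv_mul_cancel_left], ?_⟩
    change toG K N (ρ⁻¹ * a) ∈ P
    rw [map_mul, map_inv]
    exact Subgroup.mul_mem _ (Subgroup.inv_mem _ hρ) ha.2
  have hequiB : ∀ (ρ : Gal(N/K)) (σ : Gal(H/K)), p ρ →
      toG K N ρ (Y σ) = Y (AlgEquiv.restrictNormalHom H ρ * σ) := by
    intro ρ σ hρ
    rw [hYdef, hYdef, map_prod]
    refine Finset.prod_bij (fun a _ => ρ * a) (hmaps ρ σ hρ) ?_ ?_ ?_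
    · intro a _ a' _ h
      exact mul_left_cancel h
    · intro a ha
      exact ⟨ρ⁻¹ * a, hmaps' ρ σ hρ a ha, mul_inv_cancel_left _ _⟩
    · intro a _
      rw [map_mul (toG K N)]
      rfl
  have hequi : ∀ (ρ : Gal(N/K)) (σ : Gal(H/K)),
      ρ (Y σ) = Y (AlgEquiv.restrictNormalHom H ρ * σ) := by
    intro ρ σ
    by_cases h : p ρ
    · exact hequiB ρ σ h
    · have h1 := hequiB (cK * ρ) σ ((hpc ρ).2 h)
      rw [map_mul (toG K N), map_mul (AlgEquiv.restrictNormalHom H), hcKH, one_mul, hcK'] at h1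
      have h2 : c (ρ (Y σ)) = Y (AlgEquiv.restrictNormalHom H ρ * σ) := h1
      have h3 := congrArg c h2
      rw [hYc] at h3
      rw [← h3]
      change _ = (c * c) _
      rw [hcc]
      rfl
  have hcard : ∀ σ, ((T σ).filter p).card = ((T 1).filter p).card := by
    intro σ
    obtain ⟨ρ, hρ⟩ := hsurj σ
    obtain ⟨ρ', hρ', hρp⟩ : ∃ ρ' : Gal(N/K), AlgEquiv.restrictNormalHom H ρ' = σ ∧ p ρ' := by
      by_cases h : p ρ
      · exact ⟨ρ, hρ, h⟩
      · exact ⟨cK * ρ, by rw [map_mul, hcKH, one_mul, hρ], (hpc ρ).2 h⟩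
    symm
    have h1 : σ = AlgEquiv.restrictNormalHom H ρ' * 1 := by rw [hρ', mul_one]
    rw [h1]
    exact Finset.card_bij (fun a _ => ρ' * a) (hmaps ρ' 1 hρp)
      (fun a _ a' _ h => mul_left_cancel h)
      (fun a ha => ⟨ρ'⁻¹ * a, hmaps' ρ' 1 hρp a ha, mul_inv_cancel_left _ _⟩)
  have hY0 : ∀ σ, Y σ ≠ 0 := fun σ => Finset.prod_ne_zero_iff.2 fun a _ => hne0 _ h0
  have hYint : ∀ σ, IsIntegral ℤ (Y σ) := fun σ => IsIntegral.prod _ fun a _ => hmapint _ hi
  have hYint' : ∀ σ, IsIntegral ℤ (Y σ)⁻¹ := by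
    intro σ
    rw [hYdef, ← Finset.prod_inv_distrib]
    refine IsIntegral.prod _ fun a _ => ?_
    rw [← map_inv₀]
    exact hmapint _ hi'
  -- the square root
  obtain ⟨m, hm⟩ : ∃ m : ℕ, m = ((T 1).filter p).card / 2 := ⟨_, rfl⟩
  have hsq : ∀ σ, ∃ y : N, y ^ 2 = e ^ m * Y σ ∧ c y = y := by
    intro σ
    obtain ⟨S₀, -, h2, h3⟩ := dsc_pair (fun a => τK * a) hτKτK hτne
      (fun a => toG K N a h) e (fun a => by
        have h4 : toG K N (τK * a) h = toG K N a (τ h) := by
          rw [map_mul, ← hτK']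
          exact hcom a τK h
        rw [h4, hτe, map_mul]
        congr 1
        have := hge (toG K N a) 1
        rwa [pow_one] at this) ((T σ).filter p) (by
        intro a ha
        rw [Finset.mem_filter, hTmem] at ha ⊢
        exact ⟨by rw [map_mul, hτKH, one_mul, ha.1], (hpτ a).2 ha.2⟩)
    have h4 : S₀.card = m := by
      rw [hcard σ] at h2
      omega
    refine ⟨∏ a ∈ S₀, toG K N a h, ?_, ?_⟩
    · rw [hYdef, h3, h4, ← mul_assoc, hee, one_mul]
    · rw [map_prod]
      exact Finset.prod_congr rfl fun a _ => hcch a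
  have hq0 : e ^ m ≠ 0 := by
    intro h1
    have h2 := hee m
    rw [h1, mul_zero] at h2
    exact zero_ne_one h2
  have hqint : IsIntegral ℤ (e ^ m) := by
    refine IsIntegral.pow ?_ m
    rcases he with h1 | h1
    · rw [h1]; exact isIntegral_one
    · rw [h1]; exact isIntegral_one.neg
  have hqinv : (e ^ m)⁻¹ = e ^ m := (eq_inv_of_mul_eq_one_left (hee m)).symm
  have hιq : ‖ι (e ^ m)‖ = 1 := by
    rw [map_pow, norm_pow]
    rcases he with h1 | h1
    · rw [h1, map_one, norm_one, one_pow]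
    · rw [h1, map_neg, map_one, norm_neg, norm_one, one_pow]
  have hqY : ∀ (ρ : Gal(N/K)) (σ : Gal(H/K)),
      ρ (e ^ m * Y σ) = e ^ m * Y (AlgEquiv.restrictNormalHom H ρ * σ) := by
    intro ρ σ
    rw [map_mul, hequi]
    congr 1
    exact hge (toG K N ρ) m
  -- descent to `H`
  have hdesc : ∀ σ, ∃ u : (𝓞 H)ˣ, algebraMap H N (u : 𝓞 H) = e ^ m * Y σ := by
    intro σ
    have : IsGalois H N := IsGalois.tower_top_of_isGalois K H N
    have h1 : ∀ ρ : Gal(N/H), ρ (e ^ m * Y σ) = e ^ m * Y σ := by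
      intro ρ
      have h2 := hqY (ρ.restrictScalars K) σ
      have h3 : AlgEquiv.restrictNormalHom H (ρ.restrictScalars K) = 1 := by
        ext y
        apply (algebraMap H N).injective
        rw [hres]
        exact ρ.commutes y
      rw [h3, one_mul] at h2
      exact h2
    obtain ⟨v, hv'⟩ := (InfiniteGalois.mem_range_algebraMap_iff_fixed (e ^ m * Y σ)).mpr h1
    have hinj : Function.Injective (algebraMap H N) := (algebraMap H N).injective
    have hvint : IsIntegral ℤ v := by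
      have := hqint.mul (hYint σ)
      rw [← hv'] at this
      exact (isIntegral_algebraMap_iff (A := H) (B := N) hinj).1 this
    have hvint' : IsIntegral ℤ v⁻¹ := by
      have h2 : IsIntegral ℤ (e ^ m * Y σ)⁻¹ := by
        rw [mul_inv, hqinv]
        exact hqint.mul (hYint' σ)
      rw [← hv', ← map_inv₀] at h2
      exact (isIntegral_algebraMap_iff (A := H) (B := N) hinj).1 h2
    have hv0 : v ≠ 0 := by
      rintro rfl
      rw [map_zero] at hv'
      exact mul_ne_zero hq0 (hY0 σ) hv'.symm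
    refine ⟨⟨⟨v, hvint⟩, ⟨v⁻¹, hvint'⟩, ?_, ?_⟩, hv'⟩
    · apply RingOfIntegers.ext
      change v * v⁻¹ = 1
      exact mul_inv_cancel₀ hv0
    · apply RingOfIntegers.ext
      change v⁻¹ * v = 1
      exact inv_mul_cancel₀ hv0
  choose u hu using hdesc
  refine ⟨AlgEquiv.restrictNormalHom H zK, u, ?_, ?_, ?_, ?_⟩
  · -- the derivative formula
    intro σ
    rw [hu, hG σ]
    have hfs : ∑ᶠ a : {a : Gal(N/K) // AlgEquiv.restrictNormalHom H a = σ},
        Real.log ‖ι (toG K N a h)‖ = ∑ a ∈ T σ, Real.log ‖ι (toG K N a h)‖ := by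
      rw [finsum_eq_sum_of_fintype]
      exact (Finset.sum_subtype (T σ) (hTmem σ) fun a => Real.log ‖ι (toG K N a h)‖).symm
    have hhalf : ∑ a ∈ (T σ).filter (fun a => ¬ p a), Real.log ‖ι (toG K N a h)‖ =
        ∑ a ∈ (T σ).filter p, Real.log ‖ι (toG K N a h)‖ := by
      refine sum_filter_half (T σ) (fun a => cK * a) hcKcK ?_ (fun a => ¬ p a) p
        (fun a => not_congr (hpc a)) hpc _ ?_
      · intro a ha
        rw [hTmem] at ha ⊢
        rw [map_mul, hcKH, one_mul, ha]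
      · intro a
        have : toG K N (cK * a) h = toG K N a h := by
          rw [map_mul, hcK']
          exact hcch a
        rw [this]
    have hsum := Finset.sum_filter_add_sum_filter_not (T σ) p
      fun a => Real.log ‖ι (toG K N a h)‖
    rw [hhalf] at hsum
    have hfin : -((-(1 / 2) * ∑ᶠ a : {a : Gal(N/K) // AlgEquiv.restrictNormalHom H a = σ},
        Real.log ‖ι (toG K N a h)‖ : ℝ) : ℂ) =
        ((∑ a ∈ (T σ).filter p, Real.log ‖ι (toG K N a h)‖ : ℝ) : ℂ) := by
      rw [hfs, ← hsum, ← Complex.ofReal_neg]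
      congr 1
      ring
    obtain ⟨y, hy, hcy'⟩ := hsq σ
    have hyr : ι y = ((ι y).re : ℂ) := by
      have h1 := hc y
      rw [hcy'] at h1
      exact (Complex.conj_eq_iff_re.1 h1.symm).symm
    have hpos : ι (e ^ m * Y σ) = ((((ι y).re) ^ 2 : ℝ) : ℂ) := by
      rw [← hy, map_pow, hyr]
      push_cast
      simp
    have hnorm : ‖ι (e ^ m * Y σ)‖ = ∏ a ∈ (T σ).filter p, ‖ι (toG K N a h)‖ := by
      rw [map_mul, norm_mul, hιq, one_mul, hYdef, map_prod, norm_prod]
    have hlogs : Real.exp (∑ a ∈ (T σ).filter p, Real.log ‖ι (toG K N a h)‖) =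
        ∏ a ∈ (T σ).filter p, ‖ι (toG K N a h)‖ := by
      rw [Real.exp_sum]
      refine Finset.prod_congr rfl fun a _ => Real.exp_log ?_
      rw [norm_pos_iff]
      exact fun h1 => hne0 (toG K N a) h0 (ι.injective (by rw [h1, map_zero]))
    rw [hfin, ← Complex.ofReal_exp, hlogs, ← hnorm, hpos, Complex.norm_real,
      Real.norm_of_nonneg (sq_nonneg _)]
  · -- equivariance
    intro ρ σ
    apply (algebraMap H N).injective
    change algebraMap H N (ρ ((u σ : (𝓞 H)ˣ) : 𝓞 H)) =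
      algebraMap H N ((u (ρ * σ) : (𝓞 H)ˣ) : 𝓞 H)
    obtain ⟨s, hs⟩ := hsurj ρ
    have h1 := hres s (((u σ : (𝓞 H)ˣ) : 𝓞 H) : H)
    rw [hs] at h1
    rw [h1, hu, hu, hqY, hs]
  · -- the other embeddings
    intro g ⟨x₀, hx₀⟩
    obtain ⟨γ, hγ⟩ : ∃ γ : Gal(N/ℚ), ∀ y : H, g y = ι (γ (algebraMap H N y)) := by
      let _ : Algebra H ℂ := g.toAlgebra
      have : Algebra.IsAlgebraic H N := Algebra.IsAlgebraic.of_finite H N
      obtain ⟨γ, hγ⟩ := exists_comp ι (IsAlgClosed.lift : N →ₐ[H] ℂ).toRingHom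
      refine ⟨γ, fun y => ?_⟩
      rw [← hγ]
      exact ((IsAlgClosed.lift : N →ₐ[H] ℂ).commutes y).symm
    have hγK : γ ∉ fixG K N := by
      intro h
      rw [mem_fixG] at h
      apply hx₀
      rw [hγ, ← IsScalarTower.algebraMap_apply, h]
    have hconj' : γ * c = z * c * γ := by
      rw [← hconj γ hγK, inv_mul_cancel_right]
    constructor
    · intro y
      rw [hγ, hγ, hres, ← hc]
      congr 1
      have e1 : zK (algebraMap H N y) = z (algebraMap H N y) := by rw [← hzK]; rfl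
      rw [e1]
      have e2 : γ (z (algebraMap H N y)) = z (γ (algebraMap H N y)) := by
        change (γ * z) _ = (z * γ) _
        rw [hzc]
      rw [e2]
      have e3 : γ (c (algebraMap H N y)) = z (c (γ (algebraMap H N y))) := by
        change (γ * c) _ = (z * c * γ) _
        rw [hconj']
      rw [hcy] at e3
      rw [congrArg z e3]
      change (z * z) _ = _
      rw [hzz]; rfl
    · intro σ
      change ‖g ((u σ : (𝓞 H)ˣ) : 𝓞 H)‖ = 1
      rw [hγ, hu, map_mul, hge, map_mul, norm_mul, hιq, one_mul, hYdef, map_prod, map_prod,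
        norm_prod]
      refine Finset.prod_eq_one fun a _ => ?_
      have h1 : γ * toG K N a ∉ fixG K N := by
        intro h2
        apply hγK
        have h3 := Subgroup.mul_mem _ h2 (Subgroup.inv_mem _ (⟨a, rfl⟩ : toG K N a ∈ fixG K N))
        rwa [mul_inv_cancel_right] at h3
      exact hone _ h1
  · -- the square roots
    intro σ
    obtain ⟨y, hy, -⟩ := hsq σ
    exact ⟨y, by rw [hy]; exact (hu σ).symm⟩

end Pool.Agent.StarkRQ.Rank3
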