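import Pool.Agent.StarkRQ.Rank3.Defs

/-!
# The quadratic fields

`k i` is generated by `y i` with `y i ^ 2 = d i` (`hkd`, and `y i` is not rational as `d i < 0`), so `g`
is in `fixG (k i) M` iff `g (y i) = y i` (image in `M`), otherwise `g (y i) = -y i` (`mem_fixG`). The field
`K` is generated by `x` with `x ^ 2 = ∏ d i` (not rational by `hd4`), and in `M`, `x = ± ∏ y i`. So
`g x = (-1) ^ #{i | g ∉ fixG (k i) M} x`. If `fixG (k i) M = fixG (k j) M` then `y i * y j` is fixed by
all `g`, so rational (`IsGalois ℚ M`), so `d i * d j` is a square. For complex conjugation: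
`(ι (y i)) ^ 2 = d i < 0`, so `ι (y i)` is purely imaginary and `c (y i) = -y i`; the number of `i` is
`4`, even.
-/

open NumberField Module
open scoped commutatorElement

namespace Pool.Agent.StarkRQ.Rank3

private lemma quad_span {F : Type*} [Field F] [NumberField F] (hF : finrank ℚ F = 2) {y : F}
    (hy : ∀ q : ℚ, algebraMap ℚ F q ≠ y) (x : F) : ∃ a b : ℚ, a • (1 : F) + b • y = x := by
  have hli : LinearIndependent ℚ ![(1 : F), y] := by
    rw [LinearIndependent.pair_iff]
    intro s t hst
    have ht : t = 0 := by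
      by_contra ht
      apply hy (-s / t)
      have h1 : t • y = -(s • (1 : F)) := by
        rw [eq_neg_iff_add_eq_zero, add_comm]
        exact hst
      have h2 : y = (1 / t) • (t • y) := by
        rw [smul_smul, one_div_mul_cancel ht, one_smul]
      rw [h2, h1, Algebra.smul_def, Algebra.smul_def, mul_one, ← map_neg, ← map_mul]
      congr 1
      ring
    subst ht
    rw [zero_smul, add_zero] at hst
    refine ⟨?_, rfl⟩
    rcases smul_eq_zero.1 hst with h | h
    · exact h
    · exact absurd h one_ne_zero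
  have hspan := hli.span_eq_top_of_card_eq_finrank' (by rw [hF]; rfl)
  have hx : x ∈ Submodule.span ℚ (Set.range ![(1 : F), y]) := by
    rw [hspan]
    trivial
  rw [Matrix.range_cons, Matrix.range_cons, Matrix.range_empty, Set.union_empty,
    Set.singleton_union] at hx
  exact Submodule.mem_span_pair.1 hx

private lemma quad_fix {F M : Type*} [Field F] [NumberField F] [Field M] [NumberField M]
    [Algebra F M] (hF : finrank ℚ F = 2) {y : F} (hy : ∀ q : ℚ, algebraMap ℚ F q ≠ y)
    (g : Gal(M/ℚ)) : g ∈ fixG F M ↔ g (algebraMap F M y) = algebraMap F M y := by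
  rw [mem_fixG]
  refine ⟨fun h => h y, fun h x => ?_⟩
  obtain ⟨a, b, rfl⟩ := quad_span hF hy x
  have e1 : algebraMap F M (a • (1 : F) + b • y) =
      algebraMap ℚ M a + algebraMap ℚ M b * algebraMap F M y := by
    rw [Algebra.smul_def, Algebra.smul_def, mul_one, map_add, map_mul]
    congr 1
    · exact RingHom.congr_fun (RingHom.ext_rat ((algebraMap F M).comp (algebraMap ℚ F))
        (algebraMap ℚ M)) a
    · congr 1
      exact RingHom.congr_fun (RingHom.ext_rat ((algebraMap F M).comp (algebraMap ℚ F))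
        (algebraMap ℚ M)) b
  rw [e1, map_add, map_mul, h, AlgEquiv.commutes, AlgEquiv.commutes]

private lemma quad_sq {F M : Type*} [Field F] [NumberField F] [Field M] [NumberField M]
    [Algebra F M] {y : F} {q : ℚ} (hy : algebraMap ℚ F q = y * y) :
    algebraMap F M y * algebraMap F M y = algebraMap ℚ M q := by
  rw [← map_mul, ← hy]
  exact RingHom.congr_fun (RingHom.ext_rat ((algebraMap F M).comp (algebraMap ℚ F))
        (algebraMap ℚ M)) q

private lemma quad_neg {F M : Type*} [Field F] [NumberField F] [Field M] [NumberField M]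
    [Algebra F M] {y : F} {q : ℚ} (hy : algebraMap ℚ F q = y * y) (g : Gal(M/ℚ)) :
    g (algebraMap F M y) = algebraMap F M y ∨ g (algebraMap F M y) = -algebraMap F M y := by
  apply mul_self_eq_mul_self_iff.1
  rw [← map_mul, quad_sq hy, AlgEquiv.commutes]

theorem fix_facts {M K : Type*} {k : Fin 4 → Type*} [Field M] [NumberField M] [Field K]
    [NumberField K] [∀ i, Field (k i)] [∀ i, NumberField (k i)] [IsGalois ℚ M] [Algebra K M]
    [∀ i, Algebra (k i) M] {d : Fin 4 → ℚ} (hd : ∀ i, d i < 0)
    (hdd : ∀ i j, i ≠ j → ¬ IsSquare (d i * d j)) (hd4 : ¬ IsSquare (∏ i, d i))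
    (hk : ∀ i, finrank ℚ (k i) = 2) (hkd : ∀ i, IsSquare (algebraMap ℚ (k i) (d i)))
    (hK : finrank ℚ K = 2) (hKd : IsSquare (algebraMap ℚ K (∏ i, d i))) :
    (∀ i j, i ≠ j → fixG (k i) M ≠ fixG (k j) M) ∧
      (∀ g : Gal(M/ℚ), g ∈ fixG K M ↔ Even (Set.ncard {i | g ∉ fixG (k i) M})) ∧
      ∀ (ι : M →+* ℂ) (c : Gal(M/ℚ)), (∀ x, ι (c x) = starRingEnd ℂ (ι x)) →
        (∀ i, c ∉ fixG (k i) M) ∧ c ∈ fixG K M := by
  classical
  choose y hy using hkd
  obtain ⟨x, hx⟩ := hKd
  have hyq : ∀ i, ∀ q : ℚ, algebraMap ℚ (k i) q ≠ y i := by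
    intro i q hq
    have h1 : algebraMap ℚ (k i) (d i) = algebraMap ℚ (k i) (q * q) := by
      rw [hy i, ← hq, map_mul]
    have h2 : d i = q * q := (algebraMap ℚ (k i)).injective h1
    have h3 := hd i
    nlinarith [mul_self_nonneg q]
  have hxq : ∀ q : ℚ, algebraMap ℚ K q ≠ x := by
    intro q hq
    have h1 : algebraMap ℚ K (∏ i, d i) = algebraMap ℚ K (q * q) := by
      rw [hx, ← hq, map_mul]
    exact hd4 ⟨q, (algebraMap ℚ K).injective h1⟩
  have hfix : ∀ i, ∀ g : Gal(M/ℚ), g ∈ fixG (k i) M ↔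
      g (algebraMap (k i) M (y i)) = algebraMap (k i) M (y i) :=
    fun i g => quad_fix (hk i) (hyq i) g
  have hfixK : ∀ g : Gal(M/ℚ), g ∈ fixG K M ↔ g (algebraMap K M x) = algebraMap K M x :=
    fun g => quad_fix hK hxq g
  have hYsq : ∀ i, algebraMap (k i) M (y i) * algebraMap (k i) M (y i) = algebraMap ℚ M (d i) :=
    fun i => quad_sq (hy i)
  have hXsq : algebraMap K M x * algebraMap K M x = algebraMap ℚ M (∏ i, d i) := quad_sq hx
  have hsgn : ∀ i, ∀ g : Gal(M/ℚ), g ∉ fixG (k i) M →
      g (algebraMap (k i) M (y i)) = -algebraMap (k i) M (y i) := by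
    intro i g hg
    rcases quad_neg (M := M) (hy i) g with h | h
    · exact absurd ((hfix i g).2 h) hg
    · exact h
  have hY0 : ∀ i, algebraMap (k i) M (y i) ≠ 0 := by
    intro i h0
    have h1 := hYsq i
    rw [h0, mul_zero] at h1
    have h2 : d i = 0 := by
      apply (algebraMap ℚ M).injective
      rw [← h1, map_zero]
    exact (hd i).ne h2
  have hmain : ∀ g : Gal(M/ℚ), g ∈ fixG K M ↔ Even (Set.ncard {i | g ∉ fixG (k i) M}) := by
    intro g
    have hP0 : (∏ i, algebraMap (k i) M (y i)) ≠ 0 := Finset.prod_ne_zero_iff.2 fun i _ => hY0 i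
    have h1 : algebraMap K M x = ∏ i, algebraMap (k i) M (y i) ∨
        algebraMap K M x = -∏ i, algebraMap (k i) M (y i) := by
      apply mul_self_eq_mul_self_iff.1
      rw [hXsq, ← Finset.prod_mul_distrib, map_prod]
      exact (Finset.prod_congr rfl fun i _ => hYsq i).symm
    have h2 : g (∏ i, algebraMap (k i) M (y i)) =
        (-1) ^ (Finset.univ.filter fun i => g ∉ fixG (k i) M).card *
          ∏ i, algebraMap (k i) M (y i) := by
      rw [map_prod, ← Finset.prod_const, Finset.prod_filter, ← Finset.prod_mul_distrib]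
      refine Finset.prod_congr rfl fun i _ => ?_
      by_cases hi : g ∈ fixG (k i) M
      · rw [if_neg (not_not.2 hi), one_mul]
        exact (hfix i g).1 hi
      · rw [if_pos hi, hsgn i g hi, neg_one_mul]
    have h3 : g (algebraMap K M x) = algebraMap K M x ↔
        g (∏ i, algebraMap (k i) M (y i)) = ∏ i, algebraMap (k i) M (y i) := by
      rcases h1 with h | h
      · rw [h]
      · rw [h, map_neg, neg_inj]
    have h4 : Set.ncard {i | g ∉ fixG (k i) M} =
        (Finset.univ.filter fun i => g ∉ fixG (k i) M).card := by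
      rw [← Set.ncard_coe_finset]
      congr 1
      ext i
      simp
    rw [hfixK, h3, h2, h4, mul_eq_right₀ hP0]
    exact neg_one_pow_eq_one_iff_even (by norm_num)
  refine ⟨?_, hmain, ?_⟩
  · intro i j hij he
    apply hdd i j hij
    have h1 : ∀ g : Gal(M/ℚ), g (algebraMap (k i) M (y i) * algebraMap (k j) M (y j)) =
        algebraMap (k i) M (y i) * algebraMap (k j) M (y j) := by
      intro g
      by_cases hi : g ∈ fixG (k i) M
      · have hj : g ∈ fixG (k j) M := he ▸ hi
        rw [map_mul, (hfix i g).1 hi, (hfix j g).1 hj]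
      · have hj : g ∉ fixG (k j) M := he ▸ hi
        rw [map_mul, hsgn i g hi, hsgn j g hj, neg_mul_neg]
    obtain ⟨q, hq⟩ := (IsGalois.mem_range_algebraMap_iff_fixed (F := ℚ) (E := M) _).2 h1
    refine ⟨q, (algebraMap ℚ M).injective ?_⟩
    rw [map_mul, map_mul, hq, ← hYsq i, ← hYsq j]
    ring
  · intro ι c hc
    have h1 : ∀ i, c ∉ fixG (k i) M := by
      intro i hi
      have h2 := (hfix i c).1 hi
      have h3 := hc (algebraMap (k i) M (y i))
      rw [h2] at h3
      obtain ⟨r, hr⟩ := Complex.conj_eq_iff_real.1 h3.symm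
      have h4 : ι (algebraMap (k i) M (y i)) * ι (algebraMap (k i) M (y i)) = ((d i : ℝ) : ℂ) := by
        rw [← map_mul, hYsq i]
        push_cast
        exact RingHom.congr_fun (RingHom.ext_rat (ι.comp (algebraMap ℚ M))
          (algebraMap ℚ ℂ)) (d i)
      rw [hr, ← Complex.ofReal_mul, Complex.ofReal_inj] at h4
      have h5 : (d i : ℝ) < 0 := by exact_mod_cast hd i
      nlinarith [mul_self_nonneg r]
    refine ⟨h1, (hmain c).2 ?_⟩
    have h2 : {i | c ∉ fixG (k i) M} = Set.univ := by
      ext i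
      simp [h1 i]
    rw [h2, Set.ncard_univ, Nat.card_eq_fintype_card, Fintype.card_fin]
    decide

end Pool.Agent.StarkRQ.Rank3
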