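import Pool.Agent.StarkRQ.Rank3.Defs
import Pool.Agent.StarkRQ.CommCard
import Pool.Agent.StarkRQ.Galois
import Pool.Agent.StarkRQ.Root
import Pool.Agent.StarkRQ.Klein

/-!
# The kernels of the restrictions

`mem_commutator_iff`: the fixed field of the commutator subgroup is `ℚ(ζ)`, see the proof of
`card_commutator` in StarkRQ/CommCard.lean, and Galois theory
(`IntermediateField.fixingSubgroup_fixedField`).
`ker_facts`: elements of `kerR E M` fix the image of `E`, so they fix `ζ`. Degrees: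
`Nat.card (kerR E M) * finrank ℚ E = finrank ℚ M` (`card_ker_res` in StarkRQ/Klein.lean is a model;
`IsGalois.card_aut_eq_finrank`), `Nat.card (commutator Gal(M/ℚ)) * f.totient = finrank ℚ M`
(as in `card_commutator`). `relIndex` via `Subgroup.relIndex`/`card_mul_index`. The roots of unity of `M`
are fixed by commutators (`commutator_fixes` in StarkRQ/Galois.lean), so they are in `ℚ(ζ)` by `hmax`,
so in the image of `E`, and the torsion orders are equal (`exists_primRoot` in StarkRQ/Root.lean,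
`Units.dvd_torsionOrder_of_isPrimitiveRoot` in both directions).
`meet_ne`: `y` is fixed by both kernels; if their join is the commutator subgroup, `y` is fixed by
all commutators, so `y ∈ ℚ(ζ)` by `hmax`. `comm_mem_kerR`: `Gal(E/k)` is abelian.
-/

open NumberField Module
open scoped commutatorElement

namespace Pool.Agent.StarkRQ.Rank3

section aux

variable {M : Type} [Field M] [NumberField M] [IsGalois ℚ M]

/-- elements fixed by all commutators -/
private lemma d2_fixed {x : M} (h : ∀ g ∈ commutator Gal(M/ℚ), g x = x) (σ τ : Gal(M/ℚ)) :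
    σ (τ x) = τ (σ x) := by
  have h1 : ⁅σ⁻¹, τ⁻¹⁆ ∈ commutator Gal(M/ℚ) :=
    Subgroup.commutator_mem_commutator (Subgroup.mem_top _) (Subgroup.mem_top _)
  have h2 : ⁅σ⁻¹, τ⁻¹⁆ x = x := h _ h1
  have h3 : (τ * σ) * ⁅σ⁻¹, τ⁻¹⁆ = σ * τ := by
    rw [commutatorElement_def]
    group
  have h4 := congrArg (fun g : Gal(M/ℚ) => g x) h3
  simp only [AlgEquiv.mul_apply] at h4
  rw [h2] at h4
  exact h4.symm

private lemma d2_fixedField {f : ℕ} [NeZero f] {ζ : M} (hζ : IsPrimitiveRoot ζ f)
    (hmax : ∀ x : M, (∀ σ τ : Gal(M/ℚ), σ (τ x) = τ (σ x)) →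
      x ∈ IntermediateField.adjoin ℚ {ζ}) :
    IntermediateField.fixedField (commutator Gal(M/ℚ)) = IntermediateField.adjoin ℚ {ζ} := by
  apply le_antisymm
  · intro x hx
    exact hmax x fun σ τ => d2_fixed (fun g hg => hx ⟨g, hg⟩) σ τ
  · rw [IntermediateField.adjoin_simple_le_iff]
    rintro ⟨g, hg⟩
    have h1 : hζ.autToPow ℚ g = 1 :=
      (Abelianization.commutator_subset_ker (hζ.autToPow ℚ)) hg
    have h2 := hζ.autToPow_spec ℚ g
    rw [h1, Units.val_one, ZMod.val_one_eq_one_mod] at h2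
    rw [hζ.eq_orderOf, pow_mod_orderOf, pow_one] at h2
    exact h2.symm

/-- the fixed points of an element which fixes `ζ` -/
private lemma d2_adjoin {g : Gal(M/ℚ)} {ζ x : M} (hg : g ζ = ζ)
    (hx : x ∈ IntermediateField.adjoin ℚ {ζ}) : g x = x := by
  induction hx using IntermediateField.adjoin_induction with
  | mem y hy =>
    rw [Set.mem_singleton_iff] at hy
    rw [hy, hg]
  | algebraMap a => simp
  | add a b _ _ ha hb => rw [map_add, ha, hb]
  | inv a _ ha => rw [map_inv₀, ha]
  | mul a b _ _ ha hb => rw [map_mul, ha, hb]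

/-- the order of the kernel of the restriction -/
private lemma d2_card_ker {E : Type} [Field E] [NumberField E] [IsGalois ℚ E] [Algebra E M] :
    Nat.card (kerR E M) * finrank ℚ E = finrank ℚ M := by
  have e1 : Nat.card Gal(M/ℚ) = Nat.card (kerR E M) * Nat.card Gal(E/ℚ) := by
    rw [← Subgroup.card_mul_index (res E M).ker, Subgroup.index_ker,
      MonoidHom.range_eq_top.2 res_surjective]
    congr 1
    exact Nat.card_congr Subgroup.topEquiv.toEquiv
  rw [IsGalois.card_aut_eq_finrank, IsGalois.card_aut_eq_finrank] at e1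
  exact e1.symm

/-- the degree of `M` -/
private lemma d2_degree {f : ℕ} [NeZero f] {ζ : M} (hζ : IsPrimitiveRoot ζ f)
    (hmax : ∀ x : M, (∀ σ τ : Gal(M/ℚ), σ (τ x) = τ (σ x)) →
      x ∈ IntermediateField.adjoin ℚ {ζ}) :
    Nat.card (commutator Gal(M/ℚ)) * Nat.totient f = finrank ℚ M := by
  have h1 : finrank ℚ (IntermediateField.adjoin ℚ {ζ}) = Nat.totient f := by
    rw [IntermediateField.adjoin.finrank (hζ.isIntegral (NeZero.pos f)).tower_top,
      ← Polynomial.cyclotomic_eq_minpoly_rat hζ (NeZero.pos f), Polynomial.natDegree_cyclotomic]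
  have h2 := finrank_mul_finrank ℚ (IntermediateField.adjoin ℚ {ζ}) M
  have h3 := IntermediateField.finrank_fixedField_eq_card (commutator Gal(M/ℚ))
  rw [d2_fixedField hζ hmax] at h3
  rw [h1, h3] at h2
  rw [mul_comm]
  exact h2

end aux

section P13
variable {M : Type} [Field M] [NumberField M] [IsGalois ℚ M] {f : ℕ} [NeZero f]
    {ζ : M} (hζ : IsPrimitiveRoot ζ f)
    (hmax : ∀ x : M, (∀ σ τ : Gal(M/ℚ), σ (τ x) = τ (σ x)) → x ∈ IntermediateField.adjoin ℚ {ζ})

include hζ hmax in
theorem mem_commutator_iff (t : Gal(M/ℚ)) : t ∈ commutator Gal(M/ℚ) ↔ t ζ = ζ := by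
  have hF := d2_fixedField hζ hmax
  constructor
  · intro ht
    have h1 : ζ ∈ IntermediateField.fixedField (commutator Gal(M/ℚ)) := by
      rw [hF]
      exact IntermediateField.mem_adjoin_simple_self ℚ ζ
    exact h1 ⟨t, ht⟩
  · intro ht
    rw [← IntermediateField.fixingSubgroup_fixedField (commutator Gal(M/ℚ)), hF,
      IntermediateField.mem_fixingSubgroup_iff]
    exact fun x hx => d2_adjoin ht hx

include hζ hmax in
theorem ker_facts {E : Type} [Field E] [NumberField E] [IsGalois ℚ E] [Algebra E M]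
    (hζE : ζ ∈ (algebraMap E M).range) {m : ℕ} (hdeg : finrank ℚ E = m * f.totient) :
    kerR E M ≤ commutator Gal(M/ℚ) ∧ (kerR E M).relIndex (commutator Gal(M/ℚ)) = m ∧
      m * Nat.card (kerR E M) = Nat.card (commutator Gal(M/ℚ)) ∧
      Units.torsionOrder E = Units.torsionOrder M := by
  obtain ⟨y, hy⟩ := hζE
  have hle : kerR E M ≤ commutator Gal(M/ℚ) := by
    intro g hg
    rw [mem_commutator_iff hζ hmax, ← hy, ← res_apply, MonoidHom.mem_ker.1 hg]
    rfl
  have hφ : 0 < f.totient := Nat.totient_pos.2 (NeZero.pos f)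
  have hcard : m * Nat.card (kerR E M) = Nat.card (commutator Gal(M/ℚ)) := by
    have h1 := d2_card_ker (M := M) (E := E)
    rw [← d2_degree hζ hmax, hdeg] at h1
    apply Nat.eq_of_mul_eq_mul_right hφ
    rw [← h1]
    ring
  have hpos : 0 < Nat.card (kerR E M) := Nat.card_pos
  refine ⟨hle, ?_, hcard, Nat.dvd_antisymm ?_ ?_⟩
  · have h1 := Subgroup.relIndex_mul_relIndex (⊥ : Subgroup Gal(M/ℚ)) (kerR E M)
      (commutator Gal(M/ℚ)) bot_le hle
    rw [Subgroup.relIndex_bot_left, Subgroup.relIndex_bot_left, ← hcard, mul_comm m] at h1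
    exact Nat.eq_of_mul_eq_mul_left hpos h1
  · obtain ⟨ξ, hξ⟩ := exists_primRoot E
    have : NeZero (Units.torsionOrder E) := ⟨Units.torsionOrder_ne_zero E⟩
    exact Units.dvd_torsionOrder_of_isPrimitiveRoot
      (hξ.map_of_injective (algebraMap E M).injective)
  · obtain ⟨ξ, hξ⟩ := exists_primRoot M
    have : NeZero (Units.torsionOrder M) := ⟨Units.torsionOrder_ne_zero M⟩
    have h1 := hmax ξ fun σ τ => commute_on_roots σ τ ξ hξ.pow_eq_one
    have h2 : ξ ∈ (algebraMap E M).range := by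
      rw [mem_range_iff_res]
      intro g hg
      refine d2_adjoin ?_ h1
      rw [← hy, ← res_apply, hg]
      rfl
    obtain ⟨η, rfl⟩ := h2
    exact Units.dvd_torsionOrder_of_isPrimitiveRoot
      (IsPrimitiveRoot.of_map_of_injective hξ (algebraMap E M).injective)

include hmax in
theorem meet_ne {E E' : Type} [Field E] [NumberField E] [IsGalois ℚ E] [Algebra E M]
    [Field E'] [NumberField E'] [IsGalois ℚ E'] [Algebra E' M]
    (h : ∃ y : M, y ∈ (algebraMap E M).range ∧ y ∈ (algebraMap E' M).range ∧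
      y ∉ IntermediateField.adjoin ℚ {ζ}) :
    kerR E M ⊔ kerR E' M ≠ commutator Gal(M/ℚ) := by
  obtain ⟨y, ⟨a, ha⟩, ⟨b, hb⟩, hy⟩ := h
  intro heq
  apply hy
  refine hmax y fun σ τ => d2_fixed (fun g hg => ?_) σ τ
  have h1 : kerR E M ⊔ kerR E' M ≤ MulAction.stabilizer Gal(M/ℚ) y := by
    refine sup_le ?_ ?_
    · intro t ht
      rw [MulAction.mem_stabilizer_iff, AlgEquiv.smul_def, ← ha, ← res_apply,
        MonoidHom.mem_ker.1 ht]
      rfl
    · intro t ht
      rw [MulAction.mem_stabilizer_iff, AlgEquiv.smul_def, ← hb, ← res_apply,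
        MonoidHom.mem_ker.1 ht]
      rfl
  rw [← heq] at hg
  exact MulAction.mem_stabilizer_iff.1 (h1 hg)

omit [IsGalois ℚ M] in
theorem comm_mem_kerR {k E : Type} [Field k] [NumberField k] [Field E] [NumberField E]
    [IsGalois ℚ E] [Algebra k E] [Algebra E M] [Algebra k M] [IsScalarTower k E M]
    [IsAbelianGalois k E] {a b : Gal(M/ℚ)} (ha : a ∈ fixG k M) (hb : b ∈ fixG k M) :
    ⁅a, b⁆ ∈ kerR E M := by
  obtain ⟨s, hs⟩ := (mem_fixG_iff_res (K := k) (M₁ := E) a).1 ha
  obtain ⟨t, ht⟩ := (mem_fixG_iff_res (K := k) (M₁ := E) b).1 hb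
  rw [MonoidHom.mem_ker, map_commutatorElement, ← hs, ← ht, commutatorElement_eq_one_iff_mul_comm,
    ← map_mul, ← map_mul, mul_comm' s t]
end P13

end Pool.Agent.StarkRQ.Rank3
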