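import Pool.Agent.StarkRQ.Rank3.Indep
import Pool.Agent.StarkRQ.Rank3.CountSgn

/-!
# Assembly: the group theoretic facts in the form used later
-/

open scoped commutatorElement

namespace Pool.Agent.StarkRQ.Rank3

structure GFacts {G : Type*} [Group G] (A₀ U₀ : Subgroup G) (A U : Fin 4 → Subgroup G) : Prop where
  rel0 : ∀ i, (U₀ ⊔ U i).relIndex (commutator G) = 2
  rel : ∀ i j, i ≠ j → (U i ⊔ U j).relIndex (commutator G) = 2
  mem0 : ∀ i, ∀ g h : G, ⁅g, h⁆ ∈ U₀ ⊔ U i ↔ ((g ∉ A₀ ∧ h ∉ A i) ↔ (g ∉ A i ∧ h ∉ A₀))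
  mem : ∀ i j, i ≠ j → ∀ g h : G,
    ⁅g, h⁆ ∈ U i ⊔ U j ↔ ((g ∉ A i ∧ h ∉ A j) ↔ (g ∉ A j ∧ h ∉ A i))
  cen0 : ∀ t ∈ commutator G, ∀ g, ⁅t, g⁆ ∈ U₀
  cen : ∀ i, ∀ t ∈ commutator G, ∀ g, ⁅t, g⁆ ∈ U i
  sq0 : ∀ t ∈ commutator G, t * t ∈ U₀
  sq : ∀ i, ∀ t ∈ commutator G, t * t ∈ U i
  count0 : ∀ s ∈ commutator G, (∀ j, s ∉ U₀ ⊔ U j) → ∀ t ∈ commutator G,
    ((t ∈ U₀ → ∑ j, sgn (U₀ ⊔ U j) t = 4) ∧ (s⁻¹ * t ∈ U₀ → ∑ j, sgn (U₀ ⊔ U j) t = -4) ∧
      (t ∉ U₀ → s⁻¹ * t ∉ U₀ → ∑ j, sgn (U₀ ⊔ U j) t = 0))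
  count : ∀ i, ∀ s ∈ commutator G, (s ∉ U₀ ⊔ U i) → (∀ j, j ≠ i → s ∉ U i ⊔ U j) →
    ∀ t ∈ commutator G,
    ((t ∈ U i → ∑ j ∈ Finset.univ.erase i, sgn (U i ⊔ U j) t + sgn (U₀ ⊔ U i) t = 4) ∧
      (s⁻¹ * t ∈ U i → ∑ j ∈ Finset.univ.erase i, sgn (U i ⊔ U j) t + sgn (U₀ ⊔ U i) t = -4) ∧
      (t ∉ U i → s⁻¹ * t ∉ U i →
        ∑ j ∈ Finset.univ.erase i, sgn (U i ⊔ U j) t + sgn (U₀ ⊔ U i) t = 0))

theorem gfacts {G : Type*} [Group G] {A₀ U₀ : Subgroup G} {A U : Fin 4 → Subgroup G}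
    [hn₀ : U₀.Normal] [hn : ∀ i, (U i).Normal]
    (hA₀ : A₀.index = 2) (hA : ∀ i, (A i).index = 2) {c : G} (hcA₀ : c ∈ A₀) (hc : ∀ i, c ∉ A i)
    (hne : ∀ i j, i ≠ j → A i ≠ A j)
    (hpar : ∀ g, g ∈ A₀ ↔ Even (Set.ncard {i | g ∉ A i}))
    (hU₀ : U₀ ≤ commutator G) (hU : ∀ i, U i ≤ commutator G)
    (hab₀ : ∀ a ∈ A₀, ∀ b ∈ A₀, ⁅a, b⁆ ∈ U₀) (hab : ∀ i, ∀ a ∈ A i, ∀ b ∈ A i, ⁅a, b⁆ ∈ U i)
    (hmeet₀ : ∀ i, U₀ ⊔ U i ≠ commutator G)
    (hmeet : ∀ i j, i ≠ j → U i ⊔ U j ≠ commutator G)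
    (hcard₀ : U₀.relIndex (commutator G) = 8)
    (hcard : ∀ i, (U i).relIndex (commutator G) = 8) : GFacts A₀ U₀ A U := by
  classical
  obtain ⟨hpar', hsurj'⟩ := option_facts hA₀ hA hc hne hpar
  set A' : Option (Fin 4) → Subgroup G := fun o => o.elim A₀ A with hA'
  set U' : Option (Fin 4) → Subgroup G := fun o => o.elim U₀ U with hU'
  have : ∀ o, (U' o).Normal := by
    rintro (_ | i)
    · exact hn₀
    · exact hn i
  have hI : Fintype.card (Option (Fin 4)) = 5 := by simp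
  have hidx' : ∀ o, (A' o).index = 2 := by
    rintro (_ | i)
    · exact hA₀
    · exact hA i
  have hUC' : ∀ o, U' o ≤ commutator G := by
    rintro (_ | i)
    · exact hU₀
    · exact hU i
  have hab' : ∀ o, ∀ a ∈ A' o, ∀ b ∈ A' o, ⁅a, b⁆ ∈ U' o := by
    rintro (_ | i)
    · exact hab₀
    · exact hab i
  have hmeet' : ∀ o o', o ≠ o' → U' o ⊔ U' o' ≠ commutator G := by
    rintro (_ | i) (_ | j) h
    · exact absurd rfl h
    · exact hmeet₀ j
    · rw [sup_comm]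
      exact hmeet₀ i
    · exact hmeet i j fun h' => h (by rw [h'])
  have hcard' : ∀ o, (U' o).relIndex (commutator G) = 8 := by
    rintro (_ | i)
    · exact hcard₀
    · exact hcard i
  have hP := fun (o o' : Option (Fin 4)) (h : o ≠ o') =>
    pair_meet hI hidx' hsurj' hUC' hab' hmeet' (i := o) (j := o') h
  have hC := fun (o : Option (Fin 4)) =>
    count_sgn hI hidx' hsurj' hpar' hUC' hab' hmeet' hcard' o
  -- the sums
  have hs0 : ∀ F : Option (Fin 4) → ℤ, ∑ o ∈ Finset.univ.erase none, F o = ∑ j, F (some j) := by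
    intro F
    have h1 := Finset.add_sum_erase Finset.univ F (Finset.mem_univ none)
    rw [Fintype.sum_option] at h1
    linarith
  have hs1 : ∀ (i : Fin 4) (F : Option (Fin 4) → ℤ),
      ∑ o ∈ Finset.univ.erase (some i), F o = ∑ j ∈ Finset.univ.erase i, F (some j) + F none := by
    intro i F
    have h1 := Finset.add_sum_erase Finset.univ F (Finset.mem_univ (some i))
    have h2 := Finset.add_sum_erase Finset.univ (fun j => F (some j)) (Finset.mem_univ i)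
    rw [Fintype.sum_option] at h1
    linarith
  constructor
  · intro i
    exact (hP none (some i) (by simp)).1
  · intro i j hij
    exact (hP (some i) (some j) (by simpa using hij)).1
  · intro i
    exact (hP none (some i) (by simp)).2
  · intro i j hij
    exact (hP (some i) (some j) (by simpa using hij)).2
  · intro t ht
    exact ((hC none).1 t ht).1
  · intro i t ht
    exact ((hC (some i)).1 t ht).1
  · intro t ht
    exact ((hC none).1 t ht).2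
  · intro i t ht
    exact ((hC (some i)).1 t ht).2
  · intro s hs hsj t ht
    have h := (hC none).2 s hs (by
      rintro (_ | j) hj
      · exact absurd rfl hj
      · exact hsj j) t ht
    rw [hs0 fun o => sgn (U' none ⊔ U' o) t] at h
    exact h
  · intro i s hs hsi hsj t ht
    have h := (hC (some i)).2 s hs (by
      rintro (_ | j) hj
      · change s ∉ U i ⊔ U₀
        rw [sup_comm]
        exact hsi
      · exact hsj j fun h' => hj (by rw [h'])) t ht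
    rw [hs1 i fun o => sgn (U' (some i) ⊔ U' o) t] at h
    have e : U' (some i) ⊔ U' none = U₀ ⊔ U i := sup_comm _ _
    simp only [e] at h
    exact h

end Pool.Agent.StarkRQ.Rank3
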