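import Pool.Agent.StarkRQ.Rank3.Defs

/-!
# Derivatives at `0` of Dirichlet series

`HasD a v` (Defs.lean) uses `IsCont` (StarkRQ/ContLin.lean, with `IsCont.sum`, `IsCont.deriv_eq`,
`IsCont.deriv_sum`, `IsPartialZeta.isCont`). For `HasD.sum` one needs scalar multiples (or
`deriv_lin` in StarkRQ/LinDeriv.lean as a model).

`hasD_cnt`: if `g ∉ fixG k M` then `res E M g ∉ fixG k E` (`mem_fixG_iff_res` in
StarkRQ/Branch2.lean), so `cnt k E n (res E M g) = 0` (the values of `toG` are in `fixG`), and the zero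
function works. If `g ∈ fixG k M`, `res E M g = toG k E s` for some `s ∈ Gal(E/k)`, and for `n ≠ 0`
the coefficient is `zcoeff f s n` (`zcoeff_eq_cnt` in StarkRQ/ArtSpec.lean;
`discr_dvd_discr` for the ramified primes); the value at `n = 0` does not matter for `LSeries`
(`LSeries_congr`) and `LSeriesSummable` (`LSeriesSummable_congr`). The derivative is in `hη.deriv_zeta s`;
`s η` has the image `g (algebraMap E M η)` in `M` (`res_apply`), and `log (x ^ 2) = 2 log x`.
-/

open NumberField Module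
open scoped commutatorElement

namespace Pool.Agent.StarkRQ.Rank3

private lemma isCont_mul {a : ℕ → ℂ} {Z : ℂ → ℂ} (h : IsCont a Z) (q : ℂ) :
    IsCont (fun n => q * a n) (fun s => q * Z s) where
  diff := h.diff.const_mul q
  summable := fun s hs => (h.summable s hs).smul q
  eq := fun s hs => by
    rw [h.eq s hs, ← LSeries_smul]
    rfl

theorem HasD.unique {a b : ℕ → ℂ} {v w : ℂ} (ha : HasD a v) (hb : HasD b w)
    (h : ∀ n, n ≠ 0 → a n = b n) : v = w := by
  obtain ⟨Z, hZ, rfl⟩ := ha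
  obtain ⟨W, hW, rfl⟩ := hb
  exact hZ.deriv_eq hW h

theorem HasD.sum {J : Type*} (S : Finset J) (q : J → ℂ) {a : J → ℕ → ℂ} {v : J → ℂ}
    (h : ∀ j ∈ S, HasD (a j) (v j)) :
    HasD (fun n => ∑ j ∈ S, q j * a j n) (∑ j ∈ S, q j * v j) := by
  classical
  have h' : ∀ j, ∃ Z : ℂ → ℂ, j ∈ S → IsCont (a j) Z ∧ deriv Z 0 = v j := by
    intro j
    by_cases hj : j ∈ S
    · obtain ⟨Z, h1, h2⟩ := h j hj
      exact ⟨Z, fun _ => ⟨h1, h2⟩⟩
    · exact ⟨0, fun h3 => absurd h3 hj⟩
  choose Z hZ using h'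
  have h1 : ∀ j ∈ S, IsCont (fun n => q j * a j n) (fun s => q j * Z j s) :=
    fun j hj => isCont_mul (hZ j hj).1 (q j)
  have h2 := IsCont.sum S (a := fun j n => q j * a j n) (Z := fun j s => q j * Z j s) h1
  have h3 := IsCont.deriv_sum S (a := fun j n => q j * a j n) (Z := fun j s => q j * Z j s) h1
  refine ⟨fun s => ∑ j ∈ S, q j * Z j s, ?_, ?_⟩
  · have e : (fun n => ∑ j ∈ S, q j * a j n) = ∑ j ∈ S, fun n => q j * a j n := by
      ext n
      rw [Finset.sum_apply]
    rw [e]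
    exact h2
  · rw [h3]
    refine Finset.sum_congr rfl fun j hj => ?_
    rw [deriv_const_mul _ (hZ j hj).1.differentiableAt, (hZ j hj).2]

theorem hasD_zcoeff {F L : Type*} [Field F] [NumberField F] [Field L] [NumberField L]
    [Algebra F L] {N : ℕ} {σ : Gal(L/F)} {Z : ℂ → ℂ} (hZ : IsPartialZeta N σ Z) :
    HasD (fun n => (zcoeff N σ n : ℂ)) (deriv Z 0) := ⟨Z, hZ.isCont, rfl⟩

theorem hasD_cnt {k E M : Type*} [Field k] [NumberField k] [Field E] [NumberField E]
    [Field M] [NumberField M] [Algebra k E] [Algebra E M] [Algebra k M] [IsScalarTower k E M]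
    [IsGalois ℚ E] [IsGalois ℚ M] [IsAbelianGalois k E] {ι : M →+* ℂ} {f : ℕ}
    (hram : ∀ p : ℕ, p.Prime → (p : ℤ) ∣ discr M → p ∣ f) {η : E}
    (hη : IsStarkUnit k (ι.comp (algebraMap E M)) f η) (g : Gal(M/ℚ))
    [Decidable (g ∈ fixG k M)] :
    HasD (fun n => if n.Coprime f then (cnt k E n (res E M g) : ℂ) else 0)
      (if g ∈ fixG k M then
        ((-(2 / (Units.torsionOrder E : ℝ)) * Real.log ‖ι (g (algebraMap E M η))‖ : ℝ) : ℂ)
        else 0) := by
  by_cases hg : g ∈ fixG k M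
  · rw [if_pos hg]
    obtain ⟨s, hs⟩ := (mem_fixG_iff_res (K := k) (M₁ := E) g).1 hg
    obtain ⟨Z, hZ, hZd⟩ := hη.deriv_zeta s
    have hab : ∀ σ τ : Gal(E/k), σ * τ = τ * σ := fun σ τ => IsMulCommutative.is_comm.comm σ τ
    have hram' : ∀ p : ℕ, p.Prime → (p : ℤ) ∣ discr E → p ∣ f := fun p hp h =>
      hram p hp (h.trans (discr_dvd_discr E M))
    have heq : ∀ {n : ℕ}, n ≠ 0 → ((zcoeff f s n : ℕ) : ℂ) =
        (if n.Coprime f then (cnt k E n (res E M g) : ℂ) else 0) := by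
      intro n hn
      by_cases hc : n.Coprime f
      · rw [if_pos hc, zcoeff_eq_cnt hab hram' hn hc s, hs]
      · rw [if_neg hc, zcoeff, if_neg hc, Nat.cast_zero]
    refine ⟨Z, ⟨hZ.isCont.diff, fun t ht => ?_, fun t ht => ?_⟩, ?_⟩
    · exact (LSeriesSummable_congr t heq).1 (hZ.isCont.summable t ht)
    · rw [hZ.isCont.eq t ht]
      exact LSeries_congr heq t
    · rw [hZd]
      have e1 : (ι.comp (algebraMap E M)) (s η) = ι (g (algebraMap E M η)) := by
        rw [RingHom.comp_apply, ← toG_apply (F := k) (M := E) s η, hs, res_apply]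
      rw [e1, Real.log_pow]
      push_cast
      ring
  · rw [if_neg hg]
    have h0 : ∀ n, cnt k E n (res E M g) = 0 := by
      intro n
      rw [cnt]
      have : IsEmpty {𝔞 : Ideal (𝓞 k) // Ideal.absNorm 𝔞 = n ∧ toG k E (art 𝔞) = res E M g} := by
        refine ⟨fun x => hg ?_⟩
        rw [mem_fixG_iff_res (K := k) (M₁ := E) g]
        exact ⟨art x.1, x.2.2⟩
      exact Nat.card_of_isEmpty
    refine ⟨fun _ => 0, ?_, by simp⟩
    have e : (fun n => if n.Coprime f then (cnt k E n (res E M g) : ℂ) else 0) = 0 := by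
      ext n
      rw [h0 n]
      simp
    rw [e]
    exact IsCont.zero

end Pool.Agent.StarkRQ.Rank3
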