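import Pool.Agent.StarkRQ.Rank3.Bridge
import Pool.Agent.StarkRQ.Rank3.HasD

/-!
# The logarithmic sums for two quadratic fields

`C = commutator Gal(M/ℚ)`, `V = kerR E M ⊔ kerR E' M`, `w = torsionOrder E`, `u` the image of `η`.
`lam_mul`: `lam (g s) = ∑ sgn V t L(t g s)` with `L g = log ‖ι (g u)‖`, `t g s = t (g s g⁻¹) g`;
substitute `t ↦ t (g s g⁻¹)⁻¹`; `sgn V` is multiplicative on `C` (`V` has index `2` in `C`) and
`sgn V (g s g⁻¹) = sgn V s` as `V` is normal.
`lam_cc`: `t c g = c t (t⁻¹ c⁻¹ t c) g`, the commutator `t⁻¹ c⁻¹ t c` is in `kerR E M` by `hcen` (and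
`kerR E M` is normal, so it can be moved to the right of `g`, where it fixes the image of `u`), so
`L (t c g) = L (c t g) = L (t g)` because `‖ι (c x)‖ = ‖ι x‖`.
`lam_eq` for `g ∈ fixG k M`, `g ∈ fixG k' M`: by `HasD.sum` and `hasD_cnt` the derivative attached to the
coefficients `ccnt k E M V n g` (for `n` prime to `f`, `0` otherwise) is `-(2 / w) * lam V u g` (all
`t g` are in `fixG k M`, as `C ≤ fixG k M`), the same for `k'`, `E'`; use `bridge` and `HasD.unique`.
If `g` is in `fixG k M` but not in `fixG k' M`: by the second part of `bridge` the coefficients are `0`,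
so `lam V u g = 0`. If `g ∉ fixG k M` replace `g` by `c g` (`lam_cc`), which is in `fixG k M`
(index `2`). For `lam_eq` the four cases are: both sides are equal if `g` is in both or in none of
`fixG k M`, `fixG k' M`, and both sides are `0` otherwise (use the statement also with the roles of
`k` and `k'` exchanged, `sup_comm`). For `lam_zero`: `g ∉ fixG k' M` and `c g ∉ fixG k' M`.
-/

open NumberField Module
open scoped commutatorElement

namespace Pool.Agent.StarkRQ.Rank3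

private theorem comm_le_of_index_two {G : Type*} [Group G] {H : Subgroup G} (h : H.index = 2) :
    commutator G ≤ H := by
  rw [commutator_def, Subgroup.commutator_le]
  intro a _ b _
  rw [commutatorElement_def, Subgroup.mul_mem_iff_of_index_two h,
    Subgroup.mul_mem_iff_of_index_two h, Subgroup.mul_mem_iff_of_index_two h, inv_mem_iff,
    inv_mem_iff]
  tauto

private theorem sgn_mul {G : Type*} [Group G] {V : Subgroup G}
    (hV : V.relIndex (commutator G) = 2) {a b : G} (ha : a ∈ commutator G)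
    (hb : b ∈ commutator G) : sgn V (a * b) = sgn V a * sgn V b := by
  have h1 : (V.subgroupOf (commutator G)).index = 2 := hV
  have h2 := Subgroup.mul_mem_iff_of_index_two h1 (a := ⟨a, ha⟩) (b := ⟨b, hb⟩)
  rw [Subgroup.mem_subgroupOf, Subgroup.mem_subgroupOf, Subgroup.mem_subgroupOf] at h2
  simp only [Subgroup.coe_mul] at h2
  unfold sgn
  by_cases h3 : a ∈ V <;> by_cases h4 : b ∈ V <;> simp [h3, h4, h2]

private theorem sgn_inv {G : Type*} [Group G] (V : Subgroup G) (a : G) :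
    sgn V a⁻¹ = sgn V a := by
  unfold sgn
  rw [inv_mem_iff]

private theorem sgn_sq {G : Type*} [Group G] (V : Subgroup G) (a : G) :
    sgn V a * sgn V a = 1 := by
  unfold sgn
  split_ifs <;> norm_num

private theorem sgn_conj {G : Type*} [Group G] {V : Subgroup G} [hn : V.Normal] (g s : G) :
    sgn V (g * s * g⁻¹) = sgn V s := by
  have h : g * s * g⁻¹ ∈ V ↔ s ∈ V := by
    constructor
    · intro h
      have h1 := hn.conj_mem _ h g⁻¹
      have e : g⁻¹ * (g * s * g⁻¹) * g⁻¹⁻¹ = s := by group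
      rwa [e] at h1
    · intro h
      exact hn.conj_mem _ h g
  unfold sgn
  by_cases h1 : s ∈ V
  · rw [if_pos h1, if_pos (h.2 h1)]
  · rw [if_neg h1, if_neg (fun h2 => h1 (h.1 h2))]

section P8a
variable {k E M : Type*} [Field k] [NumberField k] [Field E] [NumberField E] [Field M]
    [NumberField M] [Algebra k E] [Algebra E M] [Algebra k M] [IsScalarTower k E M]
    [IsGalois ℚ E] [IsGalois ℚ M] [IsAbelianGalois k E]

private theorem hasD_ccnt (hC : commutator Gal(M/ℚ) ≤ fixG k M) (V : Subgroup Gal(M/ℚ)) {f : ℕ}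
    (hram : ∀ p : ℕ, p.Prime → (p : ℤ) ∣ discr M → p ∣ f) {ι : M →+* ℂ} {η : E}
    (hη : IsStarkUnit k (ι.comp (algebraMap E M)) f η) {g : Gal(M/ℚ)} (hg : g ∈ fixG k M) :
    HasD (fun n => if n.Coprime f then (ccnt k E M V n g : ℂ) else 0)
      ((-(2 / (Units.torsionOrder E : ℝ)) * lam ι V (algebraMap E M η) g : ℝ) : ℂ) := by
  classical
  have h1 := HasD.sum (comF Gal(M/ℚ)) (fun t => ((sgn V t : ℤ) : ℂ))
    (a := fun t n => if n.Coprime f then (cnt k E n (res E M (t * g)) : ℂ) else 0)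
    (v := fun t => ((-(2 / (Units.torsionOrder E : ℝ)) *
      Real.log ‖ι ((t * g) (algebraMap E M η))‖ : ℝ) : ℂ)) (fun t ht => by
      have h2 := hasD_cnt hram hη (t * g)
      rw [if_pos (mul_mem (hC (mem_comF.1 ht)) hg)] at h2
      exact h2)
  have e1 : (fun n : ℕ => if n.Coprime f then (ccnt k E M V n g : ℂ) else 0) =
      fun n : ℕ => ∑ t ∈ comF Gal(M/ℚ), ((sgn V t : ℤ) : ℂ) *
        (if n.Coprime f then (cnt k E n (res E M (t * g)) : ℂ) else 0) := by
    funext n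
    by_cases hn : n.Coprime f
    · simp_rw [if_pos hn]
      unfold ccnt
      push_cast
      rfl
    · simp_rw [if_neg hn, mul_zero, Finset.sum_const_zero]
  have e2 : ((-(2 / (Units.torsionOrder E : ℝ)) * lam ι V (algebraMap E M η) g : ℝ) : ℂ) =
      ∑ t ∈ comF Gal(M/ℚ), ((sgn V t : ℤ) : ℂ) * ((-(2 / (Units.torsionOrder E : ℝ)) *
        Real.log ‖ι ((t * g) (algebraMap E M η))‖ : ℝ) : ℂ) := by
    unfold lam
    rw [Finset.mul_sum]
    push_cast
    refine Finset.sum_congr rfl fun t _ => ?_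
    ring
  rw [e1, e2]
  exact h1

private theorem lam_eq_zero_of_ccnt (hC : commutator Gal(M/ℚ) ≤ fixG k M)
    (V : Subgroup Gal(M/ℚ)) {f : ℕ}
    (hram : ∀ p : ℕ, p.Prime → (p : ℤ) ∣ discr M → p ∣ f) {ι : M →+* ℂ} {η : E}
    (hη : IsStarkUnit k (ι.comp (algebraMap E M)) f η) {g : Gal(M/ℚ)} (hg : g ∈ fixG k M)
    (h : ∀ n : ℕ, n ≠ 0 → n.Coprime f → ccnt k E M V n g = 0) :
    lam ι V (algebraMap E M η) g = 0 := by
  have h1 := hasD_ccnt hC V hram hη hg
  have h2 : HasD (fun _ => 0) 0 := by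
    have := HasD.sum (∅ : Finset ℕ) (fun _ => 0) (a := fun _ _ => 0) (v := fun _ => 0)
      (fun j hj => absurd hj (Finset.notMem_empty j))
    simpa using this
  have h3 := HasD.unique h1 h2 fun n hn => by
    by_cases hnf : n.Coprime f
    · rw [if_pos hnf, h n hn hnf, Int.cast_zero]
    · rw [if_neg hnf]
  have h4 : -(2 / (Units.torsionOrder E : ℝ)) * lam ι V (algebraMap E M η) g = 0 := by
    exact_mod_cast h3
  refine (mul_eq_zero.1 h4).resolve_left ?_
  have : (Units.torsionOrder E : ℝ) ≠ 0 := by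
    exact_mod_cast Units.torsionOrder_ne_zero E
  exact neg_ne_zero.2 (div_ne_zero two_ne_zero this)

end P8a

/-- complex conjugation, `g ↦ c g` -/
private theorem lam_cc' {E M : Type*} [Field E] [NumberField E] [Field M] [NumberField M]
    [Algebra E M] [IsGalois ℚ E] [IsGalois ℚ M] {ι : M →+* ℂ} {c : Gal(M/ℚ)}
    (hc : ∀ x, ι (c x) = starRingEnd ℂ (ι x)) {V : Subgroup Gal(M/ℚ)}
    (hcen : ∀ t ∈ commutator Gal(M/ℚ), ∀ g, ⁅t, g⁆ ∈ kerR E M) (u : E) (g : Gal(M/ℚ)) :
    lam ι V (algebraMap E M u) (c * g) = lam ι V (algebraMap E M u) g := by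
  unfold lam
  refine Finset.sum_congr rfl fun t ht => ?_
  congr 2
  rw [mem_comF] at ht
  have h1 := hcen t⁻¹ (inv_mem ht) c⁻¹
  set κ := ⁅t⁻¹, c⁻¹⁆ with hκ
  have h2 : t * (c * g) = c * ((t * g) * (g⁻¹ * κ * g)) := by
    rw [hκ, commutatorElement_def]
    group
  have h3 : g⁻¹ * κ * g ∈ kerR E M := by
    have hn : (kerR E M).Normal := MonoidHom.normal_ker _
    have := hn.conj_mem κ h1 g⁻¹
    rwa [inv_inv] at this
  have h4 : (g⁻¹ * κ * g) (algebraMap E M u) = algebraMap E M u := by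
    rw [← res_apply, MonoidHom.mem_ker.1 h3]
    rfl
  have h5 : (t * (c * g)) (algebraMap E M u) = c ((t * g) (algebraMap E M u)) := by
    rw [h2]
    change c ((t * g) ((g⁻¹ * κ * g) (algebraMap E M u))) = _
    rw [h4]
  rw [h5, hc, RCLike.norm_conj]

section P8
variable {k k' E E' M : Type*} [Field k] [NumberField k] [Field k'] [NumberField k']
    [Field E] [NumberField E] [Field E'] [NumberField E'] [Field M] [NumberField M]
    [Algebra k E] [Algebra k' E'] [Algebra E M] [Algebra E' M]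
    [Algebra k M] [IsScalarTower k E M] [Algebra k' M] [IsScalarTower k' E' M]
    [IsGalois ℚ E] [IsGalois ℚ E'] [IsGalois ℚ M] [IsAbelianGalois k E] [IsAbelianGalois k' E']

/-- two imaginary quadratic fields -/
theorem lam_eq (hk : finrank ℚ k = 2) (hk' : finrank ℚ k' = 2) (hne : fixG k M ≠ fixG k' M)
    (hU : kerR E M ≤ commutator Gal(M/ℚ)) (hU' : kerR E' M ≤ commutator Gal(M/ℚ))
    (hmeet : kerR E M ⊔ kerR E' M ≠ commutator Gal(M/ℚ))
    (hcen : ∀ t ∈ commutator Gal(M/ℚ), ∀ g, ⁅t, g⁆ ∈ kerR E M)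
    (hcen' : ∀ t ∈ commutator Gal(M/ℚ), ∀ g, ⁅t, g⁆ ∈ kerR E' M)
    (hcard : Nat.card (kerR E M) = Nat.card (kerR E' M)) {f : ℕ} (hf : f ≠ 0)
    (hram : ∀ p : ℕ, p.Prime → (p : ℤ) ∣ discr M → p ∣ f)
    {ι : M →+* ℂ} {c : Gal(M/ℚ)} (hc : ∀ x, ι (c x) = starRingEnd ℂ (ι x))
    (hck : c ∉ fixG k M) (hck' : c ∉ fixG k' M)
    (hw : Units.torsionOrder E = Units.torsionOrder E') {η : E} {η' : E'}
    (hη : IsStarkUnit k (ι.comp (algebraMap E M)) f η)
    (hη' : IsStarkUnit k' (ι.comp (algebraMap E' M)) f η') (g : Gal(M/ℚ)) :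
    lam ι (kerR E M ⊔ kerR E' M) (algebraMap E M η) g =
      lam ι (kerR E M ⊔ kerR E' M) (algebraMap E' M η') g := by
  have hgk : IsGalois k M := IsGalois.tower_top_of_isGalois ℚ k M
  have hgk' : IsGalois k' M := IsGalois.tower_top_of_isGalois ℚ k' M
  have hi := fixG_index (F := k) (M := M) hk
  have hi' := fixG_index (F := k') (M := M) hk'
  have hC := comm_le_of_index_two hi
  have hC' := comm_le_of_index_two hi'
  have hb := fun n hn hnf g => bridge (k := k) (k' := k') (E := E) (E' := E') (M := M)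
    hk hk' hne hU hU' hmeet hcard hf hram n hn hnf g
  -- both sides vanish outside of the intersection
  have z1 : ∀ g, g ∈ fixG k M → g ∉ fixG k' M →
      lam ι (kerR E M ⊔ kerR E' M) (algebraMap E M η) g = 0 := fun g h1 h2 =>
    lam_eq_zero_of_ccnt hC _ hram hη h1 fun n hn hnf => (hb n hn hnf g).2 fun h => h2 h.2
  have z2 : ∀ g, g ∈ fixG k' M → g ∉ fixG k M →
      lam ι (kerR E M ⊔ kerR E' M) (algebraMap E' M η') g = 0 := fun g h1 h2 =>
    lam_eq_zero_of_ccnt hC' _ hram hη' h1 fun n hn hnf => by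
      rw [← (hb n hn hnf g).1]
      exact (hb n hn hnf g).2 fun h => h2 h.1
  have key : ∀ g, g ∈ fixG k M → g ∈ fixG k' M →
      lam ι (kerR E M ⊔ kerR E' M) (algebraMap E M η) g =
        lam ι (kerR E M ⊔ kerR E' M) (algebraMap E' M η') g := by
    intro g h1 h2
    have h3 := hasD_ccnt hC (kerR E M ⊔ kerR E' M) hram hη h1
    have h4 := hasD_ccnt hC' (kerR E M ⊔ kerR E' M) hram hη' h2
    have h5 := HasD.unique h3 h4 fun n hn => by
      by_cases hnf : n.Coprime f
      · rw [if_pos hnf, if_pos hnf, (hb n hn hnf g).1]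
      · rw [if_neg hnf, if_neg hnf]
    have h6 : -(2 / (Units.torsionOrder E : ℝ)) *
        lam ι (kerR E M ⊔ kerR E' M) (algebraMap E M η) g =
        -(2 / (Units.torsionOrder E' : ℝ)) *
          lam ι (kerR E M ⊔ kerR E' M) (algebraMap E' M η') g := by
      exact_mod_cast h5
    rw [← hw] at h6
    refine mul_left_cancel₀ ?_ h6
    have : (Units.torsionOrder E : ℝ) ≠ 0 := by
      exact_mod_cast Units.torsionOrder_ne_zero E
    exact neg_ne_zero.2 (div_ne_zero two_ne_zero this)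
  have m1 : c * g ∈ fixG k M ↔ g ∉ fixG k M := by
    rw [Subgroup.mul_mem_iff_of_index_two hi]
    tauto
  have m2 : c * g ∈ fixG k' M ↔ g ∉ fixG k' M := by
    rw [Subgroup.mul_mem_iff_of_index_two hi']
    tauto
  have c1 := lam_cc' hc (V := kerR E M ⊔ kerR E' M) hcen η g
  have c2 := lam_cc' hc (V := kerR E M ⊔ kerR E' M) hcen' η' g
  by_cases h1 : g ∈ fixG k M <;> by_cases h2 : g ∈ fixG k' M
  · exact key g h1 h2
  · rw [z1 g h1 h2, ← c2, z2 (c * g) (m2.2 h2) (fun h => m1.1 h h1)]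
  · rw [z2 g h2 h1, ← c1, z1 (c * g) (m1.2 h1) (fun h => m2.1 h h2)]
  · rw [← c1, ← c2]
    exact key (c * g) (m1.2 h1) (m2.2 h2)

/-- an imaginary quadratic field `k` and a real quadratic field `k'` -/
theorem lam_zero (hk : finrank ℚ k = 2) (hk' : finrank ℚ k' = 2) (hne : fixG k M ≠ fixG k' M)
    (hU : kerR E M ≤ commutator Gal(M/ℚ)) (hU' : kerR E' M ≤ commutator Gal(M/ℚ))
    (hmeet : kerR E M ⊔ kerR E' M ≠ commutator Gal(M/ℚ))
    (hcen : ∀ t ∈ commutator Gal(M/ℚ), ∀ g, ⁅t, g⁆ ∈ kerR E M)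
    (hcard : Nat.card (kerR E M) = Nat.card (kerR E' M)) {f : ℕ} (hf : f ≠ 0)
    (hram : ∀ p : ℕ, p.Prime → (p : ℤ) ∣ discr M → p ∣ f)
    {ι : M →+* ℂ} {c : Gal(M/ℚ)} (hc : ∀ x, ι (c x) = starRingEnd ℂ (ι x))
    (hck : c ∉ fixG k M) (hck' : c ∈ fixG k' M) {η : E}
    (hη : IsStarkUnit k (ι.comp (algebraMap E M)) f η) (g : Gal(M/ℚ)) (hg : g ∉ fixG k' M) :
    lam ι (kerR E M ⊔ kerR E' M) (algebraMap E M η) g = 0 := by
  have hgk : IsGalois k M := IsGalois.tower_top_of_isGalois ℚ k M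
  have hgk' : IsGalois k' M := IsGalois.tower_top_of_isGalois ℚ k' M
  have hi := fixG_index (F := k) (M := M) hk
  have hi' := fixG_index (F := k') (M := M) hk'
  have hC := comm_le_of_index_two hi
  have z1 : ∀ g, g ∈ fixG k M → g ∉ fixG k' M →
      lam ι (kerR E M ⊔ kerR E' M) (algebraMap E M η) g = 0 := fun g h1 h2 =>
    lam_eq_zero_of_ccnt hC _ hram hη h1 fun n hn hnf =>
      (bridge (k := k) (k' := k') (E := E) (E' := E') (M := M) hk hk' hne hU hU' hmeet hcard hf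
        hram n hn hnf g).2 fun h => h2 h.2
  by_cases h1 : g ∈ fixG k M
  · exact z1 g h1 hg
  · rw [← lam_cc' hc (V := kerR E M ⊔ kerR E' M) hcen η g]
    refine z1 _ ?_ ?_
    · rw [Subgroup.mul_mem_iff_of_index_two hi]
      tauto
    · rw [Subgroup.mul_mem_iff_of_index_two hi']
      tauto

/-- translation by an element of `C` -/
theorem lam_mul {ι : M →+* ℂ} {V : Subgroup Gal(M/ℚ)} [V.Normal]
    (hV : V.relIndex (commutator Gal(M/ℚ)) = 2) (hVC : V ≤ commutator Gal(M/ℚ)) (u : M)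
    (g : Gal(M/ℚ)) {s : Gal(M/ℚ)} (hs : s ∈ commutator Gal(M/ℚ)) :
    lam ι V u (g * s) = sgn V s * lam ι V u g := by
  have hn : (commutator Gal(M/ℚ)).Normal := inferInstance
  have hs' : g * s * g⁻¹ ∈ commutator Gal(M/ℚ) := hn.conj_mem s hs g
  unfold lam
  rw [Finset.mul_sum]
  refine Finset.sum_nbij' (fun t => t * (g * s * g⁻¹)) (fun t => t * (g * s * g⁻¹)⁻¹) ?_ ?_ ?_ ?_ ?_
  · intro t ht
    rw [mem_comF] at ht ⊢
    exact mul_mem ht hs'
  · intro t ht
    rw [mem_comF] at ht ⊢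
    exact mul_mem ht (inv_mem hs')
  · intro t _
    rw [mul_assoc, mul_inv_cancel, mul_one]
  · intro t _
    rw [mul_assoc, inv_mul_cancel, mul_one]
  · intro t ht
    rw [mem_comF] at ht
    rw [sgn_mul hV ht hs', sgn_conj]
    have e1 : t * (g * s) = t * (g * s * g⁻¹) * g := by group
    have e2 := sgn_sq V s
    have e3 : ((sgn V s : ℤ) : ℝ) * ((sgn V s : ℤ) : ℝ) = 1 := by exact_mod_cast e2
    rw [e1]
    push_cast
    linear_combination (-((sgn V t : ℤ) : ℝ) *
      Real.log ‖ι ((t * (g * s * g⁻¹) * g) u)‖) * e3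

/-- complex conjugation, `g ↦ c g` -/
theorem lam_cc {ι : M →+* ℂ} {c : Gal(M/ℚ)} (hc : ∀ x, ι (c x) = starRingEnd ℂ (ι x))
    {V : Subgroup Gal(M/ℚ)} (hcen : ∀ t ∈ commutator Gal(M/ℚ), ∀ g, ⁅t, g⁆ ∈ kerR E M) (u : E)
    (g : Gal(M/ℚ)) :
    lam ι V (algebraMap E M u) (c * g) = lam ι V (algebraMap E M u) g :=
  lam_cc' hc hcen u g
end P8

end Pool.Agent.StarkRQ.Rank3
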