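import Pool.Agent.StarkRQ.Rank3.Ident
import Pool.Agent.StarkRQ.Rank3.GFacts
import Pool.Agent.StarkRQ.Rank3.LamEq
import Pool.Agent.StarkRQ.Rank3.Beta

/-!
# Assembly: the element `Y`
-/

open NumberField Module
open scoped commutatorElement

namespace Pool.Agent.StarkRQ.Rank3

lemma comm_le_of_index_two {G : Type*} [Group G] {A : Subgroup G} (hA : A.index = 2) :
    commutator G ≤ A := by
  rw [commutator_eq_closure, Subgroup.closure_le]
  rintro _ ⟨g, h, rfl⟩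
  rw [SetLike.mem_coe, commutatorElement_def, Subgroup.mul_mem_iff_of_index_two hA,
    Subgroup.mul_mem_iff_of_index_two hA, Subgroup.mul_mem_iff_of_index_two hA,
    Subgroup.inv_mem_iff, Subgroup.inv_mem_iff]
  tauto

lemma sum_erase_some {R : Type*} [AddCommGroup R] (i : Fin 4) (F : Option (Fin 4) → R) :
    ∑ o ∈ Finset.univ.erase (some i), F o = ∑ j ∈ Finset.univ.erase i, F (some j) + F none := by
  have h1 := Finset.add_sum_erase Finset.univ F (Finset.mem_univ (some i))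
  have h2 := Finset.add_sum_erase Finset.univ (fun j => F (some j)) (Finset.mem_univ i)
  rw [Fintype.sum_option] at h1
  have h3 : F (some i) + ∑ o ∈ Finset.univ.erase (some i), F o =
      F (some i) + (∑ j ∈ Finset.univ.erase i, F (some j) + F none) := by
    rw [h1, ← h2]
    abel
  exact add_left_cancel h3

section
variable {M K N : Type} {k E : Fin 4 → Type} [Field M] [NumberField M] [IsGalois ℚ M]
    [Field K] [NumberField K] [Field N] [NumberField N] [IsGalois ℚ N] [∀ j, Field (k j)]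
    [∀ j, NumberField (k j)] [∀ j, Field (E j)] [∀ j, NumberField (E j)]
    [∀ j, IsGalois ℚ (E j)] [Algebra N M] [Algebra K M]
    [∀ j, Algebra (k j) (E j)] [∀ j, Algebra (E j) M] [∀ j, Algebra (k j) M]
    [∀ j, IsScalarTower (k j) (E j) M] [∀ j, IsAbelianGalois (k j) (E j)]

theorem exists_Y
    (hF : GFacts (fixG K M) (kerR N M) (fun i => fixG (k i) M) (fun i => kerR (E i) M))
    (hk : ∀ i, finrank ℚ (k i) = 2)
    (hneq : ∀ i j, i ≠ j → fixG (k i) M ≠ fixG (k j) M)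
    (hU₀ : kerR N M ≤ commutator Gal(M/ℚ)) (hU : ∀ j, kerR (E j) M ≤ commutator Gal(M/ℚ))
    (hmeet : ∀ i j, i ≠ j → kerR (E i) M ⊔ kerR (E j) M ≠ commutator Gal(M/ℚ))
    (hcard : ∀ j, Nat.card (kerR (E j) M) = Nat.card (kerR N M)) {f : ℕ} (hf : f ≠ 0)
    (hram : ∀ p : ℕ, p.Prime → (p : ℤ) ∣ discr M → p ∣ f)
    {ι : M →+* ℂ} {c : Gal(M/ℚ)} (hc : ∀ x, ι (c x) = starRingEnd ℂ (ι x))
    (hck : ∀ j, c ∉ fixG (k j) M)
    {w : ℕ} (hw : ∀ j, Units.torsionOrder (E j) = w) (η : ∀ j, (𝓞 (E j))ˣ)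
    (hη : ∀ j, IsStarkUnit (k j) (ι.comp (algebraMap (E j) M)) f (algebraMap (𝓞 (E j)) (E j) (η j)))
    {s : Fin 4 → Gal(M/ℚ)} (hsC : ∀ i, s i ∈ commutator Gal(M/ℚ))
    (hs0 : ∀ i j, s j ∉ kerR N M ⊔ kerR (E i) M)
    (hs : ∀ a b j, a ≠ b → (s j ∈ kerR (E a) M ⊔ kerR (E b) M ↔ j ≠ a ∧ j ≠ b)) :
    ∃ Y : M, Y ≠ 0 ∧ IsIntegral ℤ Y ∧ IsIntegral ℤ Y⁻¹ ∧
      (∀ t : Gal(M/ℚ), (∀ i, t ∈ kerR (E i) M) → t Y = Y) ∧
      ∀ g : Gal(M/ℚ), 4 * (Nat.card (kerR N M) : ℝ) * w * Real.log ‖ι (g Y)‖ =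
        ∑ i, lam ι (kerR N M ⊔ kerR (E i) M)
          (algebraMap (E i) M (algebraMap (𝓞 (E i)) (E i) (η i))) g := by
  classical
  have : ∀ i, IsGalois (k i) M := fun i => IsGalois.tower_top_of_isGalois ℚ (k i) M
  have hsk : ∀ i, s i ∈ fixG (k i) M := fun i =>
    comm_le_of_index_two (fixG_index (M := M) (hk i)) (hsC i)
  choose β hβr hβ0 hβi hβi' hβw using fun i => exists_beta (hη i) (hsC i) (hsk i)
  set u : Fin 4 → M := fun i => algebraMap (E i) M (algebraMap (𝓞 (E i)) (E i) (η i)) with hu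
  set m : ℝ := (Nat.card (kerR N M) : ℝ) with hm
  have hηne : ∀ i, algebraMap (𝓞 (E i)) (E i) (η i) ≠ 0 := fun i => (hη i).ne_zero
  have hle0 : ∀ i, kerR N M ⊔ kerR (E i) M ≤ commutator Gal(M/ℚ) := fun i => sup_le hU₀ (hU i)
  have hle : ∀ i j, kerR (E i) M ⊔ kerR (E j) M ≤ commutator Gal(M/ℚ) := fun i j =>
    sup_le (hU i) (hU j)
  -- the absolute values of `β i`
  have hb : ∀ i (g : Gal(M/ℚ)), 4 * m * w * Real.log ‖ι (g (β i))‖ =
      (∑ j ∈ Finset.univ.erase i, lam ι (kerR (E i) M ⊔ kerR (E j) M) (u i) g) +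
        lam ι (kerR N M ⊔ kerR (E i) M) (u i) g := by
    intro i g
    have hsi0 : s i ∉ kerR N M ⊔ kerR (E i) M := hs0 i i
    have hsij : ∀ j, j ≠ i → s i ∉ kerR (E i) M ⊔ kerR (E j) M := by
      intro j hj h
      exact ((hs i j i hj.symm).1 h).1 rfl
    have hcnt := hF.count i (s i) (hsC i) hsi0 hsij
    have h := log_beta (E := E i) (M := M) (I := Option (Fin 4)) (Finset.univ.erase (some i))
      (fun o => o.elim (kerR N M ⊔ kerR (E i) M) (fun j => kerR (E i) M ⊔ kerR (E j) M))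
      (hU i) (hsC i) (fun h => hsi0 (Subgroup.mem_sup_right h)) (hF.cen i) (by
        intro t ht
        rw [sum_erase_some]
        exact hcnt t ht) (hηne i) (hβw i) (ι := ι) g
    rw [sum_erase_some, hcard, hw] at h
    exact h
  -- the two forms
  have hsym : ∀ i j (g : Gal(M/ℚ)), i ≠ j → lam ι (kerR (E i) M ⊔ kerR (E j) M) (u i) g =
      lam ι (kerR (E j) M ⊔ kerR (E i) M) (u j) g := by
    intro i j g hij
    rw [sup_comm (kerR (E j) M)]
    exact lam_eq (hk i) (hk j) (hneq i j hij) (hU i) (hU j) (hmeet i j hij) (hF.cen i) (hF.cen j)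
      (by rw [hcard, hcard]) hf hram hc (hck i) (hck j) (by rw [hw, hw]) (hη i) (hη j) g
  have htr : ∀ i j l (g : Gal(M/ℚ)), i ≠ j → lam ι (kerR (E i) M ⊔ kerR (E j) M) (u i) (g * s l) =
      (if l = i ∨ l = j then -1 else 1) * lam ι (kerR (E i) M ⊔ kerR (E j) M) (u i) g := by
    intro i j l g hij
    rw [lam_mul (hF.rel i j hij) (hle i j) (u i) g (hsC l)]
    congr 1
    unfold sgn
    have h := hs i j l hij
    by_cases h1 : l = i ∨ l = j
    · rw [if_pos h1, if_neg (fun h2 => by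
        have := h.1 h2
        tauto)]
      norm_num
    · rw [if_neg h1, if_pos (h.2 (by tauto))]
      norm_num
  have htr0 : ∀ i l (g : Gal(M/ℚ)), lam ι (kerR N M ⊔ kerR (E i) M) (u i) (g * s l) =
      - lam ι (kerR N M ⊔ kerR (E i) M) (u i) g := by
    intro i l g
    rw [lam_mul (hF.rel0 i) (hle0 i) (u i) g (hsC l)]
    unfold sgn
    rw [if_neg (hs0 i l)]
    push_cast
    ring
  have hg0 : ∀ (g : Gal(M/ℚ)) {x : M}, x ≠ 0 → g x ≠ 0 := fun g x hx h =>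
    hx (g.injective (by rw [h, map_zero]))
  have hn0 : ∀ (g : Gal(M/ℚ)) {x : M}, x ≠ 0 → ‖ι (g x)‖ ≠ 0 := fun g x hx => by
    rw [norm_ne_zero_iff]
    exact fun h => hg0 g hx (ι.injective (by rw [h, map_zero]))
  have hmapint : ∀ (g : Gal(M/ℚ)) {x : M}, IsIntegral ℤ x → IsIntegral ℤ (g x) := by
    intro g x hx
    exact hx.map (g : M →ₐ[ℚ] M).toRingHom.toIntAlgHom
  refine ⟨β 2 / (s 3 (β 0) * s 0 (β 1) * s 1 (β 3)), ?_, ?_, ?_, ?_, ?_⟩
  · exact div_ne_zero (hβ0 2) (mul_ne_zero (mul_ne_zero (hg0 _ (hβ0 0)) (hg0 _ (hβ0 1)))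
      (hg0 _ (hβ0 3)))
  · rw [div_eq_mul_inv, mul_inv, mul_inv, ← map_inv₀, ← map_inv₀, ← map_inv₀]
    exact (hβi 2).mul (((hmapint _ (hβi' 0)).mul (hmapint _ (hβi' 1))).mul (hmapint _ (hβi' 3)))
  · rw [inv_div, div_eq_mul_inv]
    exact (((hmapint _ (hβi 0)).mul (hmapint _ (hβi 1))).mul (hmapint _ (hβi 3))).mul (hβi' 2)
  · intro t ht
    have h1 : ∀ i, t (β i) = β i := by
      intro i
      obtain ⟨x, hx⟩ := hβr i
      rw [← hx, ← res_apply, MonoidHom.mem_ker.1 (ht i)]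
      rfl
    have h2 : ∀ i (g : Gal(M/ℚ)), t (g (β i)) = g (β i) := by
      intro i g
      obtain ⟨x, hx⟩ := hβr i
      rw [← hx, ← res_apply, ← res_apply, MonoidHom.mem_ker.1 (ht i)]
      rfl
    rw [map_div₀, map_mul, map_mul, h1, h2, h2, h2]
  · intro g
    have e1 : Real.log ‖ι (g (β 2 / (s 3 (β 0) * s 0 (β 1) * s 1 (β 3))))‖ =
        Real.log ‖ι (g (β 2))‖ - Real.log ‖ι ((g * s 3) (β 0))‖ -
          Real.log ‖ι ((g * s 0) (β 1))‖ - Real.log ‖ι ((g * s 1) (β 3))‖ := by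
      have n2 := hn0 g (hβ0 2)
      have n0 := hn0 (g * s 3) (hβ0 0)
      have n1 := hn0 (g * s 0) (hβ0 1)
      have n3 := hn0 (g * s 1) (hβ0 3)
      rw [AlgEquiv.mul_apply] at n0 n1 n3
      rw [AlgEquiv.mul_apply, AlgEquiv.mul_apply, AlgEquiv.mul_apply, map_div₀, map_mul, map_mul,
        map_div₀, map_mul, map_mul, norm_div, norm_mul, norm_mul,
        Real.log_div n2 (mul_ne_zero (mul_ne_zero n0 n1) n3), Real.log_mul (mul_ne_zero n0 n1) n3,
        Real.log_mul n0 n1]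
      ring
    rw [e1]
    exact ident (G := Gal(M/ℚ)) (lb := fun i g => Real.log ‖ι (g (β i))‖)
      (L0 := fun i g => lam ι (kerR N M ⊔ kerR (E i) M) (u i) g)
      (L := fun i j g => lam ι (kerR (E i) M ⊔ kerR (E j) M) (u i) g) (s := s)
      (A := 4 * m * w) hb hsym htr htr0 g

end

end Pool.Agent.StarkRQ.Rank3
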