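import Pool.Agent.StarkRQ.Rank3.LamEq

/-!
# The zeta functions of `H/K`

`C = commutator Gal(M/ℚ)`, `U₀ = kerR N M`, `m` its order, `V j = U₀ ⊔ kerR (E j) M`.
`hside_coeff`: for `n` not prime to `f` both sides are `0`. By `zcoeff_restrict`
(StarkRQ/Restrict.lean) and `zcoeff_eq_cnt`, `zcoeff f σ n` is the sum of
`cnt K N n (toG K N a)` over `a ∈ T`, and `zcoeff f (R σ) n` is the sum of `cnt K N n (toG K N (sN * a))`
(bijection `a ↦ sN * a`), see `zcoeff_klein` in StarkRQ/KleinCoeff.lean. For `g = lift a`,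
`∑_j ccnt K N M (V j) n g = ∑_{t ∈ C} (∑_j sgn (V j) t) cnt K N n (res N M (t g))
= 4 m (cnt K N n (res N M g) - cnt K N n (res N M (s g)))` by `hcount` (for `t ∈ U₀`:
`res N M (t g) = res N M g`; for `t ∈ s U₀` it is `res N M (s g)`; the two cosets are disjoint by
`hsU`). Finally `ccnt K N M (V j) n g = ccnt (k j) (E j) M (V j) n g` by `bridge`.

`hside`: by `HasD.sum`, `hasD_cnt`, `hasD_zcoeff` and `HasD.unique`, with `D` the left side,
`4 m D = ∑_{a ∈ T} ∑_j [lift a ∈ fixG (k j) M] (-(2 / w)) lam (V j) (u j) (lift a)` (for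
`t ∈ C ≤ fixG (k j) M`: `t g ∈ fixG (k j) M` iff `g ∈ fixG (k j) M`). For fixed `j` put
`F a = lam (V j) (u j) (lift a)`. It does not depend on the choice of `lift a` (`lam_mul` for `s ∈ U₀`),
so `F (cK a) = F a` by `lam_cc`, where `toG K N cK = res N M c`; `T` is stable under `a ↦ cK a` (`hcH`),
and exactly one of `lift a`, `lift (cK a)` is in `fixG (k j) M` (it has index `2` and contains
`kerR N M ≤ C`). So the sum over the `a ∈ T` with `lift a ∈ fixG (k j) M` is half of the sum over `T`, and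
`4 m D = -(1 / w) ∑_{a ∈ T} ∑_j F a`.
-/

open NumberField Module
open scoped commutatorElement

namespace Pool.Agent.StarkRQ.Rank3

private lemma HSide_comm_le {G : Type*} [Group G] {A : Subgroup G} (hA : A.index = 2) :
    commutator G ≤ A := by
  have : A.Normal := Subgroup.normal_of_index_eq_two hA
  rw [commutator_def, Subgroup.commutator_le]
  intro g₁ _ g₂ _
  rw [commutatorElement_def, Subgroup.mul_mem_iff_of_index_two hA,
    Subgroup.mul_mem_iff_of_index_two hA, Subgroup.mul_mem_iff_of_index_two hA, inv_mem_iff,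
    inv_mem_iff]
  tauto

/-- the weighted sum over the commutator subgroup -/
private lemma HSide_count {G : Type*} [Group G] [Fintype G] {U : Subgroup G}
    (hU : U ≤ commutator G) {s : G} (hs : s ∈ commutator G) (hsU : s ∉ U) (w c : G → ℤ)
    (h1 : ∀ t ∈ commutator G, t ∈ U → w t = 4) (h2 : ∀ t ∈ commutator G, s⁻¹ * t ∈ U → w t = -4)
    (h3 : ∀ t ∈ commutator G, t ∉ U → s⁻¹ * t ∉ U → w t = 0) (hc1 : ∀ t ∈ U, c t = c 1)
    (hc2 : ∀ t, s⁻¹ * t ∈ U → c t = c s) :
    ∑ t ∈ comF G, w t * c t = 4 * (Nat.card U : ℤ) * (c 1 - c s) := by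
  classical
  have hterm : ∀ t ∈ comF G, w t * c t =
      (if t ∈ U then 4 * c 1 else 0) + (if s⁻¹ * t ∈ U then -4 * c s else 0) := by
    intro t ht
    rw [mem_comF] at ht
    by_cases ha : t ∈ U
    · have hb : s⁻¹ * t ∉ U := by
        intro hb
        apply hsU
        have := U.mul_mem ha (U.inv_mem hb)
        simpa using this
      rw [if_pos ha, if_neg hb, h1 t ht ha, hc1 t ha, add_zero]
    · by_cases hb : s⁻¹ * t ∈ U
      · rw [if_neg ha, if_pos hb, h2 t ht hb, hc2 t hb, zero_add]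
      · rw [if_neg ha, if_neg hb, h3 t ht ha hb, zero_mul, add_zero]
  rw [Finset.sum_congr rfl hterm, Finset.sum_add_distrib, ← Finset.sum_filter, ← Finset.sum_filter,
    Finset.sum_const, Finset.sum_const]
  have e1 : ((comF G).filter fun t => t ∈ U).card = Nat.card U := by
    symm
    refine Nat.subtype_card _ fun t => ?_
    rw [Finset.mem_filter, mem_comF]
    exact ⟨fun h => h.2, fun h => ⟨hU h, h⟩⟩
  have e2 : ((comF G).filter fun t => s⁻¹ * t ∈ U).card =
      ((comF G).filter fun t => t ∈ U).card := by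
    refine Finset.card_nbij' (fun t => s⁻¹ * t) (fun t => s * t) ?_ ?_ ?_ ?_
    · intro t ht
      rw [Finset.mem_coe, Finset.mem_filter, mem_comF] at ht ⊢
      exact ⟨Subgroup.mul_mem _ (Subgroup.inv_mem _ hs) ht.1, ht.2⟩
    · intro t ht
      rw [Finset.mem_coe, Finset.mem_filter, mem_comF] at ht ⊢
      refine ⟨Subgroup.mul_mem _ hs ht.1, ?_⟩
      rw [inv_mul_cancel_left]
      exact ht.2
    · intro t _
      exact mul_inv_cancel_left _ _
    · intro t _
      exact inv_mul_cancel_left _ _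
  rw [e2, e1]
  simp only [nsmul_eq_mul]
  ring

/-- translation by an element of `V` -/
private lemma HSide_lam_mul {M : Type*} [Field M] [NumberField M] {ι : M →+* ℂ}
    {V : Subgroup Gal(M/ℚ)} [hV : V.Normal] (hVC : V ≤ commutator Gal(M/ℚ)) (u : M)
    (g : Gal(M/ℚ)) {s : Gal(M/ℚ)} (hs : s ∈ V) : lam ι V u (g * s) = lam ι V u g := by
  unfold lam
  have hv : g * s * g⁻¹ ∈ V := hV.conj_mem s hs g
  refine Finset.sum_bij' (fun t _ => t * (g * s * g⁻¹)) (fun t _ => t * (g * s * g⁻¹)⁻¹) ?_ ?_ ?_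
    ?_ ?_
  · intro t ht
    rw [mem_comF] at ht ⊢
    exact Subgroup.mul_mem _ ht (hVC hv)
  · intro t ht
    rw [mem_comF] at ht ⊢
    exact Subgroup.mul_mem _ ht (Subgroup.inv_mem _ (hVC hv))
  · intro t _
    exact mul_inv_cancel_right _ _
  · intro t _
    exact inv_mul_cancel_right _ _
  · intro t _
    have e1 : sgn V (t * (g * s * g⁻¹)) = sgn V t := by
      unfold sgn
      rw [V.mul_mem_cancel_right hv]
    have e2 : t * (g * s) = t * (g * s * g⁻¹) * g := by group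
    rw [e1, e2]

/-- sums over one half of a set with an involution -/
private lemma HSide_half {I : Type*} (T : Finset I) (φ : I → I) (hφ : ∀ a, φ (φ a) = a)
    (hT : ∀ a ∈ T, φ a ∈ T) (p : I → Prop) [DecidablePred p] (h : ∀ a, p (φ a) ↔ ¬ p a)
    (g : I → ℝ) (hg : ∀ a, g (φ a) = g a) : 2 * ∑ a ∈ T.filter p, g a = ∑ a ∈ T, g a := by
  classical
  rw [← Finset.sum_filter_add_sum_filter_not T p, two_mul]
  congr 1
  refine sum_filter_half T φ hφ hT p (fun a => ¬ p a) h (fun a => ?_) g hg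
  rw [h]

section P11
variable {M K N H : Type} {k E : Fin 4 → Type} [Field M] [NumberField M] [Field K] [NumberField K]
    [Field N] [NumberField N] [Field H] [NumberField H] [∀ j, Field (k j)]
    [∀ j, NumberField (k j)] [∀ j, Field (E j)] [∀ j, NumberField (E j)] [IsGalois ℚ M]
    [IsGalois ℚ N] [∀ j, IsGalois ℚ (E j)] [Algebra K N] [Algebra N M] [Algebra K M]
    [IsScalarTower K N M] [Algebra K H] [Algebra H N] [IsScalarTower K H N]
    [∀ j, Algebra (k j) (E j)] [∀ j, Algebra (E j) M] [∀ j, Algebra (k j) M]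
    [∀ j, IsScalarTower (k j) (E j) M] [IsAbelianGalois K N] [∀ j, IsAbelianGalois (k j) (E j)]

theorem hside_coeff (hK : finrank ℚ K = 2) (hk : ∀ j, finrank ℚ (k j) = 2)
    (hne : ∀ j, fixG K M ≠ fixG (k j) M)
    (hU₀ : kerR N M ≤ commutator Gal(M/ℚ)) (hU : ∀ j, kerR (E j) M ≤ commutator Gal(M/ℚ))
    (hmeet : ∀ j, kerR N M ⊔ kerR (E j) M ≠ commutator Gal(M/ℚ))
    (hcard : ∀ j, Nat.card (kerR N M) = Nat.card (kerR (E j) M)) {f : ℕ} (hf : f ≠ 0)
    (hram : ∀ p : ℕ, p.Prime → (p : ℤ) ∣ discr M → p ∣ f)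
    {s : Gal(M/ℚ)} (hs : s ∈ commutator Gal(M/ℚ)) (hsU : s ∉ kerR N M)
    (hcount : ∀ t ∈ commutator Gal(M/ℚ),
      (t ∈ kerR N M → ∑ j, sgn (kerR N M ⊔ kerR (E j) M) t = 4) ∧
      (s⁻¹ * t ∈ kerR N M → ∑ j, sgn (kerR N M ⊔ kerR (E j) M) t = -4) ∧
      (t ∉ kerR N M → s⁻¹ * t ∉ kerR N M → ∑ j, sgn (kerR N M ⊔ kerR (E j) M) t = 0))
    {sN : Gal(N/K)} (hsN : toG K N sN = res N M s)
    (lift : Gal(N/K) → Gal(M/ℚ)) (hlift : ∀ a, res N M (lift a) = toG K N a) [Normal K H]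
    (σ : Gal(H/K)) (T : Finset Gal(N/K)) (hT : ∀ a, a ∈ T ↔ AlgEquiv.restrictNormalHom H a = σ)
    (n : ℕ) (hn : n ≠ 0) :
    4 * (Nat.card (kerR N M) : ℤ) *
        ((zcoeff f σ n : ℤ) - zcoeff f (AlgEquiv.restrictNormalHom H sN * σ) n) =
      if n.Coprime f then
        ∑ a ∈ T, ∑ j, ccnt (k j) (E j) M (kerR N M ⊔ kerR (E j) M) n (lift a) else 0 := by
  classical
  by_cases hco : n.Coprime f
  swap
  · rw [if_neg hco]
    simp [zcoeff, hco]
  rw [if_pos hco]
  have : IsAbelianGalois K H := IsAbelianGalois.tower_bot K H N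
  have hA : ∀ σ τ : Gal(N/K), σ * τ = τ * σ := fun σ τ => mul_comm' σ τ
  have hramN : ∀ p : ℕ, p.Prime → (p : ℤ) ∣ discr N → p ∣ f := fun p hp h =>
    hram p hp (h.trans (discr_dvd_discr N M))
  have hT' : T = Finset.univ.filter fun a : Gal(N/K) => AlgEquiv.restrictNormalHom H a = σ := by
    ext a
    rw [hT]
    simp
  -- the sums over the lifts
  have hsum : ∀ (ρ : Gal(H/K)), (zcoeff f ρ n : ℤ) =
      ∑ a ∈ Finset.univ.filter (fun a : Gal(N/K) => AlgEquiv.restrictNormalHom H a = ρ),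
        (cnt K N n (toG K N a) : ℤ) := by
    intro ρ
    rw [zcoeff_restrict (M := N) hA hramN _ n hn, finsum_eq_sum_of_fintype]
    push_cast
    symm
    rw [← Finset.sum_subtype (Finset.univ.filter fun a : Gal(N/K) =>
      AlgEquiv.restrictNormalHom H a = ρ) (by simp) (fun a => (zcoeff f a n : ℤ))]
    refine Finset.sum_congr rfl fun a _ => ?_
    rw [zcoeff_eq_cnt hA hramN hn hco]
  have hz2 : (∑ a ∈ Finset.univ.filter (fun a : Gal(N/K) => AlgEquiv.restrictNormalHom H a =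
      AlgEquiv.restrictNormalHom H sN * σ), (cnt K N n (toG K N a) : ℤ)) =
      ∑ a ∈ T, (cnt K N n (toG K N (sN * a)) : ℤ) := by
    symm
    refine Finset.sum_bij (fun a _ => sN * a) ?_ ?_ ?_ ?_
    · intro a ha
      rw [hT] at ha
      simp only [Finset.mem_filter, Finset.mem_univ, true_and]
      rw [map_mul, ha]
    · intro a _ b _ h
      exact mul_left_cancel h
    · intro a ha
      simp only [Finset.mem_filter, Finset.mem_univ, true_and] at ha
      refine ⟨sN⁻¹ * a, ?_, mul_inv_cancel_left _ _⟩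
      rw [hT, map_mul, map_inv, ha, inv_mul_cancel_left]
    · intro a _
      rfl
  rw [hsum, hsum, hz2, ← hT', ← Finset.sum_sub_distrib, Finset.mul_sum]
  refine Finset.sum_congr rfl fun a _ => ?_
  have hb : ∀ j, ccnt (k j) (E j) M (kerR N M ⊔ kerR (E j) M) n (lift a) =
      ccnt K N M (kerR N M ⊔ kerR (E j) M) n (lift a) := fun j =>
    (bridge hK (hk j) (hne j) hU₀ (hU j) (hmeet j) (hcard j) hf hram n hn hco (lift a)).1.symm
  rw [Finset.sum_congr rfl fun j _ => hb j]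
  unfold ccnt
  rw [Finset.sum_comm]
  rw [Finset.sum_congr rfl fun t _ => (Finset.sum_mul Finset.univ
    (fun j => sgn (kerR N M ⊔ kerR (E j) M) t) (cnt K N n (res N M (t * lift a)) : ℤ)).symm]
  have hres : ∀ t, t ∈ kerR N M ↔ res N M t = 1 := fun t => MonoidHom.mem_ker
  rw [HSide_count hU₀ hs hsU (fun t => ∑ j, sgn (kerR N M ⊔ kerR (E j) M) t)
    (fun t => (cnt K N n (res N M (t * lift a)) : ℤ)) (fun t ht => (hcount t ht).1)
    (fun t ht => (hcount t ht).2.1) (fun t ht => (hcount t ht).2.2)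
    (fun t ht => by
      simp only [map_mul]
      rw [(hres t).1 ht, map_one])
    (fun t ht => by
      rw [hres, map_mul, map_inv, inv_mul_eq_one] at ht
      simp only [map_mul]
      rw [ht])]
  simp only [one_mul, map_mul]
  rw [hlift, hsN]


theorem hside (hK : finrank ℚ K = 2) (hk : ∀ j, finrank ℚ (k j) = 2)
    (hne : ∀ j, fixG K M ≠ fixG (k j) M)
    (hU₀ : kerR N M ≤ commutator Gal(M/ℚ)) (hU : ∀ j, kerR (E j) M ≤ commutator Gal(M/ℚ))
    (hmeet : ∀ j, kerR N M ⊔ kerR (E j) M ≠ commutator Gal(M/ℚ))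
    (hcard : ∀ j, Nat.card (kerR N M) = Nat.card (kerR (E j) M)) {f : ℕ} (hf : f ≠ 0)
    (hram : ∀ p : ℕ, p.Prime → (p : ℤ) ∣ discr M → p ∣ f)
    {s : Gal(M/ℚ)} (hs : s ∈ commutator Gal(M/ℚ)) (hsU : s ∉ kerR N M)
    (hcount : ∀ t ∈ commutator Gal(M/ℚ),
      (t ∈ kerR N M → ∑ j, sgn (kerR N M ⊔ kerR (E j) M) t = 4) ∧
      (s⁻¹ * t ∈ kerR N M → ∑ j, sgn (kerR N M ⊔ kerR (E j) M) t = -4) ∧
      (t ∉ kerR N M → s⁻¹ * t ∉ kerR N M → ∑ j, sgn (kerR N M ⊔ kerR (E j) M) t = 0))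
    (hcen₀ : ∀ t ∈ commutator Gal(M/ℚ), ∀ g, ⁅t, g⁆ ∈ kerR N M)
    (hcen : ∀ j, ∀ t ∈ commutator Gal(M/ℚ), ∀ g, ⁅t, g⁆ ∈ kerR (E j) M)
    {sN : Gal(N/K)} (hsN : toG K N sN = res N M s)
    (lift : Gal(N/K) → Gal(M/ℚ)) (hlift : ∀ a, res N M (lift a) = toG K N a) [Normal K H]
    {ι : M →+* ℂ} {c : Gal(M/ℚ)} (hc : ∀ x, ι (c x) = starRingEnd ℂ (ι x))
    (hck : ∀ j, c ∉ fixG (k j) M) (hcK : c ∈ fixG K M)
    (hcH : ∀ y : H, c (algebraMap N M (algebraMap H N y)) = algebraMap N M (algebraMap H N y))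
    {w : ℕ} (hw : ∀ j, Units.torsionOrder (E j) = w) {η : ∀ j, E j}
    (hη : ∀ j, IsStarkUnit (k j) (ι.comp (algebraMap (E j) M)) f (η j))
    (G : Gal(H/K) → ℂ → ℂ) (hG : ∀ σ, IsPartialZeta f σ (G σ)) (σ : Gal(H/K)) :
    deriv (G σ) 0 - deriv (G (AlgEquiv.restrictNormalHom H sN * σ)) 0 =
      ((-∑ᶠ a : {a : Gal(N/K) // AlgEquiv.restrictNormalHom H a = σ},
        (∑ j, lam ι (kerR N M ⊔ kerR (E j) M) (algebraMap (E j) M (η j)) (lift a)) /
          (4 * (Nat.card (kerR N M) : ℝ) * w) : ℝ) : ℂ) := by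
  classical
  have hw0 : ∀ j, (w : ℝ) ≠ 0 := fun j => by
    have := Units.torsionOrder_ne_zero (E j)
    rw [hw j] at this
    exact_mod_cast this
  have hw0' : (w : ℝ) ≠ 0 := hw0 0
  have hA : ∀ σ τ : Gal(N/K), σ * τ = τ * σ := fun σ τ => mul_comm' σ τ
  set V : Fin 4 → Subgroup Gal(M/ℚ) := fun j => kerR N M ⊔ kerR (E j) M with hVdef
  set m : ℕ := Nat.card (kerR N M) with hm
  have hm0 : (m : ℝ) ≠ 0 := by
    have : m ≠ 0 := Nat.card_pos.ne'
    exact_mod_cast this
  set u : Fin 4 → M := fun j => algebraMap (E j) M (η j) with hu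
  set T : Finset Gal(N/K) :=
    Finset.univ.filter fun a : Gal(N/K) => AlgEquiv.restrictNormalHom H a = σ with hTdef
  have hT : ∀ a, a ∈ T ↔ AlgEquiv.restrictNormalHom H a = σ := fun a => by simp [hTdef]
  have hidx : ∀ j, (fixG (k j) M).index = 2 := fun j => by
    have : IsGalois (k j) M := IsGalois.tower_top_of_isGalois ℚ (k j) M
    exact fixG_index (hk j)
  have hCfix : ∀ j, commutator Gal(M/ℚ) ≤ fixG (k j) M := fun j => HSide_comm_le (hidx j)
  -- the two sides
  have hL := HasD.sum (Finset.univ : Finset (Fin 2)) ![4 * (m : ℂ), -(4 * (m : ℂ))]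
    (a := ![fun n => (zcoeff f σ n : ℂ),
      fun n => (zcoeff f (AlgEquiv.restrictNormalHom H sN * σ) n : ℂ)])
    (v := ![deriv (G σ) 0, deriv (G (AlgEquiv.restrictNormalHom H sN * σ)) 0]) (by
      intro j _
      fin_cases j
      · exact hasD_zcoeff (hG σ)
      · exact hasD_zcoeff (hG _))
  have hR := HasD.sum ((T ×ˢ (Finset.univ : Finset (Fin 4))) ×ˢ comF Gal(M/ℚ))
    (fun x => ((sgn (V x.1.2) x.2 : ℤ) : ℂ))
    (a := fun x n => if n.Coprime f then
      (cnt (k x.1.2) (E x.1.2) n (res (E x.1.2) M (x.2 * lift x.1.1)) : ℂ) else 0)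
    (v := fun x => if x.2 * lift x.1.1 ∈ fixG (k x.1.2) M then
        ((-(2 / (Units.torsionOrder (E x.1.2) : ℝ)) *
          Real.log ‖ι ((x.2 * lift x.1.1) (algebraMap (E x.1.2) M (η x.1.2)))‖ : ℝ) : ℂ)
        else 0)
    (fun x _ => hasD_cnt hram (hη x.1.2) (x.2 * lift x.1.1))
  have hLR := HasD.unique hL hR (by
    intro n hn
    have h1 := hside_coeff hK hk hne hU₀ hU hmeet hcard hf hram hs hsU hcount hsN lift hlift σ T
      hT n hn
    have h2 := congrArg (fun z : ℤ => (z : ℂ)) h1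
    rw [Fin.sum_univ_two]
    simp only [Matrix.cons_val_zero, Matrix.cons_val_one]
    rw [Finset.sum_product, Finset.sum_product]
    push_cast at h2
    have h3 : 4 * (m : ℂ) * (zcoeff f σ n : ℂ) + -(4 * (m : ℂ)) *
        (zcoeff f (AlgEquiv.restrictNormalHom H sN * σ) n : ℂ) =
        4 * (m : ℂ) * ((zcoeff f σ n : ℂ) -
          (zcoeff f (AlgEquiv.restrictNormalHom H sN * σ) n : ℂ)) := by ring
    rw [h3, h2]
    split_ifs with hco
    · refine Finset.sum_congr rfl fun a _ => Finset.sum_congr rfl fun j _ => ?_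
      unfold ccnt
      push_cast
      rfl
    · simp)
  rw [Fin.sum_univ_two, Finset.sum_product, Finset.sum_product] at hLR
  simp only [Matrix.cons_val_zero, Matrix.cons_val_one] at hLR
  -- the inner sums
  have hin : ∀ a j, ∑ t ∈ comF Gal(M/ℚ), ((sgn (V j) t : ℤ) : ℂ) *
      (if t * lift a ∈ fixG (k j) M then
        ((-(2 / (Units.torsionOrder (E j) : ℝ)) *
          Real.log ‖ι ((t * lift a) (algebraMap (E j) M (η j)))‖ : ℝ) : ℂ) else 0) =
      (((if lift a ∈ fixG (k j) M then -(2 / (w : ℝ)) * lam ι (V j) (u j) (lift a) else 0) : ℝ) :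
        ℂ) := by
    intro a j
    by_cases hp : lift a ∈ fixG (k j) M
    · rw [if_pos hp]
      unfold lam
      rw [Finset.mul_sum]
      push_cast
      refine Finset.sum_congr rfl fun t ht => ?_
      rw [if_pos ((Subgroup.mul_mem_cancel_left _ (hCfix j (mem_comF.1 ht))).2 hp), hw j]
      push_cast
      ring
    · rw [if_neg hp]
      push_cast
      refine Finset.sum_eq_zero fun t ht => ?_
      rw [if_neg, mul_zero]
      rw [Subgroup.mul_mem_cancel_left _ (hCfix j (mem_comF.1 ht))]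
      exact hp
  -- complex conjugation
  have hcc : c * c = 1 := by
    ext x
    apply ι.injective
    change ι (c (c x)) = ι x
    rw [hc, hc, Complex.conj_conj]
  obtain ⟨cK, hcK'⟩ : res N M c ∈ fixG K N := (mem_fixG_iff_res c).1 hcK
  have hcKcK : cK * cK = 1 := toG_injective (by rw [map_mul, hcK', ← map_mul, hcc, map_one, map_one])
  have hcKH : AlgEquiv.restrictNormalHom H cK = 1 := by
    ext y
    apply (algebraMap H N).injective
    have h1 : algebraMap H N (AlgEquiv.restrictNormalHom H cK y) = cK (algebraMap H N y) :=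
      AlgEquiv.restrictNormal_commutes cK H y
    rw [h1]
    apply (algebraMap N M).injective
    have h2 : cK (algebraMap H N y) = res N M c (algebraMap H N y) := by
      rw [← hcK']
      rfl
    rw [h2, res_apply, hcH]
    rfl
  have hliftc : ∀ a, ∃ v ∈ kerR N M, lift (cK * a) = c * lift a * v := by
    intro a
    refine ⟨(c * lift a)⁻¹ * lift (cK * a), ?_, by group⟩
    rw [MonoidHom.mem_ker, map_mul, map_inv, hlift, map_mul, map_mul, hlift, hcK']
    group
  have hVC : ∀ j, V j ≤ commutator Gal(M/ℚ) := fun j => sup_le hU₀ (hU j)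
  have hVn : ∀ j, (V j).Normal := fun j => Subgroup.sup_normal _ _
  have hF : ∀ j a, lam ι (V j) (u j) (lift (cK * a)) = lam ι (V j) (u j) (lift a) := by
    intro j a
    obtain ⟨v, hv, hva⟩ := hliftc a
    rw [hva, HSide_lam_mul (hV := hVn j) (hVC j) _ _ ((le_sup_left : kerR N M ≤ V j) hv)]
    exact lam_cc hc (hcen j) (η j) (lift a)
  have hhalf : ∀ j, 2 * ∑ a ∈ T.filter (fun a => lift a ∈ fixG (k j) M),
      lam ι (V j) (u j) (lift a) = ∑ a ∈ T, lam ι (V j) (u j) (lift a) := by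
    intro j
    refine HSide_half T (fun a => cK * a) (fun a => ?_) (fun a ha => ?_) _ (fun a => ?_) _
      (fun a => hF j a)
    · rw [← mul_assoc, hcKcK, one_mul]
    · rw [hT] at ha ⊢
      rw [map_mul, hcKH, one_mul, ha]
    · obtain ⟨v, hv, hva⟩ := hliftc a
      rw [hva, Subgroup.mul_mem_cancel_right _ (hCfix j (hU₀ hv)),
        Subgroup.mul_mem_iff_of_index_two (hidx j)]
      have := hck j
      tauto
  rw [Finset.sum_congr rfl fun a _ => Finset.sum_congr rfl fun j _ => hin a j] at hLR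
  have hfin : (∑ᶠ a : {a : Gal(N/K) // AlgEquiv.restrictNormalHom H a = σ},
        (∑ j, lam ι (V j) (u j) (lift a)) / (4 * (m : ℝ) * w)) =
      ∑ a ∈ T, (∑ j, lam ι (V j) (u j) (lift a)) / (4 * (m : ℝ) * w) := by
    rw [finsum_eq_sum_of_fintype]
    symm
    exact Finset.sum_subtype T hT
      (fun a => (∑ j, lam ι (V j) (u j) (lift a)) / (4 * (m : ℝ) * w))
  rw [hfin]
  have hreal : ∑ a ∈ T, ∑ j, (if lift a ∈ fixG (k j) M then
      -(2 / (w : ℝ)) * lam ι (V j) (u j) (lift a) else 0) =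
      -(1 / (w : ℝ)) * ∑ a ∈ T, ∑ j, lam ι (V j) (u j) (lift a) := by
    rw [Finset.sum_comm, Finset.sum_comm (s := T), Finset.mul_sum]
    refine Finset.sum_congr rfl fun j _ => ?_
    rw [← hhalf j, ← Finset.sum_filter, ← Finset.mul_sum]
    ring
  have hLR' : 4 * (m : ℂ) * (deriv (G σ) 0 -
      deriv (G (AlgEquiv.restrictNormalHom H sN * σ)) 0) =
      ((-(1 / (w : ℝ)) * ∑ a ∈ T, ∑ j, lam ι (V j) (u j) (lift a) : ℝ) : ℂ) := by
    rw [← hreal]
    push_cast at hLR ⊢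
    rw [← hLR]
    ring
  have hmc : (4 * (m : ℂ)) ≠ 0 := by
    have : (m : ℂ) ≠ 0 := by exact_mod_cast hm0
    exact mul_ne_zero (by norm_num) this
  apply mul_left_cancel₀ hmc
  rw [hLR', ← Finset.sum_div]
  have hwc : (w : ℂ) ≠ 0 := by exact_mod_cast hw0'
  have hmc' : (m : ℂ) ≠ 0 := by exact_mod_cast hm0
  push_cast
  field_simp

end P11

end Pool.Agent.StarkRQ.Rank3
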