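import Pool.Agent.StarkRQ.Rank3.Defs
import Pool.Agent.StarkRQ.Galois

/-!
# Elements all of whose absolute values are one

`exists_root_of_unity`: Kronecker (`NumberField.Embeddings.pow_eq_one_of_norm_eq_one`); every
embedding is `x ↦ ι (γ x)` (`exists_comp` in StarkRQ/Galois.lean).

`exists_h`: for `t ∈ U` the quotient `t Y / Y` is integral with all absolute values `1`, so it is a
root of unity `ξ`; `t ξ = ξ`, so `Y = t (t Y) = ξ ^ 2 Y` and `ξ ^ 2 = 1`, `τ ξ = ξ`. So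
`u = Y * τ Y` satisfies `t u = t Y * τ (t Y) = ξ ^ 2 u = u`. Similarly `c Y = v Y` with a root of unity
`v`, and `c (τ Y) = τ (c Y) = τ v * τ Y = v ^ n * τ Y`, where `τ` acts on roots of unity as the
`n`-th power, `n` odd (`exists_pow_action` in StarkRQ/Branch2.lean). So `c u = v ^ (1 + n) u`.
Put `h = v ^ ((1 + n) / 2) u`. `c v = v⁻¹` (`‖ι v‖ = 1`), so `c h = h`. `τ u = u` (`τ * τ = 1`), so
`τ h = v ^ (n (1 + n) / 2) u = v ^ ((n ^ 2 - 1) / 2) h`, and `v ^ (n ^ 2 - 1) = 1` as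
`τ (τ v) = v`; so `τ h = h` or `τ h = -h`. `‖ι (g h)‖ = ‖ι (g u)‖` as `‖ι (g v)‖ = 1`.
-/

open NumberField Module
open scoped commutatorElement

namespace Pool.Agent.StarkRQ.Rank3

theorem exists_root_of_unity {M : Type*} [Field M] [NumberField M] [IsGalois ℚ M] (ι : M →+* ℂ)
    {x : M} (hx : IsIntegral ℤ x) (h1 : ∀ g : Gal(M/ℚ), ‖ι (g x)‖ = 1) :
    ∃ m : ℕ, 0 < m ∧ x ^ m = 1 := by
  have h2 := NumberField.Embeddings.pow_eq_one_of_norm_eq_one M ℂ hx (fun φ => by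
    obtain ⟨γ, hγ⟩ := exists_comp ι φ
    rw [hγ x]
    exact h1 γ)
  obtain ⟨m, hm, h3⟩ := h2
  exact ⟨m, hm, h3⟩

private theorem norm_root {M : Type*} [Field M] [NumberField M] (ι : M →+* ℂ) {v : M} {m : ℕ}
    (hm : 0 < m) (hv : v ^ m = 1) (g : Gal(M/ℚ)) : ‖ι (g v)‖ = 1 := by
  have h : ‖ι (g v)‖ ^ m = 1 := by
    rw [← norm_pow, ← map_pow, ← map_pow, hv, map_one, map_one, norm_one]
  exact (pow_eq_one_iff_of_nonneg (norm_nonneg _) hm.ne').1 h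

private theorem pm_one {M : Type*} [Field M] {x : M} (h : x ^ 2 = 1) : x = 1 ∨ x = -1 :=
  mul_self_eq_one_iff.1 (by rw [← pow_two]; exact h)

private theorem integral_root {M : Type*} [Field M] [NumberField M] {v : M} {m : ℕ}
    (hm : 0 < m) (hv : v ^ m = 1) : IsIntegral ℤ v :=
  IsIntegral.of_pow hm (by rw [hv]; exact isIntegral_one)

theorem exists_h {M : Type*} [Field M] [NumberField M] [IsGalois ℚ M] {ι : M →+* ℂ}
    {c : Gal(M/ℚ)} (hc : ∀ x, ι (c x) = starRingEnd ℂ (ι x)) (U : Subgroup Gal(M/ℚ))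
    (hU : ∀ t ∈ U, ∀ ξ : M, ∀ m : ℕ, 0 < m → ξ ^ m = 1 → t ξ = ξ) {τ : Gal(M/ℚ)}
    (hττ : τ * τ = 1) {Y : M} (hY0 : Y ≠ 0) (hYi : IsIntegral ℤ Y) (hYi' : IsIntegral ℤ Y⁻¹)
    (h1 : ∀ t ∈ U, ∀ g : Gal(M/ℚ), ‖ι (g (t Y))‖ = ‖ι (g Y)‖)
    (h2 : ∀ g : Gal(M/ℚ), ‖ι (g (c Y))‖ = ‖ι (g Y)‖)
    (h3 : ∀ t ∈ U, t (t Y) = Y) (h4 : ∀ t ∈ U, t (τ Y) = τ (t Y)) (h5 : c (τ Y) = τ (c Y)) :
    ∃ h : M, h ≠ 0 ∧ IsIntegral ℤ h ∧ IsIntegral ℤ h⁻¹ ∧ (∀ t ∈ U, t h = h) ∧ c h = h ∧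
      (τ h = h ∨ τ h = -h) ∧ ∀ g : Gal(M/ℚ), ‖ι (g h)‖ = ‖ι (g Y)‖ * ‖ι (g (τ Y))‖ := by
  have hint : ∀ (g : Gal(M/ℚ)) (x : M), IsIntegral ℤ x → IsIntegral ℤ (g x) := fun g x hx =>
    map_isIntegral_int (g : M →+* M) hx
  have hnz : ∀ g : Gal(M/ℚ), ‖ι (g Y)‖ ≠ 0 := fun g => by
    rw [norm_ne_zero_iff, map_ne_zero, map_ne_zero]
    exact hY0
  -- quotients with absolute values one
  have quot : ∀ b : Gal(M/ℚ), (∀ g : Gal(M/ℚ), ‖ι (g (b Y))‖ = ‖ι (g Y)‖) →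
      ∃ v : M, b Y = v * Y ∧ ∃ m : ℕ, 0 < m ∧ v ^ m = 1 := by
    intro b hb
    refine ⟨b Y / Y, by field_simp, ?_⟩
    refine exists_root_of_unity ι ?_ (fun g => ?_)
    · rw [div_eq_mul_inv]
      exact (hint b Y hYi).mul hYi'
    · rw [map_div₀, map_div₀, norm_div, hb g, div_self (hnz g)]
  have hττx : ∀ x : M, τ (τ x) = x := fun x => by
    rw [← AlgEquiv.mul_apply, hττ, AlgEquiv.one_apply]
  -- the element `Y * τ Y`
  have hut : ∀ t ∈ U, t (Y * τ Y) = Y * τ Y := by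
    intro t ht
    obtain ⟨ξ, hξ, m, hm, hξm⟩ := quot t (h1 t ht)
    have e1 : t ξ = ξ := hU t ht ξ m hm hξm
    have e2 : ξ ^ 2 = 1 := by
      have e3 := h3 t ht
      rw [hξ, map_mul, e1, hξ, ← mul_assoc, ← pow_two] at e3
      exact mul_right_cancel₀ hY0 (by rw [e3, one_mul])
    have e4 : τ ξ = ξ := by
      rcases pm_one e2 with h | h
      · rw [h, map_one]
      · rw [h, map_neg, map_one]
    rw [map_mul, h4 t ht, hξ, map_mul, e4]
    linear_combination (Y * τ Y) * e2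
  obtain ⟨v, hv, m, hm, hvm⟩ := quot c h2
  obtain ⟨n, hn, -, hn'⟩ := exists_pow_action τ
  have hτv : τ v = v ^ n := hn' v m hm hvm
  obtain ⟨r, hr⟩ := hn
  have hv0 : v ≠ 0 := by
    intro h
    rw [h, zero_pow hm.ne'] at hvm
    exact zero_ne_one hvm
  have hcv : c v = v⁻¹ := by
    apply ι.injective
    rw [hc, map_inv₀]
    have h6 : ‖ι v‖ = 1 := by simpa using norm_root ι hm hvm (1 : Gal(M/ℚ))
    rw [← Complex.inv_eq_conj h6]
  have hcu : c (Y * τ Y) = v ^ (2 * (r + 1)) * (Y * τ Y) := by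
    rw [map_mul, h5, hv, map_mul, hτv, hr]
    ring
  have hτu : τ (Y * τ Y) = Y * τ Y := by
    rw [map_mul, hττx, mul_comm]
  have hvn : v ^ (2 * (r + 1) * (2 * r)) = 1 := by
    have e1 := hττx v
    rw [hτv, map_pow, hτv, ← pow_mul] at e1
    have e2 : v ^ (2 * (r + 1) * (2 * r)) * v = 1 * v := by
      rw [← pow_succ, one_mul]
      rw [hr] at e1
      calc v ^ (2 * (r + 1) * (2 * r) + 1) = v ^ ((2 * r + 1) * (2 * r + 1)) := by
            congr 1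
            ring
        _ = v := e1
    exact mul_right_cancel₀ hv0 e2
  have hvi : IsIntegral ℤ v := integral_root hm hvm
  have hvi' : IsIntegral ℤ v⁻¹ := integral_root hm (by rw [inv_pow, hvm, inv_one])
  refine ⟨v ^ (r + 1) * (Y * τ Y), ?_, ?_, ?_, ?_, ?_, ?_, ?_⟩
  · exact mul_ne_zero (pow_ne_zero _ hv0) (mul_ne_zero hY0 ((map_ne_zero τ).2 hY0))
  · exact (hvi.pow _).mul (hYi.mul (hint τ Y hYi))
  · rw [mul_inv, mul_inv, ← inv_pow, ← map_inv₀]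
    exact (hvi'.pow _).mul (hYi'.mul (hint τ _ hYi'))
  · intro t ht
    rw [map_mul, map_pow, hU t ht v m hm hvm, hut t ht]
  · rw [map_mul, map_pow, hcv, hcu, ← mul_assoc]
    congr 1
    rw [two_mul (r + 1), pow_add v (r + 1) (r + 1), ← mul_assoc, ← mul_pow, inv_mul_cancel₀ hv0,
      one_pow, one_mul]
  · have e1 : τ (v ^ (r + 1) * (Y * τ Y)) = v ^ ((r + 1) * (2 * r)) *
        (v ^ (r + 1) * (Y * τ Y)) := by
      rw [map_mul, map_pow, hτv, hτu, hr, ← pow_mul]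
      ring
    have e2 : (v ^ ((r + 1) * (2 * r))) ^ 2 = 1 := by
      rw [← pow_mul, ← hvn]
      congr 1
      ring
    rw [e1]
    rcases pm_one e2 with h | h
    · left
      rw [h, one_mul]
    · right
      rw [h, neg_one_mul]
  · intro g
    rw [map_mul, map_mul, map_mul, map_mul, map_pow, map_pow, norm_mul, norm_mul, norm_pow,
      norm_root ι hm hvm g, one_pow, one_mul]

end Pool.Agent.StarkRQ.Rank3
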