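import Pool.Agent.StarkRQ.Klein
import Pool.Agent.StarkRQ.Rank3.ExistsY
import Pool.Agent.StarkRQ.Rank3.HSide
import Pool.Agent.StarkRQ.Rank3.Kron
import Pool.Agent.StarkRQ.Rank3.Descent
import Pool.Agent.StarkRQ.Rank3.Dict1
import Pool.Agent.StarkRQ.Rank3.Dict2

/-!
# Stark's conjecture with the Tate condition when the commutator subgroup has order eight
-/

open NumberField Module
open scoped commutatorElement

namespace Pool.Agent.StarkRQ.Rank3

lemma comm_fix_roots {M : Type*} [Field M] [NumberField M] {t : Gal(M/ℚ)}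
    (ht : t ∈ commutator Gal(M/ℚ)) {ξ : M} {m : ℕ} (hm : 0 < m) (hξ : ξ ^ m = 1) : t ξ = ξ := by
  have : NeZero m := ⟨hm.ne'⟩
  have h : commutator Gal(M/ℚ) ≤ MulAction.stabilizer Gal(M/ℚ) ξ := by
    rw [commutator_eq_closure, Subgroup.closure_le]
    rintro _ ⟨g, h, rfl⟩
    rw [SetLike.mem_coe, MulAction.mem_stabilizer_iff]
    exact commutator_fixes g h ξ hξ
  exact MulAction.mem_stabilizer_iff.1 (h ht)

lemma finsum_subtype_eq {I : Type*} [Fintype I] (p : I → Prop) [DecidablePred p] (F : I → ℝ) :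
    ∑ᶠ a : {a // p a}, F a = ∑ a ∈ Finset.univ.filter p, F a := by
  rw [finsum_eq_sum_of_fintype]
  symm
  exact Finset.sum_subtype _ (fun x => by simp) _

section
variable {M K N H : Type} {k E : Fin 4 → Type} [Field M] [NumberField M] [IsGalois ℚ M]
    [Field N] [NumberField N] [IsGalois ℚ N] [∀ i, Field (E i)] [∀ i, NumberField (E i)]
    [∀ i, IsGalois ℚ (E i)] [Field K] [NumberField K] [∀ i, Field (k i)] [∀ i, NumberField (k i)]
    [Field H] [NumberField H] [Algebra N M] [∀ i, Algebra (E i) M] [Algebra K N]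
    [∀ i, Algebra (k i) (E i)] [Algebra K H] [Algebra H N] [IsScalarTower K H N]
    [IsAbelianGalois K N] [∀ i, IsAbelianGalois (k i) (E i)]

theorem rank3_aux [Algebra K M] [IsScalarTower K N M] [∀ i, Algebra (k i) M]
    [∀ i, IsScalarTower (k i) (E i) M]
    {d : Fin 4 → ℚ} (hd : ∀ i, d i < 0) (hdd : ∀ i j, i ≠ j → ¬ IsSquare (d i * d j))
    (hd4 : ¬ IsSquare (∏ i, d i)) (hk : ∀ i, finrank ℚ (k i) = 2)
    (hkd : ∀ i, IsSquare (algebraMap ℚ (k i) (d i))) (hK : finrank ℚ K = 2)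
    (hKd : IsSquare (algebraMap ℚ K (∏ i, d i)))
    {f : ℕ} [NeZero f] {ζ : M} (hζ : IsPrimitiveRoot ζ f)
    (hmax : ∀ x : M, (∀ σ τ : Gal(M/ℚ), σ (τ x) = τ (σ x)) → x ∈ IntermediateField.adjoin ℚ {ζ})
    (hζN : ζ ∈ (algebraMap N M).range) (hζE : ∀ i, ζ ∈ (algebraMap (E i) M).range)
    (hdegN : finrank ℚ N = 8 * f.totient) (hdegE : ∀ i, finrank ℚ (E i) = 8 * f.totient)
    (hNE : ∀ i, ∃ y : M, y ∈ (algebraMap N M).range ∧ y ∈ (algebraMap (E i) M).range ∧
      y ∉ IntermediateField.adjoin ℚ {ζ})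
    (hEE : ∀ i j, i ≠ j → ∃ y : M, y ∈ (algebraMap (E i) M).range ∧
      y ∈ (algebraMap (E j) M).range ∧ y ∉ IntermediateField.adjoin ℚ {ζ})
    (hram : ∀ p : ℕ, p.Prime → (p : ℤ) ∣ discr M → p ∣ f)
    (ι : M →+* ℂ) (hH : ∀ y : H, (ι (algebraMap N M (algebraMap H N y))).im = 0)
    (τ : Gal(M/ℚ)) (hττ : τ * τ = 1) (hτζ : τ ζ ≠ ζ)
    (hτk : ∀ (i : Fin 4) (y : k i),
      τ (algebraMap (E i) M (algebraMap (k i) (E i) y)) = algebraMap (E i) M (algebraMap _ _ y))
    (hτH : ∀ y : H, τ (algebraMap N M (algebraMap H N y)) = algebraMap N M (algebraMap H N y))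
    (η : ∀ i, (𝓞 (E i))ˣ)
    (hη : ∀ i, IsStarkUnit (k i) (ι.comp (algebraMap (E i) M)) f (algebraMap (𝓞 (E i)) (E i) (η i)))
    (G : Gal(H/K) → ℂ → ℂ) (hG : ∀ σ, IsPartialZeta f σ (G σ)) :
    ∃ R : Gal(H/K), ∃ ε : Gal(H/K) → (𝓞 H)ˣ,
      (∀ σ, ι (algebraMap N M (algebraMap H N (ε σ : 𝓞 H))) =
          Complex.exp (-(deriv (G σ) 0 - deriv (G (R * σ)) 0))) ∧
      (∀ ρ σ, ρ ((ε σ : 𝓞 H) : H) = ((ε (ρ * σ) : 𝓞 H) : H)) ∧
      (∀ g : H →+* ℂ,
        (∃ x : K, g (algebraMap K H x) ≠ ι (algebraMap N M (algebraMap K N x))) →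
        (∀ y, g (R y) = starRingEnd ℂ (g y)) ∧ ∀ σ, ‖g ((ε σ : 𝓞 H) : H)‖ = 1) ∧
      ∀ σ, ∃ y : N, y ^ 2 = algebraMap H N ((ε σ : 𝓞 H) : H) := by
  classical
  have hf0 : f ≠ 0 := NeZero.ne f
  have : IsAbelianGalois K H := IsAbelianGalois.tower_bot K H N
  have : IsGalois K M := IsGalois.tower_top_of_isGalois ℚ K M
  have : ∀ i, IsGalois (k i) M := fun i => IsGalois.tower_top_of_isGalois ℚ (k i) M
  obtain ⟨c, hc⟩ := exists_cc ι
  obtain ⟨hneq, hpar, hcc'⟩ := fix_facts (M := M) hd hdd hd4 hk hkd hK hKd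
  obtain ⟨hck, hcK⟩ := hcc' ι c hc
  obtain ⟨hU₀, hrel₀, hcd₀, hwN⟩ := ker_facts hζ hmax hζN hdegN
  have hE := fun i => ker_facts hζ hmax (hζE i) (hdegE i)
  have hU : ∀ i, kerR (E i) M ≤ commutator Gal(M/ℚ) := fun i => (hE i).1
  have hmeet₀ : ∀ i, kerR N M ⊔ kerR (E i) M ≠ commutator Gal(M/ℚ) := fun i =>
    meet_ne (ζ := ζ) hmax (hNE i)
  have hmeet : ∀ i j, i ≠ j → kerR (E i) M ⊔ kerR (E j) M ≠ commutator Gal(M/ℚ) :=
    fun i j hij => meet_ne (ζ := ζ) hmax (hEE i j hij)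
  have hidx₀ := fixG_index (M := M) hK
  have hidx := fun i => fixG_index (M := M) (hk i)
  have hF : GFacts (fixG K M) (kerR N M) (fun i => fixG (k i) M) (fun i => kerR (E i) M) :=
    gfacts hidx₀ hidx hcK hck hneq hpar hU₀ hU
      (fun a ha b hb => comm_mem_kerR ha hb) (fun i a ha b hb => comm_mem_kerR ha hb) hmeet₀ hmeet
      hrel₀ (fun i => (hE i).2.1)
  have hcard : ∀ j, Nat.card (kerR (E j) M) = Nat.card (kerR N M) := fun j => by
    have h1 := (hE j).2.2.1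
    omega
  set w := Units.torsionOrder M with hwdef
  have hw : ∀ j, Units.torsionOrder (E j) = w := fun j => (hE j).2.2.2
  -- the elements `s j`
  choose gd hgd using exists_dual hidx₀ hidx hck hneq hpar
  have hgd0 : ∀ j, gd j ∉ fixG K M := by
    intro j h
    rw [hpar] at h
    have h1 : {i | gd j ∉ fixG (k i) M} = {j} := by
      ext i
      simp [hgd]
    rw [h1, Set.ncard_singleton] at h
    exact absurd h (by decide)
  set s : Fin 4 → Gal(M/ℚ) := fun j => ⁅c, gd j⁆ with hsdef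
  have hsC : ∀ j, s j ∈ commutator Gal(M/ℚ) := fun j =>
    Subgroup.commutator_mem_commutator (Subgroup.mem_top _) (Subgroup.mem_top _)
  have hs0 : ∀ i j, s j ∉ kerR N M ⊔ kerR (E i) M := by
    intro i j h
    have h1 := (hF.mem0 i c (gd j)).1 h
    exact (h1.2 ⟨hck i, hgd0 j⟩).1 hcK
  have hs : ∀ a b j, a ≠ b → (s j ∈ kerR (E a) M ⊔ kerR (E b) M ↔ j ≠ a ∧ j ≠ b) := by
    intro a b j hab
    have h1 := hF.mem a b hab c (gd j)
    have h2 := hgd j a
    have h3 := hgd j b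
    have h4 := hck a
    have h5 := hck b
    change s j ∈ kerR (E a) M ⊔ kerR (E b) M ↔ _ at h1
    rw [h1]
    constructor
    · intro h
      constructor
      · rintro rfl
        have : gd j ∉ fixG (k j) M := fun h' => (h2.1 h') rfl
        exact (h.2 ⟨h5, this⟩).2 (h3.2 hab.symm)
      · rintro rfl
        have : gd j ∉ fixG (k j) M := fun h' => (h3.1 h') rfl
        exact (h.1 ⟨h4, this⟩).2 (h2.2 hab)
    · rintro ⟨ha, hb⟩
      exact ⟨fun h => absurd (h3.2 hb.symm) h.2, fun h => absurd (h2.2 ha.symm) h.2⟩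
  obtain ⟨Y, hY0, hYi, hYi', hYt, hYlog⟩ :=
    exists_Y hF hk hneq hU₀ hU hmeet hcard hf0 hram hc hck hw η hη hsC hs0 hs
  set u : Fin 4 → M := fun i => algebraMap (E i) M (algebraMap (𝓞 (E i)) (E i) (η i)) with hu
  set m : ℝ := (Nat.card (kerR N M) : ℝ) with hm
  set L0 : Fin 4 → Gal(M/ℚ) → ℝ := fun i g => lam ι (kerR N M ⊔ kerR (E i) M) (u i) g with hL0
  have hYlog' : ∀ g : Gal(M/ℚ), 4 * m * w * Real.log ‖ι (g Y)‖ = ∑ i, L0 i g := hYlog
  have hm0 : m ≠ 0 := by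
    rw [hm]
    exact_mod_cast Nat.card_pos.ne'
  have hw0 : (w : ℝ) ≠ 0 := by
    exact_mod_cast Units.torsionOrder_ne_zero M
  have hA0 : 4 * m * w ≠ 0 := mul_ne_zero (mul_ne_zero four_ne_zero hm0) hw0
  have hle0 : ∀ i, kerR N M ⊔ kerR (E i) M ≤ commutator Gal(M/ℚ) := fun i => sup_le hU₀ (hU i)
  have hpos : ∀ g : Gal(M/ℚ), 0 < ‖ι (g Y)‖ := fun g => by
    rw [norm_pos_iff]
    exact fun h => hY0 (g.injective (ι.injective (by rw [h, map_zero, map_zero])))
  have hnormeq : ∀ g g' : Gal(M/ℚ), (∀ i, L0 i g = L0 i g') → ‖ι (g Y)‖ = ‖ι (g' Y)‖ := by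
    intro g g' h
    apply Real.log_injOn_pos (Set.mem_Ioi.2 (hpos g)) (Set.mem_Ioi.2 (hpos g'))
    apply mul_left_cancel₀ hA0
    rw [hYlog', hYlog']
    exact Finset.sum_congr rfl fun i _ => h i
  have hnormone : ∀ g : Gal(M/ℚ), (∀ i, L0 i g = 0) → ‖ι (g Y)‖ = 1 := by
    intro g h
    have h1 := hYlog' g
    rw [Finset.sum_eq_zero fun i _ => h i, mul_eq_zero] at h1
    have h2 := h1.resolve_left hA0
    rcases Real.log_eq_zero.1 h2 with h3 | h3 | h3
    · exact absurd h3 (hpos g).ne'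
    · exact h3
    · have := hpos g
      linarith
  have hsgn1 : ∀ {V : Subgroup Gal(M/ℚ)} {t : Gal(M/ℚ)}, t ∈ V → sgn V t = 1 := fun h => by
    unfold sgn
    rw [if_pos h]
  have hsgnm : ∀ {V : Subgroup Gal(M/ℚ)} {t : Gal(M/ℚ)}, t ∉ V → sgn V t = -1 := fun h => by
    unfold sgn
    rw [if_neg h]
  have hL0ker : ∀ i g t, t ∈ kerR N M → L0 i (g * t) = L0 i g := by
    intro i g t ht
    change lam ι _ _ (g * t) = lam ι _ _ g
    rw [lam_mul (hF.rel0 i) (hle0 i) (u i) g (hU₀ ht), hsgn1 (Subgroup.mem_sup_left ht)]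
    push_cast
    ring
  have hfixC : commutator Gal(M/ℚ) ≤ fixG K M := comm_le_of_index_two hidx₀
  have hL0zero : ∀ i g, g ∉ fixG K M → L0 i g = 0 := by
    intro i g hg
    change lam ι _ _ g = 0
    rw [sup_comm]
    refine lam_zero (hk i) hK ?_ (hU i) hU₀ ?_ (hF.cen i) (hcard i) hf0 hram hc (hck i) hcK (hη i)
      g hg
    · intro h
      exact hck i (h ▸ hcK)
    · rw [sup_comm]
      exact hmeet₀ i
  have h1 : ∀ t ∈ kerR N M, ∀ g : Gal(M/ℚ), ‖ι (g (t Y))‖ = ‖ι (g Y)‖ := by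
    intro t ht g
    exact hnormeq (g * t) g fun i => hL0ker i g t ht
  have h2 : ∀ g : Gal(M/ℚ), ‖ι (g (c Y))‖ = ‖ι (g Y)‖ := by
    intro g
    refine hnormeq (g * c) g fun i => ?_
    have e1 : g * c = (c * g) * ⁅g⁻¹, c⁻¹⁆ := by
      rw [commutatorElement_def]
      group
    have hmem : ⁅g⁻¹, c⁻¹⁆ ∈ commutator Gal(M/ℚ) :=
      Subgroup.commutator_mem_commutator (Subgroup.mem_top _) (Subgroup.mem_top _)
    have e2 : L0 i (g * c) = sgn (kerR N M ⊔ kerR (E i) M) ⁅g⁻¹, c⁻¹⁆ * L0 i g := by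
      rw [e1]
      change lam ι _ _ _ = _ * lam ι _ _ g
      rw [lam_mul (hF.rel0 i) (hle0 i) (u i) (c * g) hmem,
        lam_cc hc (hF.cen i)]
    rw [e2]
    by_cases hg : g ∈ fixG K M
    · rw [hsgn1]
      · push_cast
        ring
      · rw [hF.mem0]
        exact ⟨fun h => absurd ((Subgroup.inv_mem_iff _).2 hg) h.1,
          fun h => absurd ((Subgroup.inv_mem_iff _).2 hcK) h.2⟩
    · rw [hL0zero i g hg, mul_zero]
  have h3 : ∀ t ∈ kerR N M, t (t Y) = Y := fun t ht =>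
    hYt (t * t) fun i => hF.sq i t (hU₀ ht)
  have h4 : ∀ t ∈ kerR N M, t (τ Y) = τ (t Y) := by
    intro t ht
    have e1 : t * τ = τ * t * ⁅t⁻¹, τ⁻¹⁆ := by
      rw [commutatorElement_def]
      group
    change (t * τ) Y = τ (t Y)
    rw [e1, AlgEquiv.mul_apply,
      hYt _ fun i => hF.cen i t⁻¹ (Subgroup.inv_mem _ (hU₀ ht)) τ⁻¹]
    rfl
  have hτk' : ∀ i, τ ∈ fixG (k i) M := by
    intro i
    rw [mem_fixG]
    intro x
    rw [IsScalarTower.algebraMap_apply (k i) (E i) M]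
    exact hτk i x
  have hτK : τ ∈ fixG K M := by
    rw [hpar]
    have : {i | τ ∉ fixG (k i) M} = ∅ := by
      ext i
      simp [hτk']
    rw [this, Set.ncard_empty]
    exact (by decide : Even 0)
  have h5 : c (τ Y) = τ (c Y) := by
    have e1 : c * τ = τ * c * ⁅c⁻¹, τ⁻¹⁆ := by
      rw [commutatorElement_def]
      group
    have hmem : ⁅c⁻¹, τ⁻¹⁆ ∈ commutator Gal(M/ℚ) :=
      Subgroup.commutator_mem_commutator (Subgroup.mem_top _) (Subgroup.mem_top _)
    have hτi : ∀ i, τ⁻¹ ∈ fixG (k i) M := fun i => (Subgroup.inv_mem_iff _).2 (hτk' i)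
    have hτi0 : τ⁻¹ ∈ fixG K M := (Subgroup.inv_mem_iff _).2 hτK
    change (c * τ) Y = τ (c Y)
    rw [e1, AlgEquiv.mul_apply, hYt]
    · rfl
    · intro i
      have m0 : ⁅c⁻¹, τ⁻¹⁆ ∈ kerR N M ⊔ kerR (E i) M := by
        rw [hF.mem0]
        exact ⟨fun h => absurd (hτi i) h.2, fun h => absurd hτi0 h.2⟩
      have mj : ∀ j, j ≠ i → ⁅c⁻¹, τ⁻¹⁆ ∈ kerR (E i) M ⊔ kerR (E j) M := by
        intro j hj
        rw [hF.mem i j hj.symm]
        exact ⟨fun h => absurd (hτi j) h.2, fun h => absurd (hτi i) h.2⟩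
      obtain ⟨-, c2, c3⟩ := hF.count i (s i) (hsC i) (hs0 i i)
        (fun j hj h => ((hs i j i hj.symm).1 h).1 rfl) _ hmem
      have hsum : ∑ j ∈ Finset.univ.erase i, sgn (kerR (E i) M ⊔ kerR (E j) M) ⁅c⁻¹, τ⁻¹⁆ +
          sgn (kerR N M ⊔ kerR (E i) M) ⁅c⁻¹, τ⁻¹⁆ = 4 := by
        rw [hsgn1 m0, Finset.sum_congr rfl fun j hj => hsgn1 (mj j (Finset.ne_of_mem_erase hj))]
        simp
      by_contra hcon
      by_cases h' : (s i)⁻¹ * ⁅c⁻¹, τ⁻¹⁆ ∈ kerR (E i) M
      · have := c2 h'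
        rw [hsum] at this
        omega
      · have := c3 hcon h'
        rw [hsum] at this
        omega
  obtain ⟨h, h0, hi, hi', hUh, hch, hτh, hnorm⟩ := exists_h hc (kerR N M)
    (fun t ht ξ n hn hξ => comm_fix_roots (hU₀ ht) hn hξ) hττ hY0 hYi hYi' h1 h2 h3 h4 h5
  obtain ⟨hN, hhN⟩ : ∃ hN : N, algebraMap N M hN = h := by
    have := (mem_range_iff_res (M₁ := N) h).2 fun g hg => hUh g (MonoidHom.mem_ker.2 hg)
    exact this
  -- the formula for the derivatives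
  choose lift hlift using fun a : Gal(N/K) => res_surjective (M₁ := N) (M := M) (toG K N a)
  obtain ⟨sN, hsN⟩ : ∃ sN : Gal(N/K), toG K N sN = res N M (s 0) :=
    (mem_fixG_iff_res (s 0)).1 (hfixC (hsC 0))
  have hs0U : s 0 ∉ kerR N M := fun h => hs0 0 0 (Subgroup.mem_sup_left h)
  have hcH : ∀ y : H, c (algebraMap N M (algebraMap H N y)) =
      algebraMap N M (algebraMap H N y) := by
    intro y
    apply ι.injective
    rw [hc]
    exact Complex.conj_eq_iff_im.2 (hH y)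
  have hside' := hside (M := M) hK hk (fun j h => hck j (h ▸ hcK)) hU₀ hU hmeet₀
    (fun j => (hcard j).symm) hf0 hram (hsC 0) hs0U (hF.count0 (s 0) (hsC 0) fun j => hs0 j 0)
    hF.cen0 hF.cen hsN lift hlift hc hck hcK hcH hw hη G hG
  obtain ⟨τK, hτK'⟩ : ∃ τK : Gal(N/K), toG K N τK = res N M τ := (mem_fixG_iff_res τ).1 hτK
  have hτKH : AlgEquiv.restrictNormalHom H τK = 1 := by
    ext y
    apply (algebraMap H N).injective
    rw [restrict_apply]
    apply (algebraMap N M).injective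
    have e1 : τK (algebraMap H N y) = res N M τ (algebraMap H N y) := by rw [← hτK']; rfl
    rw [e1, res_apply, hτH]
    rfl
  set Fa : Gal(N/K) → ℝ := fun a => Real.log ‖ι (lift a Y)‖ with hFa
  have hlog2 : ∀ a : Gal(N/K), Real.log ‖(ι.comp (algebraMap N M)) (toG K N a hN)‖ =
      Fa a + Fa (a * τK) := by
    intro a
    have e1 : (ι.comp (algebraMap N M)) (toG K N a hN) = ι (lift a h) := by
      rw [RingHom.comp_apply, ← hlift, res_apply, hhN]
    have e2 : ‖ι (lift a (τ Y))‖ = ‖ι (lift (a * τK) Y)‖ := by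
      have e3 : (lift a * τ)⁻¹ * lift (a * τK) ∈ kerR N M := by
        rw [MonoidHom.mem_ker, map_mul, map_inv, hlift, map_mul, map_mul, hlift, hτK']
        group
      have e4 := h1 _ e3 (lift a * τ)
      have e5 : (lift a * τ) (((lift a * τ)⁻¹ * lift (a * τK)) Y) = lift (a * τK) Y := by
        change ((lift a * τ) * ((lift a * τ)⁻¹ * lift (a * τK))) Y = _
        rw [mul_inv_cancel_left]
      rw [e5] at e4
      rw [e4]
      rfl
    rw [e1, hnorm, e2, Real.log_mul (hpos _).ne' (hpos _).ne']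
  have hGfor : ∀ σ : Gal(H/K),
      deriv (G σ) 0 - deriv (G (AlgEquiv.restrictNormalHom H sN * σ)) 0 =
      ((-(1 / 2) * ∑ᶠ a : {a : Gal(N/K) // AlgEquiv.restrictNormalHom H a = σ},
        Real.log ‖(ι.comp (algebraMap N M)) (toG K N a hN)‖ : ℝ) : ℂ) := by
    intro σ
    rw [hside' σ]
    congr 1
    rw [finsum_subtype_eq (fun a : Gal(N/K) => AlgEquiv.restrictNormalHom H a = σ)
      (fun a => (∑ j, lam ι (kerR N M ⊔ kerR (E j) M)
        (algebraMap (E j) M (algebraMap (𝓞 (E j)) (E j) (η j))) (lift a)) /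
          (4 * (Nat.card (kerR N M) : ℝ) * w)),
      finsum_subtype_eq (fun a : Gal(N/K) => AlgEquiv.restrictNormalHom H a = σ)
        (fun a => Real.log ‖(ι.comp (algebraMap N M)) (toG K N a hN)‖)]
    have e1 : ∀ a : Gal(N/K), (∑ j, lam ι (kerR N M ⊔ kerR (E j) M)
        (algebraMap (E j) M (algebraMap (𝓞 (E j)) (E j) (η j))) (lift a)) /
          (4 * (Nat.card (kerR N M) : ℝ) * w) = Fa a := by
      intro a
      rw [div_eq_iff hA0, mul_comm]
      exact (hYlog (lift a)).symm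
    rw [Finset.sum_congr rfl fun a _ => e1 a, Finset.sum_congr rfl fun a _ => hlog2 a,
      Finset.sum_add_distrib]
    have e2 : ∑ a ∈ Finset.univ.filter (fun a : Gal(N/K) => AlgEquiv.restrictNormalHom H a = σ),
        Fa (a * τK) = ∑ a ∈ Finset.univ.filter
          (fun a : Gal(N/K) => AlgEquiv.restrictNormalHom H a = σ), Fa a := by
      refine Finset.sum_bij (fun a _ => a * τK) ?_ ?_ ?_ ?_
      · intro a ha
        rw [Finset.mem_filter] at ha ⊢
        exact ⟨Finset.mem_univ _, by rw [map_mul, hτKH, mul_one, ha.2]⟩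
      · intro a _ b _ hab
        exact mul_right_cancel hab
      · intro a ha
        rw [Finset.mem_filter] at ha
        refine ⟨a * τK⁻¹, ?_, by rw [inv_mul_cancel_right]⟩
        rw [Finset.mem_filter]
        exact ⟨Finset.mem_univ _, by rw [map_mul, map_inv, hτKH, inv_one, mul_one, ha.2]⟩
      · intro a _
        rfl
    rw [e2]
    ring
  -- the application of `descent`
  have hsurj : Function.Surjective (res N M) := res_surjective
  have hker0 : kerR N M ≤ fixG (k 0) M :=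
    hU₀.trans (comm_le_of_index_two (hidx 0))
  have hmemP : ∀ g : Gal(M/ℚ), res N M g ∈ (fixG (k 0) M).map (res N M) ↔ g ∈ fixG (k 0) M := by
    intro g
    constructor
    · rintro ⟨g', hg', hgg⟩
      have e1 : g'⁻¹ * g ∈ kerR N M := by
        rw [MonoidHom.mem_ker, map_mul, map_inv, hgg, inv_mul_cancel]
      have e2 := (fixG (k 0) M).mul_mem hg' (hker0 e1)
      rwa [mul_inv_cancel_left] at e2
    · intro hg
      exact Subgroup.mem_map_of_mem _ hg
  have hfin := descent (K := K) (H := H) (N := N) (ι := ι.comp (algebraMap N M))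
    (c := res N M c) (by
      intro x
      rw [RingHom.comp_apply, res_apply, hc, RingHom.comp_apply])
    ((mem_fixG_iff_res c).1 hcK) hH (z := res N M (s 0)) (zK := sN) hsN
    (by
      rw [← map_mul]
      exact MonoidHom.mem_ker.1 (hF.sq0 (s 0) (hsC 0)))
    (by
      intro g
      obtain ⟨g', rfl⟩ := hsurj g
      have e1 := MonoidHom.mem_ker.1 (hF.cen0 (s 0) (hsC 0) g')
      rw [commutatorElement_def, map_mul, map_mul, map_mul, map_inv, map_inv] at e1
      have e2 := mul_inv_eq_one.1 e1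
      exact mul_inv_eq_iff_eq_mul.1 e2)
    (by
      intro γ hγ
      obtain ⟨γ', rfl⟩ := hsurj γ
      have hγ' : γ' ∉ fixG K M := fun h => hγ ((mem_fixG_iff_res γ').1 h)
      have hmem : ⁅γ', c⁆ ∈ commutator Gal(M/ℚ) :=
        Subgroup.commutator_mem_commutator (Subgroup.mem_top _) (Subgroup.mem_top _)
      have mj : ∀ j, ⁅γ', c⁆ ∉ kerR N M ⊔ kerR (E j) M := by
        intro j hj
        have e1 := (hF.mem0 j γ' c).1 hj
        exact (e1.1 ⟨hγ', hck j⟩).2 hcK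
      obtain ⟨c1, c2, c3⟩ := hF.count0 (s 0) (hsC 0) (fun j => hs0 j 0) _ hmem
      have hsum : ∑ j, sgn (kerR N M ⊔ kerR (E j) M) ⁅γ', c⁆ = -4 := by
        rw [Finset.sum_congr rfl fun j _ => hsgnm (mj j)]
        simp
      have hin : (s 0)⁻¹ * ⁅γ', c⁆ ∈ kerR N M := by
        by_contra hcon
        by_cases h' : ⁅γ', c⁆ ∈ kerR N M
        · have := c1 h'
          rw [hsum] at this
          omega
        · have := c3 h' hcon
          rw [hsum] at this
          omega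
      rw [MonoidHom.mem_ker, map_mul, map_inv] at hin
      have e2 := inv_mul_eq_one.1 hin
      rw [e2, commutatorElement_def, map_mul, map_mul, map_mul, map_inv, map_inv,
        inv_mul_cancel_right])
    (P := (fixG (k 0) M).map (res N M))
    (by
      rw [Subgroup.index_map, sup_eq_left.2 hker0, MonoidHom.range_eq_top.2 hsurj,
        Subgroup.index_top, mul_one, hidx 0])
    (fun h => hck 0 ((hmemP c).1 h)) (τ := res N M τ)
    (by rw [← map_mul, hττ, map_one])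
    (by
      intro hcon
      obtain ⟨ζN, hζN'⟩ := hζN
      apply hτζ
      rw [← hζN', ← res_apply, hcon]
      rfl)
    ((hmemP τ).2 (hτk' 0)) ((mem_fixG_iff_res τ).1 hτK)
    (by
      intro y
      apply (algebraMap N M).injective
      rw [res_apply, hτH])
    (h := hN)
    (by
      rintro rfl
      exact h0 (by rw [← hhN, map_zero]))
    (by
      rw [← hhN] at hi
      exact (isIntegral_algebraMap_iff (algebraMap N M).injective).1 hi)
    (by
      rw [← hhN, ← map_inv₀] at hi'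
      exact (isIntegral_algebraMap_iff (algebraMap N M).injective).1 hi')
    (by
      apply (algebraMap N M).injective
      rw [res_apply, hhN, hch])
    (by
      rcases hτh with h' | h'
      · left
        apply (algebraMap N M).injective
        rw [res_apply, hhN, h']
      · right
        apply (algebraMap N M).injective
        rw [res_apply, map_neg, hhN, h'])
    (by
      intro γ hγ
      obtain ⟨γ', rfl⟩ := hsurj γ
      have hγ' : γ' ∉ fixG K M := fun h => hγ ((mem_fixG_iff_res γ').1 h)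
      have hγτ : γ' * τ ∉ fixG K M := fun h =>
        hγ' ((Subgroup.mul_mem_cancel_right _ hτK).1 h)
      rw [RingHom.comp_apply, res_apply, hhN, hnorm, hnormone γ' fun i => hL0zero i γ' hγ']
      have := hnormone (γ' * τ) fun i => hL0zero i _ hγτ
      rw [AlgEquiv.mul_apply] at this
      rw [this, one_mul])
    G hGfor
  exact hfin

theorem rank3
    {d : Fin 4 → ℚ} (hd : ∀ i, d i < 0) (hdd : ∀ i j, i ≠ j → ¬ IsSquare (d i * d j))
    (hd4 : ¬ IsSquare (∏ i, d i)) (hk : ∀ i, finrank ℚ (k i) = 2)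
    (hkd : ∀ i, IsSquare (algebraMap ℚ (k i) (d i))) (hK : finrank ℚ K = 2)
    (hKd : IsSquare (algebraMap ℚ K (∏ i, d i)))
    {f : ℕ} [NeZero f] {ζ : M} (hζ : IsPrimitiveRoot ζ f)
    (hmax : ∀ x : M, (∀ σ τ : Gal(M/ℚ), σ (τ x) = τ (σ x)) → x ∈ IntermediateField.adjoin ℚ {ζ})
    (hζN : ζ ∈ (algebraMap N M).range) (hζE : ∀ i, ζ ∈ (algebraMap (E i) M).range)
    (hdegN : finrank ℚ N = 8 * f.totient) (hdegE : ∀ i, finrank ℚ (E i) = 8 * f.totient)
    (hNE : ∀ i, ∃ y : M, y ∈ (algebraMap N M).range ∧ y ∈ (algebraMap (E i) M).range ∧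
      y ∉ IntermediateField.adjoin ℚ {ζ})
    (hEE : ∀ i j, i ≠ j → ∃ y : M, y ∈ (algebraMap (E i) M).range ∧
      y ∈ (algebraMap (E j) M).range ∧ y ∉ IntermediateField.adjoin ℚ {ζ})
    (hram : ∀ p : ℕ, p.Prime → (p : ℤ) ∣ discr M → p ∣ f)
    (ι : M →+* ℂ) (hH : ∀ y : H, (ι (algebraMap N M (algebraMap H N y))).im = 0)
    (τ : Gal(M/ℚ)) (hττ : τ * τ = 1) (hτζ : τ ζ ≠ ζ)
    (hτk : ∀ (i : Fin 4) (y : k i),
      τ (algebraMap (E i) M (algebraMap (k i) (E i) y)) = algebraMap (E i) M (algebraMap _ _ y))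
    (hτH : ∀ y : H, τ (algebraMap N M (algebraMap H N y)) = algebraMap N M (algebraMap H N y))
    (η : ∀ i, (𝓞 (E i))ˣ)
    (hη : ∀ i, IsStarkUnit (k i) (ι.comp (algebraMap (E i) M)) f (algebraMap (𝓞 (E i)) (E i) (η i)))
    (G : Gal(H/K) → ℂ → ℂ) (hG : ∀ σ, IsPartialZeta f σ (G σ)) :
    ∃ R : Gal(H/K), ∃ ε : Gal(H/K) → (𝓞 H)ˣ,
      (∀ σ, ι (algebraMap N M (algebraMap H N (ε σ : 𝓞 H))) =
          Complex.exp (-(deriv (G σ) 0 - deriv (G (R * σ)) 0))) ∧
      (∀ ρ σ, ρ ((ε σ : 𝓞 H) : H) = ((ε (ρ * σ) : 𝓞 H) : H)) ∧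
      (∀ g : H →+* ℂ,
        (∃ x : K, g (algebraMap K H x) ≠ ι (algebraMap N M (algebraMap K N x))) →
        (∀ y, g (R y) = starRingEnd ℂ (g y)) ∧ ∀ σ, ‖g ((ε σ : 𝓞 H) : H)‖ = 1) ∧
      ∀ σ, ∃ y : N, y ^ 2 = algebraMap H N ((ε σ : 𝓞 H) : H) := by
  let _ : Algebra K M := ((algebraMap N M).comp (algebraMap K N)).toAlgebra
  have : IsScalarTower K N M := IsScalarTower.of_algebraMap_eq fun _ => rfl
  let _ : ∀ i, Algebra (k i) M := fun i =>
    ((algebraMap (E i) M).comp (algebraMap (k i) (E i))).toAlgebra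
  have : ∀ i, IsScalarTower (k i) (E i) M := fun i => IsScalarTower.of_algebraMap_eq fun _ => rfl
  exact rank3_aux hd hdd hd4 hk hkd hK hKd hζ hmax hζN hζE hdegN hdegE hNE hEE hram ι hH τ hττ hτζ
    hτk hτH η hη G hG

end

end Pool.Agent.StarkRQ.Rank3
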