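import Mathlib

/-!
# Assembly: the element `Y`
-/

namespace Pool.Agent.StarkRQ.Rank3

/-- the identity for `Y` -/
theorem ident {G : Type*} [Mul G] {lb L0 : Fin 4 → G → ℝ} {L : Fin 4 → Fin 4 → G → ℝ}
    {s : Fin 4 → G} {A : ℝ}
    (hb : ∀ i g, A * lb i g = (∑ j ∈ Finset.univ.erase i, L i j g) + L0 i g)
    (hsym : ∀ i j g, i ≠ j → L i j g = L j i g)
    (htr : ∀ i j l g, i ≠ j → L i j (g * s l) = (if l = i ∨ l = j then -1 else 1) * L i j g)
    (htr0 : ∀ i l g, L0 i (g * s l) = - L0 i g) (g : G) :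
    A * (lb 2 g - lb 0 (g * s 3) - lb 1 (g * s 0) - lb 3 (g * s 1)) = ∑ i, L0 i g := by
  have e0 : (Finset.univ.erase 0 : Finset (Fin 4)) = {1, 2, 3} := by decide
  have e1 : (Finset.univ.erase 1 : Finset (Fin 4)) = {0, 2, 3} := by decide
  have e2 : (Finset.univ.erase 2 : Finset (Fin 4)) = {0, 1, 3} := by decide
  have e3 : (Finset.univ.erase 3 : Finset (Fin 4)) = {0, 1, 2} := by decide
  have s3 : ∀ (a b c : Fin 4) (F : Fin 4 → ℝ), a ≠ b → a ≠ c → b ≠ c →
      ∑ j ∈ ({a, b, c} : Finset (Fin 4)), F j = F a + F b + F c := by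
    intro a b c F hab hac hbc
    rw [Finset.sum_insert (by simp [hab, hac]), Finset.sum_pair hbc]
    ring
  have h2 := hb 2 g
  have h0 := hb 0 (g * s 3)
  have h1 := hb 1 (g * s 0)
  have h3 := hb 3 (g * s 1)
  rw [e2, s3 _ _ _ _ (by decide) (by decide) (by decide)] at h2
  rw [e0, s3 _ _ _ _ (by decide) (by decide) (by decide), htr0, htr 0 1 3 g (by decide),
    htr 0 2 3 g (by decide), htr 0 3 3 g (by decide)] at h0
  rw [e1, s3 _ _ _ _ (by decide) (by decide) (by decide), htr0, htr 1 0 0 g (by decide),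
    htr 1 2 0 g (by decide), htr 1 3 0 g (by decide)] at h1
  rw [e3, s3 _ _ _ _ (by decide) (by decide) (by decide), htr0, htr 3 0 1 g (by decide),
    htr 3 1 1 g (by decide), htr 3 2 1 g (by decide)] at h3
  rw [if_neg (by decide), if_neg (by decide), if_pos (by decide)] at h0
  rw [if_pos (by decide), if_neg (by decide), if_neg (by decide)] at h1
  rw [if_neg (by decide), if_pos (by decide), if_neg (by decide)] at h3
  have y1 := hsym 0 1 g (by decide)
  have y2 := hsym 0 2 g (by decide)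
  have y3 := hsym 0 3 g (by decide)
  have y4 := hsym 1 2 g (by decide)
  have y5 := hsym 1 3 g (by decide)
  have y6 := hsym 2 3 g (by decide)
  rw [Fin.sum_univ_four]
  linear_combination h2 - h0 - h1 - h3 - y1 - y2 + y3 - y4 - y5 + y6

end Pool.Agent.StarkRQ.Rank3
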