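import Pool.Agent.StarkRQ.Rank3.Defs

/-!
# Four independent quadratic characters (pure group theory)

Let `χ i : G → ZMod 2` be the character with kernel `A i`. Their sum has kernel `A₀ ≠ G`, they are
pairwise different and all have the value `1` at `c`, so no nonempty partial sum vanishes (odd
number of terms: value at `c`; two terms: `A i ≠ A j`; four terms: `A₀ ≠ G`) and
`G → (Fin 4 → ZMod 2)` is surjective.

`option_facts`: the same for the five characters indexed by `Option (Fin 4)` (`none` is `A₀`).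
-/

open NumberField Module
open scoped commutatorElement

namespace Pool.Agent.StarkRQ.Rank3

private noncomputable def chi {G : Type*} [Group G] (A : Fin 4 → Subgroup G) (g : G) :
    Fin 4 → ZMod 2 := open Classical in fun i => if g ∈ A i then 0 else 1

private lemma chi_eq_zero {G : Type*} [Group G] {A : Fin 4 → Subgroup G} {g : G} {i : Fin 4}
    (h : g ∈ A i) : chi A g i = 0 := if_pos h

private lemma chi_eq_one {G : Type*} [Group G] {A : Fin 4 → Subgroup G} {g : G} {i : Fin 4}
    (h : g ∉ A i) : chi A g i = 1 := if_neg h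

private lemma chi_eq_one_iff {G : Type*} [Group G] {A : Fin 4 → Subgroup G} {g : G} {i : Fin 4} :
    chi A g i = 1 ↔ g ∉ A i := by
  by_cases h : g ∈ A i
  · rw [chi_eq_zero h]; simp [h]
  · rw [chi_eq_one h]; simp [h]

private lemma chi_mul {G : Type*} [Group G] {A : Fin 4 → Subgroup G}
    (hA : ∀ i, (A i).index = 2) (g h : G) : chi A (g * h) = chi A g + chi A h := by
  funext i
  rw [Pi.add_apply]
  have h1 := Subgroup.mul_mem_iff_of_index_two (hA i) (a := g) (b := h)
  by_cases hg : g ∈ A i <;> by_cases hh : h ∈ A i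
  · rw [chi_eq_zero (h1.mpr (by simp [hg, hh])), chi_eq_zero hg, chi_eq_zero hh]; rfl
  · rw [chi_eq_one (fun h2 => by have := h1.mp h2; simp [hg, hh] at this), chi_eq_zero hg,
      chi_eq_one hh]; rfl
  · rw [chi_eq_one (fun h2 => by have := h1.mp h2; simp [hg, hh] at this), chi_eq_one hg,
      chi_eq_zero hh]; rfl
  · rw [chi_eq_zero (h1.mpr (by simp [hg, hh])), chi_eq_one hg, chi_eq_one hh]; rfl

private lemma cast_ncard {G : Type*} [Group G] (A : Fin 4 → Subgroup G) (g : G) :
    ((Set.ncard {i | g ∉ A i} : ℕ) : ZMod 2) = ∑ i, chi A g i := by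
  classical
  have h1 : {i | g ∉ A i} = ↑(Finset.univ.filter fun i => g ∉ A i) := by ext i; simp
  rw [h1, Set.ncard_coe_finset, Finset.card_filter, Nat.cast_sum]
  refine Finset.sum_congr rfl fun i _ => ?_
  by_cases h : g ∈ A i
  · rw [chi_eq_zero h]; simp [h]
  · rw [chi_eq_one h]; simp [h]

private lemma exists_mem_notMem {G : Type*} [Group G] {B B' : Subgroup G} (hB : B.index = 2)
    (hB' : B'.index = 2) (h : B ≠ B') : ∃ g, g ∈ B ∧ g ∉ B' := by
  by_contra hcon
  push Not at hcon
  have h1 : B ≤ B' := fun g hg => hcon g hg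
  have h2 : B.relIndex B' * B'.index = B.index := Subgroup.relIndex_mul_index h1
  rw [hB, hB'] at h2
  have h3 : B.relIndex B' = 1 := by omega
  exact h (le_antisymm h1 (Subgroup.relIndex_eq_one.mp h3))

private lemma zmod_two_cases (a : ZMod 2) : a = 0 ∨ a = 1 := by
  revert a; decide

private theorem surj {G : Type*} [Group G] {A₀ : Subgroup G} {A : Fin 4 → Subgroup G}
    (hA₀ : A₀.index = 2) (hA : ∀ i, (A i).index = 2) {c : G} (hc : ∀ i, c ∉ A i)
    (hne : ∀ i j, i ≠ j → A i ≠ A j)
    (hpar : ∀ g, g ∈ A₀ ↔ Even (Set.ncard {i | g ∉ A i})) (x : Fin 4 → ZMod 2) :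
    ∃ g, chi A g = x := by
  have hpar' : ∀ g, g ∈ A₀ ↔ ∑ i, chi A g i = 0 := by
    intro g
    rw [hpar, ← cast_ncard, ZMod.natCast_eq_zero_iff_even]
  let W : Submodule (ZMod 2) (Fin 4 → ZMod 2) :=
    { carrier := Set.range (chi A)
      add_mem' := by
        rintro _ _ ⟨g, rfl⟩ ⟨h, rfl⟩
        exact ⟨g * h, chi_mul hA g h⟩
      zero_mem' := ⟨1, by
        funext i
        exact chi_eq_zero (one_mem _)⟩
      smul_mem' := by
        rintro a _ ⟨g, rfl⟩
        rcases zmod_two_cases a with rfl | rfl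
        · exact ⟨1, by
            funext i
            rw [zero_smul]
            exact chi_eq_zero (one_mem _)⟩
        · exact ⟨g, (one_smul _ _).symm⟩ }
  have hW : W = ⊤ := by
    by_contra hlt
    obtain ⟨f, hf, hWf⟩ := Submodule.exists_le_ker_of_lt_top W (lt_top_iff_ne_top.mpr hlt)
    set a : Fin 4 → ZMod 2 := fun i => f (Pi.single i 1) with ha
    have hfa : ∀ y : Fin 4 → ZMod 2, f y = y 0 * a 0 + y 1 * a 1 + y 2 * a 2 + y 3 * a 3 := by
      intro y
      rw [LinearMap.pi_apply_eq_sum_univ f y]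
      simp only [Fin.sum_univ_four, smul_eq_mul, ha]
      congr 1
      · congr 1
        · congr 1
          · congr 2; funext j; simp [Pi.single_apply, eq_comm]
          · congr 2; funext j; simp [Pi.single_apply, eq_comm]
        · congr 2; funext j; simp [Pi.single_apply, eq_comm]
      · congr 2; funext j; simp [Pi.single_apply, eq_comm]
    have hz : ∀ g, chi A g 0 * a 0 + chi A g 1 * a 1 + chi A g 2 * a 2 + chi A g 3 * a 3 = 0 := by
      intro g
      rw [← hfa]
      exact hWf ⟨g, rfl⟩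
    have hane : a 0 ≠ 0 ∨ a 1 ≠ 0 ∨ a 2 ≠ 0 ∨ a 3 ≠ 0 := by
      by_contra hcon
      push Not at hcon
      apply hf
      refine LinearMap.ext fun y => ?_
      rw [hfa, hcon.1, hcon.2.1, hcon.2.2.1, hcon.2.2.2]
      simp
    have e1 := hz c
    rw [chi_eq_one (hc 0), chi_eq_one (hc 1), chi_eq_one (hc 2), chi_eq_one (hc 3)] at e1
    have h2 : ∀ i j : Fin 4, i ≠ j → ∃ g, chi A g i = 0 ∧ chi A g j = 1 := by
      intro i j hij
      obtain ⟨g, h1, h2⟩ := exists_mem_notMem (hA i) (hA j) (hne i j hij)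
      exact ⟨g, chi_eq_zero h1, chi_eq_one h2⟩
    obtain ⟨g₀, hg₀⟩ : ∃ g, g ∉ A₀ := by
      by_contra hcon
      push Not at hcon
      have : A₀ = ⊤ := by ext g; simp [hcon g]
      rw [this, Subgroup.index_top] at hA₀
      omega
    rw [hpar', Fin.sum_univ_four] at hg₀
    have e2 := hz g₀
    obtain ⟨g₁, p1, q1⟩ := h2 0 1 (by decide)
    obtain ⟨g₂, p2, q2⟩ := h2 0 2 (by decide)
    obtain ⟨g₃, p3, q3⟩ := h2 0 3 (by decide)
    obtain ⟨g₄, p4, q4⟩ := h2 1 2 (by decide)
    obtain ⟨g₅, p5, q5⟩ := h2 1 3 (by decide)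
    obtain ⟨g₆, p6, q6⟩ := h2 2 3 (by decide)
    have f1 := hz g₁
    have f2 := hz g₂
    have f3 := hz g₃
    have f4 := hz g₄
    have f5 := hz g₅
    have f6 := hz g₆
    rw [p1, q1] at f1
    rw [p2, q2] at f2
    rw [p3, q3] at f3
    rw [p4, q4] at f4
    rw [p5, q5] at f5
    rw [p6, q6] at f6
    clear_value a
    rcases zmod_two_cases (a 0) with h0 | h0 <;> rcases zmod_two_cases (a 1) with h1 | h1 <;>
      rcases zmod_two_cases (a 2) with h2' | h2' <;> rcases zmod_two_cases (a 3) with h3 | h3 <;>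
      rw [h0, h1, h2', h3] at e1 e2 f1 f2 f3 f4 f5 f6 hane <;>
      simp at hane e1 f1 f2 f3 f4 f5 f6 e2 hg₀ <;>
      first
        | exact absurd e1 (by decide)
        | exact hg₀ e2
  have h1 : x ∈ W := by rw [hW]; trivial
  exact h1

theorem exists_dual {G : Type*} [Group G] {A₀ : Subgroup G} {A : Fin 4 → Subgroup G}
    (hA₀ : A₀.index = 2) (hA : ∀ i, (A i).index = 2) {c : G} (hc : ∀ i, c ∉ A i)
    (hne : ∀ i j, i ≠ j → A i ≠ A j)
    (hpar : ∀ g, g ∈ A₀ ↔ Even (Set.ncard {i | g ∉ A i})) :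
    ∀ j : Fin 4, ∃ g : G, ∀ i, g ∈ A i ↔ i ≠ j := by
  intro j
  obtain ⟨g, hg⟩ := surj hA₀ hA hc hne hpar (Pi.single j 1)
  refine ⟨g, fun i => ?_⟩
  have h1 : chi A g i = 1 ↔ i = j := by
    rw [hg]
    by_cases h : i = j
    · subst h; simp
    · simp [h]
  rw [chi_eq_one_iff] at h1
  tauto

theorem option_facts {G : Type*} [Group G] {A₀ : Subgroup G} {A : Fin 4 → Subgroup G}
    (hA₀ : A₀.index = 2) (hA : ∀ i, (A i).index = 2) {c : G} (hc : ∀ i, c ∉ A i)
    (hne : ∀ i j, i ≠ j → A i ≠ A j)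
    (hpar : ∀ g, g ∈ A₀ ↔ Even (Set.ncard {i | g ∉ A i})) :
    (∀ g, Even (Set.ncard {o : Option (Fin 4) | g ∉ o.elim A₀ A})) ∧
      ∀ o o' : Option (Fin 4), o ≠ o' → ∃ g, ∀ l : Option (Fin 4),
        g ∉ l.elim A₀ A ↔ l = o ∨ l = o' := by
  constructor
  · intro g
    have h1 : (some '' {i | g ∉ A i}).ncard = Set.ncard {i | g ∉ A i} :=
      Set.ncard_image_of_injective _ (Option.some_injective _)
    by_cases hg : g ∈ A₀
    · have h2 : {o : Option (Fin 4) | g ∉ o.elim A₀ A} = some '' {i | g ∉ A i} := by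
        ext o
        cases o with
        | none => simp [hg]
        | some i => simp
      rw [h2, h1, ← hpar]
      exact hg
    · have h2 : {o : Option (Fin 4) | g ∉ o.elim A₀ A} = insert none (some '' {i | g ∉ A i}) := by
        ext o
        cases o with
        | none => simp [hg]
        | some i => simp
      rw [h2, Set.ncard_insert_of_notMem (by simp), h1, Nat.even_add_one, ← hpar]
      exact hg
  · intro o o' hoo'
    obtain ⟨g, hg⟩ := surj hA₀ hA hc hne hpar (fun i => if some i = o ∨ some i = o' then 1 else 0)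
    refine ⟨g, fun l => ?_⟩
    cases l with
    | none =>
      have h1 : g ∉ A₀ ↔ ∑ i, chi A g i = 1 := by
        rw [hpar, ← ZMod.natCast_eq_zero_iff_even, cast_ncard]
        rcases zmod_two_cases (∑ i, chi A g i) with h | h <;> rw [h] <;> simp
      have h2 : ∀ o o' : Option (Fin 4), o ≠ o' →
          ((∑ i : Fin 4, (if some i = o ∨ some i = o' then (1 : ZMod 2) else 0)) = 1 ↔
            none = o ∨ none = o') := by decide
      rw [Option.elim_none, h1, hg]
      exact h2 o o' hoo'
    | some i =>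
      rw [Option.elim_some, ← chi_eq_one_iff, hg]
      by_cases h : some i = o ∨ some i = o' <;> simp [h]

end Pool.Agent.StarkRQ.Rank3
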