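import Mathlib
import Pool.Agent.StarkRQ.Rank3.Final

/-!
# Stark's conjecture for real quadratic fields: commutator subgroup of order eight
-/

open NumberField Module Pool.Agent.StarkRQ

namespace Pool.Agent.StarkRQ.Rank3.OrderEightCase

/-- Let `M/ℚ` be Galois with maximal abelian subfield `ℚ(ζ_f)` (all primes ramified in `M` divide
`f`), let `d 0, ..., d 3` be negative rational numbers with different quadratic fields
`k i = ℚ(√(d i))`, and let `K = ℚ(√(d 0 * d 1 * d 2 * d 3))` be real quadratic. Let `N` and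
`E 0, ..., E 3` be Galois subfields of `M`, of degree `8` over `ℚ(ζ_f)`, `N` abelian over `K`, `E i`
abelian over `k i`, and any two of them meeting in more than `ℚ(ζ_f)` (then the commutator subgroup of
`Gal(N/ℚ)` is `Gal(N/ℚ(ζ_f))`, of order `8`). Let `K ⊆ H ⊆ N` with `H` real under the embedding `ι` of
`M`, let `τ ∈ Gal(M/ℚ)` be an involution which fixes all `√(d i)` and `H` but not `ζ_f` (such as the
generator of `Gal(M/M')` if the whole situation comes from a field `M'` of level `f / 2`), and let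
`η i` be Stark units of `E i / k i` for `S = {∞, primes dividing f}`.
Let `G σ` be the zeta function of the class `σ ∈ Gal(H/K)` for `S = {∞₁, ∞₂, primes dividing f}`.
Then there are `R ∈ Gal(H/K)` and units `ε σ` of `H`, equal to `exp(-(ζ'(0, σ) - ζ'(0, R σ)))`,
permuted by `Gal(H/K)`, of absolute value `1` at all embeddings of `H` which differ from `ι`
on `K` (at these embeddings `R` is complex conjugation), and all `ε σ` are squares in `N`, so that
`H(√(ε σ))` is abelian over `K`. -/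
theorem result {M K N H : Type} {k E : Fin 4 → Type} [Field M] [NumberField M] [IsGalois ℚ M]
    [Field N] [NumberField N] [IsGalois ℚ N] [∀ i, Field (E i)] [∀ i, NumberField (E i)]
    [∀ i, IsGalois ℚ (E i)] [Field K] [NumberField K] [∀ i, Field (k i)] [∀ i, NumberField (k i)]
    [Field H] [NumberField H] [Algebra N M] [∀ i, Algebra (E i) M] [Algebra K N]
    [∀ i, Algebra (k i) (E i)] [Algebra K H] [Algebra H N] [IsScalarTower K H N]
    [IsAbelianGalois K N] [∀ i, IsAbelianGalois (k i) (E i)]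
    {d : Fin 4 → ℚ} (hd : ∀ i, d i < 0) (hdd : ∀ i j, i ≠ j → ¬ IsSquare (d i * d j))
    (hd4 : ¬ IsSquare (∏ i, d i)) (hk : ∀ i, finrank ℚ (k i) = 2)
    (hkd : ∀ i, IsSquare (algebraMap ℚ (k i) (d i))) (hK : finrank ℚ K = 2)
    (hKd : IsSquare (algebraMap ℚ K (∏ i, d i)))
    {f : ℕ} [NeZero f] {ζ : M} (hζ : IsPrimitiveRoot ζ f)
    (hmax : ∀ x : M, (∀ σ τ : Gal(M/ℚ), σ (τ x) = τ (σ x)) → x ∈ IntermediateField.adjoin ℚ {ζ})
    (hζN : ζ ∈ (algebraMap N M).range) (hζE : ∀ i, ζ ∈ (algebraMap (E i) M).range)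
    (hdegN : finrank ℚ N = 8 * f.totient) (hdegE : ∀ i, finrank ℚ (E i) = 8 * f.totient)
    (hNE : ∀ i, ∃ y : M, y ∈ (algebraMap N M).range ∧ y ∈ (algebraMap (E i) M).range ∧
      y ∉ IntermediateField.adjoin ℚ {ζ})
    (hEE : ∀ i j, i ≠ j → ∃ y : M, y ∈ (algebraMap (E i) M).range ∧
      y ∈ (algebraMap (E j) M).range ∧ y ∉ IntermediateField.adjoin ℚ {ζ})
    (hram : ∀ p : ℕ, p.Prime → (p : ℤ) ∣ discr M → p ∣ f)
    (ι : M →+* ℂ) (hH : ∀ y : H, (ι (algebraMap N M (algebraMap H N y))).im = 0)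
    (τ : Gal(M/ℚ)) (hττ : τ * τ = 1) (hτζ : τ ζ ≠ ζ)
    (hτk : ∀ (i : Fin 4) (y : k i),
      τ (algebraMap (E i) M (algebraMap (k i) (E i) y)) = algebraMap (E i) M (algebraMap _ _ y))
    (hτH : ∀ y : H, τ (algebraMap N M (algebraMap H N y)) = algebraMap N M (algebraMap H N y))
    (η : ∀ i, (𝓞 (E i))ˣ)
    (hη : ∀ i, IsStarkUnit (k i) (ι.comp (algebraMap (E i) M)) f (algebraMap (𝓞 (E i)) (E i) (η i)))
    (G : Gal(H/K) → ℂ → ℂ) (hG : ∀ σ, IsPartialZeta f σ (G σ)) :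
    ∃ R : Gal(H/K), ∃ ε : Gal(H/K) → (𝓞 H)ˣ,
      (∀ σ, ι (algebraMap N M (algebraMap H N (ε σ : 𝓞 H))) =
          Complex.exp (-(deriv (G σ) 0 - deriv (G (R * σ)) 0))) ∧
      (∀ ρ σ, ρ ((ε σ : 𝓞 H) : H) = ((ε (ρ * σ) : 𝓞 H) : H)) ∧
      (∀ g : H →+* ℂ,
        (∃ x : K, g (algebraMap K H x) ≠ ι (algebraMap N M (algebraMap K N x))) →
        (∀ y, g (R y) = starRingEnd ℂ (g y)) ∧ ∀ σ, ‖g ((ε σ : 𝓞 H) : H)‖ = 1) ∧
      ∀ σ, ∃ y : N, y ^ 2 = algebraMap H N ((ε σ : 𝓞 H) : H) :=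
  Rank3.rank3 hd hdd hd4 hk hkd hK hKd hζ hmax hζN hζE hdegN hdegE hNE hEE hram ι hH τ hττ hτζ
    hτk hτH η hη G hG

end Pool.Agent.StarkRQ.Rank3.OrderEightCase
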