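import Pool.Agent.StarkRQ.Rank3.Defs

/-!
# Two abelian subgroups of index two (pure group theory)

Choose `a ∈ A`, `a ∉ B` and `b ∈ B`, `b ∉ A` (they exist, as `A ≠ B` have index `2`: if `A ≤ B` then
`A.relIndex B * B.index = A.index` gives `A = B`). Elements of `A ∩ B` are central (they commute with
`A` and `B`, and every `g` is in `A` or in `A * b`). `z := b * a * b⁻¹ * a⁻¹` is in `A ∩ B` (both are
normal), so central, and `⁅b ^ 2, a⁆ = z ^ 2` while `b ^ 2 ∈ A ∩ B` is central, so `z * z = 1`.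
Commutators: write `g = a^i b^j s`, `s ∈ A ∩ B` (four cases), then `⁅g, h⁆ = 1` or `z`
(`z⁻¹ = z`). The structure `ZData` is in `StarkRQ/Coeff.lean`, and the proof of `exists_z` in
`StarkRQ/Comm.lean` (where there is an involution `c`) is a model. The commutator subgroup is
`{1, z}` because all commutators are `1` or `z` and `z` is one.
-/

open NumberField Module
open scoped commutatorElement

namespace Pool.Agent.StarkRQ.Rank3

private lemma pair_mul_mem {G : Type*} [Group G] {H : Subgroup G} (hH : H.index = 2) {g h : G}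
    (hg : g ∉ H) (hh : h ∉ H) : g * h ∈ H := by
  rw [Subgroup.mul_mem_iff_of_index_two hH]
  tauto

private lemma pair_exists {G : Type*} [Group G] {A B : Subgroup G} (hA : A.index = 2)
    (hB : B.index = 2) (hne : A ≠ B) : ∃ b, b ∈ B ∧ b ∉ A := by
  by_contra h
  push Not at h
  have hle : B ≤ A := fun x hx => h x hx
  have h1 : B.relIndex A * A.index = B.index := Subgroup.relIndex_mul_index hle
  rw [hA, hB] at h1
  have h2 : B.relIndex A = 1 := by omega
  exact hne (le_antisymm (fun x hx => Subgroup.relIndex_eq_one.1 h2 hx) hle)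

theorem pair_group {Q : Type*} [Group Q] {A B : Subgroup Q} (hA : A.index = 2) (hB : B.index = 2)
    (hAc : ∀ a ∈ A, ∀ a' ∈ A, a * a' = a' * a) (hBc : ∀ a ∈ B, ∀ a' ∈ B, a * a' = a' * a)
    (hne : A ≠ B) :
    ∃ z : Q, ZData A B z ∧
      (∀ g h : Q, (((g ∉ A ∧ h ∉ B) ↔ (g ∉ B ∧ h ∉ A)) → ⁅g, h⁆ = 1) ∧
        (¬ ((g ∉ A ∧ h ∉ B) ↔ (g ∉ B ∧ h ∉ A)) → ⁅g, h⁆ = z)) ∧
      ∀ t, t ∈ commutator Q ↔ t = 1 ∨ t = z := by
  have hAn : A.Normal := Subgroup.normal_of_index_eq_two hA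
  have hBn : B.Normal := Subgroup.normal_of_index_eq_two hB
  obtain ⟨b, hbB, hbA⟩ := pair_exists hA hB hne
  obtain ⟨a, haA, haB⟩ := pair_exists hB hA hne.symm
  have hinv : ∀ {C : Subgroup Q} {g : Q}, g ∉ C → g⁻¹ ∉ C := fun {C g} hg h =>
    hg ((Subgroup.inv_mem_iff C).1 h)
  have hsq : ∀ g, g * g ∈ A ∧ g * g ∈ B := fun g =>
    ⟨Subgroup.mul_self_mem_of_index_two hA g, Subgroup.mul_self_mem_of_index_two hB g⟩
  have hcen : ∀ s ∈ A, s ∈ B → ∀ g, s * g = g * s := by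
    intro s hsA hsB g
    by_cases hgA : g ∈ A
    · exact hAc s hsA g hgA
    have h1 : g * b⁻¹ ∈ A := pair_mul_mem hA hgA (hinv hbA)
    have h2 := hAc s hsA _ h1
    have h3 := hBc s hsB b hbB
    calc s * g = (s * (g * b⁻¹)) * b := by group
      _ = (g * b⁻¹) * (s * b) := by rw [h2]; group
      _ = g * s := by rw [h3]; group
  obtain ⟨z, hz⟩ : ∃ z, z = b * a * b⁻¹ * a⁻¹ := ⟨_, rfl⟩
  have hzA : z ∈ A := by
    rw [hz]
    exact A.mul_mem (hAn.conj_mem a haA b) (A.inv_mem haA)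
  have hzB : z ∈ B := by
    have h1 : z = b * (a * b⁻¹ * a⁻¹) := by rw [hz]; group
    rw [h1]
    exact B.mul_mem hbB (hBn.conj_mem _ (B.inv_mem hbB) a)
  have hzc := hcen z hzA hzB
  have hba : b * a * b⁻¹ = z * a := by rw [hz]; group
  have hzz : z * z = 1 := by
    have h1 : (b * b) * a = a * (b * b) := hcen _ (hsq b).1 (hsq b).2 a
    have h2 : (b * b) * a * (b * b)⁻¹ = z * z * a := by
      calc (b * b) * a * (b * b)⁻¹ = b * (b * a * b⁻¹) * b⁻¹ := by group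
        _ = (b * z) * a * b⁻¹ := by rw [hba]; group
        _ = (z * b) * a * b⁻¹ := by rw [hzc b]
        _ = z * (b * a * b⁻¹) := by group
        _ = z * z * a := by rw [hba]; group
    rw [h1, mul_inv_cancel_right] at h2
    exact (mul_eq_right.1 h2.symm)
  have hzinv : z⁻¹ = z := inv_eq_of_mul_eq_one_left hzz
  have hkey : ∀ γ, γ ∉ A → γ * a * γ⁻¹ = z * a := by
    intro γ hγ
    have ha : γ * b⁻¹ ∈ A := pair_mul_mem hA hγ (hinv hbA)
    have h1 := hAc _ ha _ (hAn.conj_mem a haA b)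
    calc γ * a * γ⁻¹ = (γ * b⁻¹) * (b * a * b⁻¹) * (γ * b⁻¹)⁻¹ := by group
      _ = (b * a * b⁻¹) * (γ * b⁻¹) * (γ * b⁻¹)⁻¹ := by rw [h1]
      _ = b * a * b⁻¹ := by group
      _ = z * a := hba
  have hconjA : ∀ g ∈ A, g ∉ B → ∀ γ, γ ∉ A → γ * g * γ⁻¹ = z * g := by
    intro g hgA hgB γ hγ
    have hsA : a⁻¹ * g ∈ A := A.mul_mem (A.inv_mem haA) hgA
    have hsB : a⁻¹ * g ∈ B := pair_mul_mem hB (hinv haB) hgB
    have h1 := hcen _ hsA hsB γ⁻¹
    calc γ * g * γ⁻¹ = γ * a * ((a⁻¹ * g) * γ⁻¹) := by group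
      _ = γ * a * (γ⁻¹ * (a⁻¹ * g)) := by rw [h1]
      _ = (γ * a * γ⁻¹) * (a⁻¹ * g) := by group
      _ = z * a * (a⁻¹ * g) := by rw [hkey γ hγ]
      _ = z * g := by group
  have hconjB : ∀ g ∈ B, g ∉ A → ∀ γ, γ ∉ B → γ * g * γ⁻¹ = z * g := by
    intro g hgB hgA γ hγ
    have hb' : γ * a⁻¹ ∈ B := pair_mul_mem hB hγ (hinv haB)
    have h1 : a * g * a⁻¹ = z * g := by
      calc a * g * a⁻¹ = a * (g * a * g⁻¹)⁻¹ * g := by group
        _ = a * (z * a)⁻¹ * g := by rw [hkey g hgA]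
        _ = z⁻¹ * g := by group
        _ = z * g := by rw [hzinv]
    have h2 := hBc _ hb' g hgB
    calc γ * g * γ⁻¹ = (γ * a⁻¹) * (a * g * a⁻¹) * (γ * a⁻¹)⁻¹ := by group
      _ = ((γ * a⁻¹) * z) * g * (γ * a⁻¹)⁻¹ := by rw [h1]; group
      _ = (z * (γ * a⁻¹)) * g * (γ * a⁻¹)⁻¹ := by rw [hzc (γ * a⁻¹)]
      _ = z * ((γ * a⁻¹) * g) * (γ * a⁻¹)⁻¹ := by group
      _ = z * (g * (γ * a⁻¹)) * (γ * a⁻¹)⁻¹ := by rw [h2]
      _ = z * g := by group
  have hD : ZData A B z := ⟨hzA, hzB, hzz, hcen, hconjA, hconjB, hsq⟩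
  have hone : ∀ g h : Q, g * h = h * g → ⁅g, h⁆ = 1 := fun g h hgh => by
    rw [commutatorElement_eq_one_iff_mul_comm]
    exact hgh
  -- the two ways in which the commutator is `z`
  have hl : ∀ g h : Q, h * g * h⁻¹ = z * g → ⁅g, h⁆ = z := by
    intro g h hgh
    rw [commutatorElement_def]
    calc g * h * g⁻¹ * h⁻¹ = g * (h * g * h⁻¹)⁻¹ := by group
      _ = g * (z * g)⁻¹ := by rw [hgh]
      _ = z⁻¹ := by group
      _ = z := hzinv
  have hr : ∀ g h : Q, g * h * g⁻¹ = z * h → ⁅g, h⁆ = z := by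
    intro g h hgh
    rw [commutatorElement_def, hgh]
    group
  have hcom : ∀ g h : Q, (((g ∉ A ∧ h ∉ B) ↔ (g ∉ B ∧ h ∉ A)) → ⁅g, h⁆ = 1) ∧
      (¬ ((g ∉ A ∧ h ∉ B) ↔ (g ∉ B ∧ h ∉ A)) → ⁅g, h⁆ = z) := by
    intro g h
    by_cases g1 : g ∈ A <;> by_cases g2 : g ∈ B <;> by_cases h1 : h ∈ A <;>
      by_cases h2 : h ∈ B
    all_goals first
      | exact ⟨fun _ => hone g h (hcen g g1 g2 h), fun hn => absurd (by tauto) hn⟩
      | exact ⟨fun _ => hone g h (hcen h h1 h2 g).symm, fun hn => absurd (by tauto) hn⟩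
      | exact ⟨fun _ => hone g h (hAc g g1 h h1), fun hn => absurd (by tauto) hn⟩
      | exact ⟨fun _ => hone g h (hBc g g2 h h2), fun hn => absurd (by tauto) hn⟩
      | exact ⟨fun hp => absurd hp (by tauto), fun _ => hl g h (hconjA g g1 g2 h h1)⟩
      | exact ⟨fun hp => absurd hp (by tauto), fun _ => hl g h (hconjB g g2 g1 h h2)⟩
      | exact ⟨fun hp => absurd hp (by tauto), fun _ => hr g h (hconjA h h1 h2 g g1)⟩
      | exact ⟨fun hp => absurd hp (by tauto), fun _ => hr g h (hconjB h h2 h1 g g2)⟩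
      | skip
    -- both elements are outside of `A` and of `B`
    refine ⟨fun _ => hone g h ?_, fun hn => absurd (by tauto) hn⟩
    have h3 := hcen _ (pair_mul_mem hA g1 (hinv h1)) (pair_mul_mem hB g2 (hinv h2)) h
    calc g * h = (g * h⁻¹) * h * h := by group
      _ = h * (g * h⁻¹) * h := by rw [h3]
      _ = h * g := by group
  refine ⟨z, hD, hcom, fun t => ⟨fun ht => ?_, ?_⟩⟩
  · have h1 : commutator Q ≤ Subgroup.zpowers z := by
      rw [commutator_def, Subgroup.commutator_le]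
      intro g _ h _
      by_cases hp : (g ∉ A ∧ h ∉ B) ↔ (g ∉ B ∧ h ∉ A)
      · rw [(hcom g h).1 hp]
        exact Subgroup.one_mem _
      · rw [(hcom g h).2 hp]
        exact Subgroup.mem_zpowers z
    obtain ⟨n, hn⟩ := Subgroup.mem_zpowers_iff.1 (h1 ht)
    rcases Int.even_or_odd n with ⟨m, hm⟩ | ⟨m, hm⟩
    · left
      rw [← hn, hm, ← two_mul, zpow_mul]
      have h2 : z ^ (2 : ℤ) = 1 := by
        rw [show (2 : ℤ) = 1 + 1 by norm_num, zpow_add, zpow_one, hzz]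
      rw [h2, one_zpow]
    · right
      rw [← hn, hm, zpow_add, zpow_mul, zpow_one]
      have h2 : z ^ (2 : ℤ) = 1 := by
        rw [show (2 : ℤ) = 1 + 1 by norm_num, zpow_add, zpow_one, hzz]
      rw [h2, one_zpow, one_mul]
  · rintro (h0 | h0)
    · rw [h0]
      exact Subgroup.one_mem _
    · rw [h0]
      have h1 : ⁅b, a⁆ ∈ commutator Q := by
        rw [commutator_def]
        exact Subgroup.commutator_mem_commutator (Subgroup.mem_top _) (Subgroup.mem_top _)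
      have h2 : ⁅b, a⁆ = z := by
        rw [commutatorElement_def, hz]
      rw [← h2]
      exact h1

end Pool.Agent.StarkRQ.Rank3
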