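import Pool.Agent.StarkRQ.Rank3.PairGroup

/-!
# The subgroup `U i ⊔ U j` (pure group theory)

`I` has five elements, the characters with kernels `A i` have product `1` (`hpar` in
`CountSgn.lean`) and `hsurj` says that all even subsets with two elements occur. Put
`V = U i ⊔ U j ≤ commutator G ≤ A i ⊓ A j` (index two subgroups contain the commutator subgroup) and
apply `pair_group` to `Q = G ⧸ V` and the images of `A i`, `A j`: they have index `2`, are abelian by
`hab`, and differ (take `g` from `hsurj` for `i` and a third index `l`: `g ∉ A i`, `g ∈ A j`).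
`commutator Q` is the image of `commutator G`; it is not trivial because `V ≠ commutator G`
(`hmeet`), so `z ≠ 1`, the image has two elements, and `⁅g, h⁆ ∈ V` iff its image is `1`.
-/

open NumberField Module
open scoped commutatorElement

namespace Pool.Agent.StarkRQ.Rank3

private theorem pm_comm_le {G : Type*} [Group G] {A : Subgroup G} (hA : A.index = 2) :
    commutator G ≤ A := by
  rw [commutator_def, Subgroup.commutator_le]
  intro g _ h _
  rw [commutatorElement_def, Subgroup.mul_mem_iff_of_index_two hA,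
    Subgroup.mul_mem_iff_of_index_two hA, Subgroup.mul_mem_iff_of_index_two hA,
    Subgroup.inv_mem_iff, Subgroup.inv_mem_iff]
  tauto

variable {G : Type*} [Group G] {I : Type*} [Fintype I] [DecidableEq I]

theorem pair_meet (hI : Fintype.card I = 5) {A U : I → Subgroup G} [hUn : ∀ i, (U i).Normal]
    (hidx : ∀ i, (A i).index = 2) (hsurj : ∀ i j, i ≠ j → ∃ g, ∀ l, g ∉ A l ↔ l = i ∨ l = j)
    (hU : ∀ i, U i ≤ commutator G) (hab : ∀ i, ∀ a ∈ A i, ∀ b ∈ A i, ⁅a, b⁆ ∈ U i)
    (hmeet : ∀ i j, i ≠ j → U i ⊔ U j ≠ commutator G) {i j : I} (hij : i ≠ j) :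
    (U i ⊔ U j).relIndex (commutator G) = 2 ∧
      ∀ g h : G, ⁅g, h⁆ ∈ U i ⊔ U j ↔ ((g ∉ A i ∧ h ∉ A j) ↔ (g ∉ A j ∧ h ∉ A i)) := by
  classical
  set V : Subgroup G := U i ⊔ U j with hV
  have hVC : V ≤ commutator G := sup_le (hU i) (hU j)
  have hVi : V ≤ A i := hVC.trans (pm_comm_le (hidx i))
  have hVj : V ≤ A j := hVC.trans (pm_comm_le (hidx j))
  let π : G →* G ⧸ V := QuotientGroup.mk' V
  have hπs : Function.Surjective π := QuotientGroup.mk'_surjective V
  have hker : π.ker = V := QuotientGroup.ker_mk' V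
  have hπ1 : ∀ g, π g = 1 ↔ g ∈ V := fun g => by rw [← MonoidHom.mem_ker, hker]
  have hmem : ∀ B : Subgroup G, V ≤ B → ∀ g, π g ∈ B.map π ↔ g ∈ B := by
    intro B hB g
    rw [← Subgroup.mem_comap, Subgroup.comap_map_eq_self (by rw [hker]; exact hB)]
  have hindex : ∀ B : Subgroup G, V ≤ B → B.index = 2 → (B.map π).index = 2 := by
    intro B hB h
    rw [Subgroup.index_map_eq B hπs (by rw [hker]; exact hB), h]
  have habel : ∀ l, U l ≤ V → ∀ a ∈ (A l).map π, ∀ a' ∈ (A l).map π, a * a' = a' * a := by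
    rintro l hl _ ⟨a, ha, rfl⟩ _ ⟨b, hb, rfl⟩
    have h1 : π ⁅a, b⁆ = 1 := (hπ1 _).2 (hl (hab l a ha b hb))
    rw [map_commutatorElement, commutatorElement_eq_one_iff_mul_comm] at h1
    exact h1
  -- a third index
  obtain ⟨l, hl⟩ : ∃ l, l ∉ ({i, j} : Finset I) := by
    by_contra hcon
    push Not at hcon
    have h1 : (Finset.univ : Finset I) ⊆ {i, j} := fun x _ => hcon x
    have h2 := (Finset.card_le_card h1).trans (Finset.card_le_two)
    rw [Finset.card_univ, hI] at h2
    omega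
  rw [Finset.mem_insert, Finset.mem_singleton, not_or] at hl
  obtain ⟨g₀, hg₀⟩ := hsurj i l (fun h => hl.1 h.symm)
  have hg₀i : g₀ ∉ A i := (hg₀ i).2 (Or.inl rfl)
  have hg₀j : g₀ ∈ A j := by
    by_contra h
    rcases (hg₀ j).1 h with h1 | h1
    · exact hij h1.symm
    · exact hl.2 h1.symm
  have hne : (A i).map π ≠ (A j).map π := by
    intro h
    have h1 : π g₀ ∈ (A j).map π := (hmem _ hVj g₀).2 hg₀j
    rw [← h, hmem _ hVi] at h1
    exact hg₀i h1
  obtain ⟨z, -, hz, hC⟩ := pair_group (hindex _ hVi (hidx i)) (hindex _ hVj (hidx j))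
    (habel i le_sup_left) (habel j le_sup_right) hne
  -- the images of commutators
  have hcond : ∀ g h : G, ((π g ∉ (A i).map π ∧ π h ∉ (A j).map π) ↔
      (π g ∉ (A j).map π ∧ π h ∉ (A i).map π)) ↔
      ((g ∉ A i ∧ h ∉ A j) ↔ (g ∉ A j ∧ h ∉ A i)) := by
    intro g h
    rw [hmem _ hVi, hmem _ hVj, hmem _ hVi, hmem _ hVj]
  have hCπ : ∀ b ∈ commutator G, π b = 1 ∨ π b = z := by
    intro b hb
    rw [← hC]
    have h1 : commutator G ≤ (commutator (G ⧸ V)).comap π := by
      rw [commutator_def, Subgroup.commutator_le]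
      intro g _ h _
      rw [Subgroup.mem_comap, map_commutatorElement]
      exact Subgroup.commutator_mem_commutator (Subgroup.mem_top _) (Subgroup.mem_top _)
    exact h1 hb
  have hz1 : z ≠ 1 := by
    intro h
    apply hmeet i j hij
    refine le_antisymm hVC fun b hb => ?_
    rcases hCπ b hb with h1 | h1
    · exact (hπ1 b).1 h1
    · exact (hπ1 b).1 (h1.trans h)
  have hiff : ∀ g h : G, ⁅g, h⁆ ∈ V ↔ ((g ∉ A i ∧ h ∉ A j) ↔ (g ∉ A j ∧ h ∉ A i)) := by
    intro g h
    rw [← hπ1, map_commutatorElement, ← hcond]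
    constructor
    · intro h1
      by_contra h2
      exact hz1 (((hz (π g) (π h)).2 h2).symm.trans h1)
    · exact (hz (π g) (π h)).1
  refine ⟨?_, hiff⟩
  obtain ⟨a, haC, haV⟩ : ∃ a ∈ commutator G, a ∉ V := by
    by_contra hcon
    push Not at hcon
    exact hmeet i j hij (le_antisymm hVC hcon)
  have haz : π a = z := (hCπ a haC).resolve_left fun h => haV ((hπ1 a).1 h)
  rw [Subgroup.relIndex_eq_two_iff]
  refine ⟨a, haC, fun b hb => ?_⟩
  rcases hCπ b hb with h1 | h1
  · right
    refine ⟨(hπ1 b).1 h1, fun h2 => ?_⟩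
    rw [← hπ1, map_mul, h1, haz, one_mul] at h2
    exact hz1 h2
  · left
    refine ⟨?_, fun h2 => ?_⟩
    · rcases hCπ (b * a) ((commutator G).mul_mem hb haC) with h2 | h2
      · exact (hπ1 _).1 h2
      · exfalso
        rw [map_mul, h1, haz] at h2
        exact hz1 (by simpa using h2)
    · exact hz1 (h1.symm.trans ((hπ1 b).2 h2))

end Pool.Agent.StarkRQ.Rank3
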